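import Mathlib

/-!
# Triple products: the algebraic identities

`z1, z2` stand for the directions of two waves of frequency `1`, `z3, z4` for the directions of two
waves of frequency `r`, with `z1 + z2 + r (z3 + z4) = 0`.
-/

set_option autoImplicit false

namespace Pool.Agent.K1H18.TP

variable {Q : Type*} [CommRing Q]

/-- the relations -/
structure Rel (z1 z2 z3 z4 y1 y2 y3 y4 r r' : Q) : Prop where
  h1 : z1 * y1 = 1
  h2 : z2 * y2 = 1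
  h3 : z3 * y3 = 1
  h4 : z4 * y4 = 1
  hr : r * r' = 1
  t : z1 + z2 + r * (z3 + z4) = 0
  tb : y1 + y2 + r * (y3 + y4) = 0
  nu : z1 * z2 * (y3 * y4) + z3 * z4 * (y1 * y2) - 2 = 0

variable {z1 z2 z3 z4 y1 y2 y3 y4 r r' : Q}

lemma Rel.e0 (H : Rel z1 z2 z3 z4 y1 y2 y3 y4 r r') :
    z4 * y2 + z2 * y4 = z1 * y3 + z3 * y1 := by
  obtain ⟨h1, h2, h3, h4, hr, t, tb, nu⟩ := H
  have e : r * (z4 * y2 + z2 * y4 - (z1 * y3 + z3 * y1)) = 0 := by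
    linear_combination (-(y1 + r * y3)) * t + (z2 + r * z4) * tb + h1 + r ^ 2 * h3 - h2 - r ^ 2 * h4
  linear_combination r' * e - (z4 * y2 + z2 * y4 - (z1 * y3 + z3 * y1)) * hr

/-- the null form: `(z' - z)² = 0` -/
lemma Rel.n2 (H : Rel z1 z2 z3 z4 y1 y2 y3 y4 r r') :
    (z4 * y2 - z1 * y3) ^ 2 = 0 := by
  obtain ⟨h1, h2, h3, h4, hr, t, tb, nu⟩ := H
  linear_combination (z1 * y3 * (z4 * y2)) * nu - (z1 * y3) ^ 2 * (z4 * y4) * h2 -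
    (z1 * y3) ^ 2 * h4 - (z4 * y2) ^ 2 * (z3 * y3) * h1 - (z4 * y2) ^ 2 * h3

lemma Rel.e1 (H : Rel z1 z2 z3 z4 y1 y2 y3 y4 r r') :
    (z1 * y3 - z3 * y1) * (z4 * y2 - z1 * y3) = 0 := by
  have e0 := H.e0
  have n2 := H.n2
  obtain ⟨h1, h2, h3, h4, hr, t, tb, nu⟩ := H
  linear_combination (z4 * y2) * e0 - n2 - (z4 * y4) * h2 - h4 + (z3 * y3) * h1 + h3

lemma Rel.pe (H : Rel z1 z2 z3 z4 y1 y2 y3 y4 r r') :
    (z3 + z4) * (z1 * z2 - z3 * z4) = 0 := by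
  obtain ⟨h1, h2, h3, h4, hr, t, tb, nu⟩ := H
  have e : r * ((z3 + z4) * (z1 * z2 - z3 * z4)) = 0 := by
    linear_combination (z1 * z2 * z3 * z4) * tb - (z3 * z4) * t - (z2 * z3 * z4) * h1 -
      (z1 * z3 * z4) * h2 - r * (z1 * z2 * z4) * h3 - r * (z1 * z2 * z3) * h4
  linear_combination r' * e - ((z3 + z4) * (z1 * z2 - z3 * z4)) * hr

lemma Rel.py (H : Rel z1 z2 z3 z4 y1 y2 y3 y4 r r') :
    (z3 + z4) * (y1 * y2 - y3 * y4) = 0 := by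
  have pe := H.pe
  obtain ⟨h1, h2, h3, h4, hr, t, tb, nu⟩ := H
  have e : y1 * y2 - y3 * y4 = -(z1 * z2 - z3 * z4) * (y1 * y2 * y3 * y4) := by
    linear_combination (y3 * y4) * (z2 * y2) * h1 + (y3 * y4) * h2 - (y1 * y2) * (z4 * y4) * h3 -
      (y1 * y2) * h4
  linear_combination (z3 + z4) * e - (y1 * y2 * y3 * y4) * pe

lemma Rel.pR (H : Rel z1 z2 z3 z4 y1 y2 y3 y4 r r') :
    (z3 + z4) * (1 + r ^ 2 + r * (z1 * y3 + z3 * y1)) =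
      -((z3 + z4) * ((z1 + r * z3) ^ 2 * (y1 * y2))) := by
  have py := H.py
  obtain ⟨h1, h2, h3, h4, hr, t, tb, nu⟩ := H
  have e1 : 1 + r ^ 2 + r * (z1 * y3 + z3 * y1) = (z1 + r * z3) * (y1 + r * y3) := by
    linear_combination -h1 - r ^ 2 * h3
  have e2 : (z3 + z4) * (y1 + r * y3) = (z3 + z4) * ((z2 + r * z4) * (y1 * y2)) := by
    linear_combination (-(z3 + z4) * y1) * h2 - ((z3 + z4) * r * y3) * h4 - (r * z4) * py
  linear_combination (z3 + z4) * e1 + (z1 + r * z3) * e2 +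
    ((z3 + z4) * (z1 + r * z3) * (y1 * y2)) * t

lemma Rel.pA (H : Rel z1 z2 z3 z4 y1 y2 y3 y4 r r') :
    (z3 + z4) * (z1 * y3 + z3 * y1 + 2 * r) =
      -((z3 + z4) * ((z3 - z4) * (z1 + r * z3) * (y3 * y4))) := by
  have pe := H.pe
  obtain ⟨h1, h2, h3, h4, hr, t, tb, nu⟩ := H
  have a1 : z1 * y3 + z3 * y1 + 2 * r + (z3 - z4) * (z1 + r * z3) * (y3 * y4) =
      y4 * (z1 + z2 + r * (z3 + z4)) + y4 * y1 * (z3 * z4 - z1 * z2) := by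
    linear_combination (z1 * y4) * h3 + (r * z3 * y4) * h3 - (z1 * y3) * h4 - r * (z4 * y4) * h3 -
      r * h4 - r * h4 - (z3 * y1) * h4 + (y4 * z2) * h1
  linear_combination (z3 + z4) * a1 + ((z3 + z4) * y4) * t - (y4 * y1) * pe

lemma Rel.pB (H : Rel z1 z2 z3 z4 y1 y2 y3 y4 r r') :
    (z3 + z4) * (r * (z1 * y3 + z3 * y1) + 2) =
      -((z3 + z4) * ((z1 - z2) * (z1 + r * z3) * (y1 * y2))) := by
  have pe := H.pe
  obtain ⟨h1, h2, h3, h4, hr, t, tb, nu⟩ := H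
  have a2 : r * (z1 * y3 + z3 * y1) + 2 + (z1 - z2) * (z1 + r * z3) * (y1 * y2) =
      y2 * (z1 + z2 + r * (z3 + z4)) + r * (y2 * y3) * (z1 * z2 - z3 * z4) := by
    linear_combination (z1 * y2) * h1 + (r * z3 * y2) * h1 - (z2 * y2) * h1 - h2 -
      (r * z3 * y1) * h2 - (r * z1 * y3) * h2 + (r * y2 * z4) * h3 - h2
  linear_combination (z3 + z4) * a2 + ((z3 + z4) * y2) * t + (r * (y2 * y3)) * pe

/-- **the key identity** -/
theorem Rel.key (H : Rel z1 z2 z3 z4 y1 y2 y3 y4 r r') :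
    (z1 * y3 - z3 * y1) ^ 2 * ((z1 * y3 + z3 * y1 + 2 * r) * (r * (z1 * y3 + z3 * y1) + 2)) =
      -(r' * (1 + r ^ 2 + r * (z1 * y3 + z3 * y1)) ^ 2 *
        ((z1 * y2 - z2 * y1) * (z3 * y4 - z4 * y3))) := by
  have n2 := H.n2
  have e1 := H.e1
  have pR := H.pR
  have pA := H.pA
  have pB := H.pB
  obtain ⟨h1, h2, h3, h4, hr, t, tb, nu⟩ := H
  have e3 : z4 * y2 - z3 * y1 = (z3 + z4) * (z1 + r * z3) * (y1 * y2) := by
    linear_combination -(z3 * y1 * y2) * t - (z4 * y2) * h1 + (z3 * y1) * h2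
  have e4 : (z1 * y3 - z3 * y1) ^ 2 = (z4 * y2 - z3 * y1) ^ 2 := by
    linear_combination -n2 - 2 * e1
  have s1 : z1 * y2 - z2 * y1 = -(r * ((z3 + z4) * ((z1 - z2) * (y1 * y2)))) := by
    linear_combination (-(z1 * y2)) * h1 + (z2 * y1) * h2 + ((z1 - z2) * (y1 * y2)) * t
  have s2 : z3 * y4 - z4 * y3 = (z3 - z4) * (z3 + z4) * (y3 * y4) := by
    linear_combination (-(z3 * y4)) * h3 + (z4 * y3) * h4
  rw [e4, e3, s1, s2]
  linear_combination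
    ((z1 + r * z3) ^ 2 * (y1 * y2) ^ 2 * ((z3 + z4) * (r * (z1 * y3 + z3 * y1) + 2))) * pA -
    ((z1 + r * z3) ^ 2 * (y1 * y2) ^ 2 * ((z3 + z4) * ((z3 - z4) * (z1 + r * z3) * (y3 * y4)))) *
      pB -
    ((z1 - z2) * (y1 * y2) * ((z3 - z4) * (y3 * y4)) *
      ((z3 + z4) * (1 + r ^ 2 + r * (z1 * y3 + z3 * y1)) -
        (z3 + z4) * ((z1 + r * z3) ^ 2 * (y1 * y2)))) * pR -
    ((1 + r ^ 2 + r * (z1 * y3 + z3 * y1)) ^ 2 * (z3 + z4) ^ 2 * (z1 - z2) * (y1 * y2) *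
      (z3 - z4) * (y3 * y4)) * hr

end Pool.Agent.K1H18.TP
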