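import Pool.Agent.K1H18.TP.Kern

/-!
# Triple products: the abstract conclusions
-/

set_option autoImplicit false
open Filter Topology

namespace Pool.Agent.K1H18.TP

noncomputable section

open AddMonoidAlgebra (single)

variable {l : Filter ℕ} {ρ ρ' : Bd} {μ : ℝ} {J : ℤ × ℤ × ℤ × ℤ → ℕ → ℂ} {t : ℤ → ℕ → ℂ}

/-- a sequence with arbitrarily good bounds is null -/
lemma sq_null {x : ℕ → ℂ} {a : Bd} {y : ℕ → ℕ → ℂ} {C : ℝ} {ε : ℕ → ℝ}
    (hε : Tendsto ε atTop (𝓝 0))
    (h1 : ∀ N, ∀ η > 0, ∀ᶠ n in l, ‖y N n‖ ^ 2 ≤ C * ε N + η)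
    (h2 : ∀ N, Tendsto (fun n => a.v n * y N n - x n) l (𝓝 0)) : Tendsto x l (𝓝 0) := by
  obtain ⟨A, hA0, hA⟩ := a.bd
  rw [Metric.tendsto_nhds]
  intro δ hδ
  have hA1 : 0 < A + 1 := by linarith
  set η : ℝ := (δ / (2 * (A + 1))) ^ 2 / 2 with hη
  have hη0 : 0 < η := by positivity
  have h3 : Tendsto (fun N => C * ε N) atTop (𝓝 0) := by
    have := hε.const_mul C
    rwa [mul_zero] at this
  obtain ⟨N, hN⟩ := (h3.eventually (gt_mem_nhds hη0)).exists
  filter_upwards [h1 N η hη0, Metric.tendsto_nhds.1 (h2 N) (δ / 2) (by positivity)] with n h4 h5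
  rw [dist_zero_right] at h5 ⊢
  have h6 : ‖y N n‖ ^ 2 < (δ / (2 * (A + 1))) ^ 2 := by
    have : (δ / (2 * (A + 1))) ^ 2 = 2 * η := by rw [hη]; ring
    rw [this]; linarith
  have h7 : ‖y N n‖ < δ / (2 * (A + 1)) := lt_of_pow_lt_pow_left₀ 2 (by positivity) h6
  have h8 : ‖x n‖ ≤ ‖a.v n * y N n‖ + ‖a.v n * y N n - x n‖ := by
    have := norm_sub_le (a.v n * y N n) (a.v n * y N n - x n)
    rwa [sub_sub_cancel] at this
  have h9 : ‖a.v n * y N n‖ ≤ δ / 2 := by
    rw [norm_mul]
    calc ‖a.v n‖ * ‖y N n‖ ≤ (A + 1) * (δ / (2 * (A + 1))) :=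
          mul_le_mul ((hA n).trans (by linarith)) h7.le (norm_nonneg _) hA1.le
      _ = δ / 2 := by field_simp
  linarith

lemma null_of_mul {x : ℕ → ℂ} {g : ℕ → ℂ} {c0 : ℝ} (hc0 : 0 < c0) (hg : ∀ᶠ n in l, c0 ≤ ‖g n‖)
    (h : Tendsto (fun n => g n * x n) l (𝓝 0)) : Tendsto x l (𝓝 0) := by
  have h1 := (tendsto_zero_iff_norm_tendsto_zero.1 h).const_mul (1 / c0)
  rw [mul_zero] at h1
  rw [tendsto_zero_iff_norm_tendsto_zero]
  refine squeeze_zero' (Eventually.of_forall fun n => norm_nonneg _) ?_ h1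
  filter_upwards [hg] with n hn
  rw [norm_mul, one_div, ← div_eq_inv_mul, le_div_iff₀ hc0, mul_comm]
  exact mul_le_mul_of_nonneg_right hn (norm_nonneg _)

lemma sT_sq : sT ^ 2 = cT ^ 2 - 4 := by
  have h : (single 1 1 : A1) * single (-1) 1 = 1 := by
    rw [AddMonoidAlgebra.single_mul_single, mul_one]; rfl
  unfold sT cT
  linear_combination (-4) * h

lemma cj_Dp (hc : cjB ρ = ρ) : cj (Dp ρ) = Dp ρ := by
  unfold Dp
  simp only [map_mul, map_add, cj_cT, cj_single, hc, map_ofNat]

/-- **outside of the spectrum** -/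
theorem TD.out (D : TD l ρ ρ' μ J t) {c : Bd} (hc : cjB c = c) {κ : ℝ} (hκ0 : 0 ≤ κ)
    (hκ1 : 2 * κ < 1) (hκ : ∀ n, ‖c.v n‖ ≤ κ) (hr : single 0 c * cT - 1 ∈ nul l t) {c0 : ℝ}
    (hc0 : 0 < c0) (hg : ∀ᶠ n in l, c0 ≤ ‖(1 - 4 * c.v n ^ 2) * (1 + 2 * ρ.v n * c.v n) *
      (ρ.v n + 2 * c.v n)‖) : Tendsto (t 0) l (𝓝 0) := by
  have hk : (sT * Dp ρ) * cj (sT * Dp ρ) = Dp ρ * (sT ^ 2 * Dp ρ) := by
    rw [map_mul, cj_sT, cj_Dp D.rc]; ring
  obtain ⟨C, hC0, hC⟩ := D.core hk (K := KO c) (ε := fun N => (2 * κ) ^ (2 * N))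
    (fun N n => KO_q hκ N n) (fun N X C _ hX => KO_b hc hκ N X C hX)
  refine null_of_mul hc0 hg ?_
  refine sq_null (a := c ^ 4) (C := C) (ε := fun N => (2 * κ) ^ (2 * N)) ?_ hC fun N => ?_
  · have h1 : Tendsto (fun N => ((2 * κ) ^ 2) ^ N) atTop (𝓝 0) :=
      tendsto_pow_atTop_nhds_zero_of_lt_one (by positivity) (by nlinarith)
    simpa only [pow_mul] using h1
  · set π := Ideal.Quotient.mk (nul l t) with hπ
    have e0 : π (single 0 c) * π cT = 1 := by
      have := Ideal.Quotient.eq_zero_iff_mem.2 hr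
      rw [map_sub, map_mul, map_one] at this
      linear_combination this
    have e1 : π (single 0 (c ^ 4) * (sT * (sT * Dp ρ * KO c N))) =
        π (single 0 ((1 - 4 * c ^ 2) * (1 + 2 * ρ * c) * (ρ + 2 * c))) := by
      have eK : π (KO c N) = 1 := by
        unfold KO
        rw [map_pow, map_mul, e0, one_pow]
      have sp : ∀ a b : Bd, (single 0 (a * b) : A1) = single 0 a * single 0 b := fun a b => by
        rw [AddMonoidAlgebra.single_mul_single, zero_add]
      have sa : ∀ a b : Bd, (single 0 (a + b) : A1) = single 0 a + single 0 b := fun a b =>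
        AddMonoidAlgebra.single_add ..
      have ss : ∀ a b : Bd, (single 0 (a - b) : A1) = single 0 a - single 0 b := fun a b =>
        AddMonoidAlgebra.single_sub ..
      have s1 : (single 0 (1 : Bd) : A1) = 1 := rfl
      have s2 : (single 0 (2 : Bd) : A1) = 2 := by
        rw [show (2 : Bd) = 1 + 1 by norm_num, sa, s1]; norm_num
      have s4 : (single 0 (4 : Bd) : A1) = 4 := by
        rw [show (4 : Bd) = 2 + 2 by norm_num, sa, s2]; norm_num
      have sc4 : (single 0 (c ^ 4) : A1) = single 0 c ^ 4 := by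
        rw [show c ^ 4 = c * c * (c * c) by ring, sp, sp]; ring
      have sc2 : (single 0 (c ^ 2) : A1) = single 0 c ^ 2 := by
        rw [show c ^ 2 = c * c by ring, sp]; ring
      rw [show sT * (sT * Dp ρ * KO c N) = sT ^ 2 * Dp ρ * KO c N by ring, sT_sq]
      unfold Dp
      simp only [sp, sa, ss, s1, s2, s4, sc2, sc4, map_mul, map_sub, map_add, map_pow, map_one,
        map_ofNat, eK]
      set x := π (single 0 c)
      set y := π cT
      set r := π (single 0 ρ)
      have f2 : x ^ 2 * (y ^ 2 - 4) = 1 - 4 * x ^ 2 := by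
        linear_combination (x * y + 1) * e0
      have f3 : x * (y + 2 * r) = 1 + 2 * r * x := by linear_combination e0
      have f4 : x * (r * y + 2) = r + 2 * x := by linear_combination r * e0
      calc x ^ 4 * ((y ^ 2 - 4) * ((y + 2 * r) * (r * y + 2)) * 1) =
          (x ^ 2 * (y ^ 2 - 4)) * (x * (y + 2 * r)) * (x * (r * y + 2)) := by ring
        _ = _ := by rw [f2, f3, f4]
    refine (nul_eq e1).congr fun n => ?_
    rw [Lf_c, Lf_single]
    simp only [v_pow, v_mul, v_add, v_sub, v_one]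
    have v2 : (2 : Bd).v n = 2 := by
      rw [show (2 : Bd) = 1 + 1 by norm_num, v_add, v_one]; norm_num
    have v4 : (4 : Bd).v n = 4 := by
      rw [show (4 : Bd) = 2 + 2 by norm_num, v_add, v2]; norm_num
    rw [v2, v4]

/-- **inside of the spectrum**, one orientation -/
theorem TD.ins (D : TD l ρ ρ' μ J t) {z : Bd} (hz : z * cjB z = 1) {δ : ℝ} (hδ : 0 < δ)
    (hz2 : ∀ n, δ ≤ ‖z.v n - (starRingEnd ℂ) (z.v n)‖)
    (hr : cT - single 0 (z + cjB z) ∈ nul l t) {h2 k' : A1} (hh : h2 * cj h2 = Dp ρ * k')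
    {hv : Bd} (hhv : Ideal.Quotient.mk (nul l t) (single 1 1 - single 0 (cjB z)) *
      Ideal.Quotient.mk _ h2 = Ideal.Quotient.mk _ (single 1 1 - single 0 (cjB z)) *
      Ideal.Quotient.mk _ (single 0 hv)) {c0 : ℝ} (hc0 : 0 < c0)
    (hg : ∀ᶠ n in l, c0 ≤ ‖hv.v n‖) :
    Tendsto (fun n => t 1 n - (starRingEnd ℂ) (z.v n) * t 0 n) l (𝓝 0) := by
  set ζ : Bd := cjB z with hζ
  have hzz : cjB ζ = z := Bd.ext' fun n => by simp [hζ]
  have hζ1 : ∀ n, ‖ζ.v n‖ = 1 := by
    intro n
    have h1 : (z * ζ).v n = 1 := by rw [hz]; rfl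
    rw [v_mul, hζ, v_cjB, Complex.mul_conj, Complex.normSq_eq_norm_sq] at h1
    have h2 : ‖z.v n‖ ^ 2 = 1 := by exact_mod_cast h1
    rw [hζ, v_cjB, RCLike.norm_conj]
    nlinarith [norm_nonneg (z.v n)]
  have hζ2 : ∀ n, δ ≤ ‖ζ.v n - (starRingEnd ℂ) (ζ.v n)‖ := by
    intro n
    rw [hζ, v_cjB, Complex.conj_conj, norm_sub_rev]
    exact hz2 n
  have hk : ((single 1 1 - single 0 ζ) * h2) * cj ((single 1 1 - single 0 ζ) * h2) =
      Dp ρ * (k' * ((single 1 1 - single 0 ζ) * (single 1 1 - single 0 z))) := by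
    rw [map_mul, map_sub, cj_single, cj_single, map_one, hzz]
    linear_combination ((single 1 1 - single 0 ζ) * (single 1 1 - single 0 z)) * hh
  have hN : ∀ N : ℕ, (0 : ℝ) < (N : ℝ) + 1 := fun N => by positivity
  obtain ⟨C, hC0, hC⟩ := D.core hk (K := KF ζ) (ε := fun N => (1 + 4 / δ) * (1 / ((N : ℝ) + 1)))
    (fun N n => (KF_q hζ1 N n).trans (by
      have : 0 ≤ 4 / δ * (1 / ((N : ℝ) + 1)) := by have := hN N; positivity
      nlinarith)) (fun N X C hC hX m => by
      filter_upwards [KF_b hζ1 hδ hζ2 N X C hC hX m] with n hn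
      refine hn.trans (mul_le_mul_of_nonneg_right ?_ hC)
      have h3 := hN N
      have : 4 / (δ * ((N : ℝ) + 1)) = 4 / δ * (1 / ((N : ℝ) + 1)) := by field_simp
      rw [this]
      have : 0 ≤ 1 / ((N : ℝ) + 1) := by positivity
      nlinarith)
  have hd : ∀ᶠ n in l, δ * c0 ≤ ‖((z - ζ) * hv).v n‖ := by
    filter_upwards [hg] with n hn
    rw [v_mul, norm_mul, v_sub]
    refine mul_le_mul ?_ hn hc0.le (norm_nonneg _)
    rw [hζ, v_cjB]; exact hz2 n
  refine null_of_mul (mul_pos hδ hc0) hd ?_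
  refine sq_null (a := 1) (C := C) (ε := fun N => (1 + 4 / δ) * (1 / ((N : ℝ) + 1))) ?_ hC
    fun N => ?_
  · have := (tendsto_one_div_add_atTop_nhds_zero_nat (𝕜 := ℝ)).const_mul (1 + 4 / δ)
    rwa [mul_zero] at this
  · set π := Ideal.Quotient.mk (nul l t) with hπ
    have TT : (single 1 1 : A1) * single (-1) 1 = 1 := by
      rw [AddMonoidAlgebra.single_mul_single, mul_one]; rfl
    have pT : π (single 1 1) * π (single (-1) 1) = 1 := by rw [← map_mul, TT, map_one]
    have sa : ∀ a b : Bd, (single 0 (a + b) : A1) = single 0 a + single 0 b := fun a b =>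
      AddMonoidAlgebra.single_add ..
    have sp : ∀ a b : Bd, (single 0 (a * b) : A1) = single 0 a * single 0 b := fun a b => by
      rw [AddMonoidAlgebra.single_mul_single, zero_add]
    have pz : π (single 0 z) * π (single 0 ζ) = 1 := by
      rw [← map_mul, ← sp, hz]; rfl
    have rel : π (single 1 1) + π (single (-1) 1) = π (single 0 z) + π (single 0 ζ) := by
      have := Ideal.Quotient.eq_zero_iff_mem.2 hr
      rw [map_sub, sa, map_add] at this
      unfold cT at this
      rw [map_add] at this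
      linear_combination this
    set T := π (single 1 1) with hT
    set Ti := π (single (-1) 1) with hTi
    set Z := π (single 0 z) with hZ
    set Y := π (single 0 ζ) with hY
    have w1 : (T - Y) * T = (T - Y) * Z := by
      linear_combination T * rel - pT + pz
    have w2 : (T - Y) * Ti = (T - Y) * Y := by
      linear_combination (T - Y) * rel - w1
    have wT : π (single 1 1 - single 0 ζ) = T - Y := by rw [map_sub]
    have wk : ∀ k : ℕ, (T - Y) * (π (single (k : ℤ) (ζ ^ k))) = T - Y := by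
      intro k
      induction k with
      | zero =>
        have : π (single ((0 : ℕ) : ℤ) (ζ ^ 0)) = 1 := by rw [pow_zero]; exact map_one π
        rw [this, mul_one]
      | succ k ih =>
        have e : (single ((k + 1 : ℕ) : ℤ) (ζ ^ (k + 1)) : A1) =
            single (k : ℤ) (ζ ^ k) * (single 1 1 * single 0 ζ) := by
          rw [AddMonoidAlgebra.single_mul_single, AddMonoidAlgebra.single_mul_single, pow_succ]
          push_cast
          congr 1
          ring
        rw [e, map_mul, map_mul]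
        calc (T - Y) * (π (single (k : ℤ) (ζ ^ k)) * (T * Y)) =
            ((T - Y) * T) * Y * π (single (k : ℤ) (ζ ^ k)) := by ring
          _ = (Z * Y) * ((T - Y) * π (single (k : ℤ) (ζ ^ k))) := by rw [w1]; ring
          _ = T - Y := by rw [pz, one_mul, ih]
    have wK : (T - Y) * π (KF ζ N) = T - Y := by
      unfold KF
      rw [map_sum, Finset.mul_sum]
      have e : ∀ k ∈ Finset.range (N + 1), (T - Y) * π (single (k : ℤ)
          (ζ ^ k * cst (1 / ((N : ℂ) + 1)))) = (T - Y) * π (single 0 (cst (1 / ((N : ℂ) + 1)))) := by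
        intro k _
        have : (single (k : ℤ) (ζ ^ k * cst (1 / ((N : ℂ) + 1))) : A1) =
            single (k : ℤ) (ζ ^ k) * single 0 (cst (1 / ((N : ℂ) + 1))) := by
          rw [AddMonoidAlgebra.single_mul_single, add_zero]
        rw [this, map_mul, ← mul_assoc, wk]
      rw [Finset.sum_congr rfl e, Finset.sum_const, Finset.card_range, nsmul_eq_mul]
      have e2 : ((N + 1 : ℕ) : A1 ⧸ nul l t) * π (single 0 (cst (1 / ((N : ℂ) + 1)))) = 1 := by
        have e3 : ((N + 1 : ℕ) : A1) * single 0 (cst (1 / ((N : ℂ) + 1))) = 1 := by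
          rw [← nsmul_eq_mul]
          have e4 : ∀ m : ℕ, m • (single 0 (cst (1 / ((N : ℂ) + 1))) : A1) =
              single 0 (cst (m / ((N : ℂ) + 1))) := by
            intro m
            induction m with
            | zero =>
              rw [zero_nsmul]
              have : cst (((0 : ℕ) : ℂ) / ((N : ℂ) + 1)) = 0 := Bd.ext' fun n => by simp
              rw [this]; exact (AddMonoidAlgebra.single_zero _).symm
            | succ m ih =>
              rw [succ_nsmul, ih, ← sa]
              congr 1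
              refine Bd.ext' fun n => ?_
              simp only [v_add, v_cst]
              push_cast
              ring
          rw [e4]
          have : cst (((N + 1 : ℕ) : ℂ) / ((N : ℂ) + 1)) = 1 := Bd.ext' fun n => by
            simp only [v_cst, v_one]
            have h0 : ((N : ℂ) + 1) ≠ 0 := Nat.cast_add_one_ne_zero N
            push_cast
            exact div_self h0
          rw [this]; rfl
        have := congrArg π e3
        rwa [map_mul, map_one, map_natCast] at this
      calc ((N + 1 : ℕ) : A1 ⧸ nul l t) * ((T - Y) * π (single 0 (cst (1 / ((N : ℂ) + 1))))) =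
          (((N + 1 : ℕ) : A1 ⧸ nul l t) * π (single 0 (cst (1 / ((N : ℂ) + 1))))) * (T - Y) := by
            ring
        _ = T - Y := by rw [e2, one_mul]
    have e1 : π (single 0 1 * (sT * ((single 1 1 - single 0 ζ) * h2 * KF ζ N))) =
        π (single 0 ((z - ζ) * hv) * (single 1 1 - single 0 ζ)) := by
      have ss : (single 0 (z - ζ) : A1) = single 0 z - single 0 ζ :=
        AddMonoidAlgebra.single_sub ..
      have s1 : (single 0 (1 : Bd) : A1) = 1 := rfl
      have esT : π sT = T - Ti := by unfold sT; rw [map_sub]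
      rw [wT] at hhv
      rw [s1, one_mul, sp, ss]
      simp only [map_mul, map_sub, esT]
      calc (T - Ti) * ((T - Y) * π h2 * π (KF ζ N)) =
          (T - Ti) * π (KF ζ N) * ((T - Y) * π h2) := by ring
        _ = (T - Ti) * π (single 0 hv) * ((T - Y) * π (KF ζ N)) := by rw [hhv]; ring
        _ = ((T - Y) * T - (T - Y) * Ti) * π (single 0 hv) := by rw [wK]; ring
        _ = (Z - Y) * π (single 0 hv) * (T - Y) := by rw [w1, w2]; ring
    refine (nul_eq e1).congr fun n => ?_
    rw [Lf_c, Lf_c, Lf_sub, Lf_single, Lf_single]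
    simp only [v_one, one_mul, hζ, v_cjB]

end

end Pool.Agent.K1H18.TP
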