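import Pool.Agent.K1H18.TP.Quad

/-!
# Triple products: the mean square of `P_φ`
-/

set_option autoImplicit false
open Filter Topology

namespace Pool.Agent.K1H18.TP

noncomputable section

open AddMonoidAlgebra (single)
open Pool.Agent.W745.RW (CC)

/-- the relations of the joint moments of degree four, and the values of the third sequence -/
structure TD (l : Filter ℕ) (ρ ρ' : Bd) (μ : ℝ) (J : ℤ × ℤ × ℤ × ℤ → ℕ → ℂ) (t : ℤ → ℕ → ℂ) :
    Prop where
  rr : ρ * ρ' = 1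
  rc : cjB ρ = ρ
  T : ∀ a b c d : ℤ, Tendsto (fun n => J (a + 1, b, c, d) n + J (a, b + 1, c, d) n +
    ρ.v n * (J (a, b, c + 1, d) n + J (a, b, c, d + 1) n)) l (𝓝 0)
  Tb : ∀ a b c d : ℤ, Tendsto (fun n => J (a - 1, b, c, d) n + J (a, b - 1, c, d) n +
    ρ.v n * (J (a, b, c - 1, d) n + J (a, b, c, d - 1) n)) l (𝓝 0)
  N : ∀ a b c d : ℤ, Tendsto (fun n => J (a + 1, b + 1, c - 1, d - 1) n +
    J (a - 1, b - 1, c + 1, d + 1) n - 2 * J (a, b, c, d) n) l
    (𝓝 ((CC (a + 1) (b + 1) * CC (c - 1) (d - 1) + CC (a - 1) (b - 1) * CC (c + 1) (d + 1) -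
        2 * CC a b * CC c d) * (μ : ℂ)))
  B : ∃ B : ℝ, 0 ≤ B ∧ ∀ a b c d : ℤ, ∀ᶠ n in l, ‖J (a + 1, b - 1, c + 1, d - 1) n -
    J (a + 1, b - 1, c - 1, d + 1) n - J (a - 1, b + 1, c + 1, d - 1) n +
    J (a - 1, b + 1, c - 1, d + 1) n‖ ≤ B
  P : ∃ M : ℝ, 0 ≤ M ∧ ∀ᶠ n in l, ∀ φ : A1, ‖Lf t φ n‖ ^ 2 ≤ M * ‖Lf J (FF φ) n‖

variable {l : Filter ℕ} {ρ ρ' : Bd} {μ : ℝ} {J : ℤ × ℤ × ℤ × ℤ → ℕ → ℂ} {t : ℤ → ℕ → ℂ}

/-- the difference from the Gaussian values -/
def Jd (μ : ℝ) (J : ℤ × ℤ × ℤ × ℤ → ℕ → ℂ) (m : ℤ × ℤ × ℤ × ℤ) (n : ℕ) : ℂ :=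
  J m n - gv m n * (μ : ℂ)

lemma Lf_Jd (F : A4) (n : ℕ) : Lf (Jd μ J) F n = Lf J F n - Lf gv F n * (μ : ℂ) := by
  induction F using AddMonoidAlgebra.induction_linear with
  | zero => simp
  | add a b ha hb => rw [Lf_add, Lf_add, Lf_add, ha, hb]; ring
  | single m r => rw [Lf_single, Lf_single, Lf_single]; unfold Jd; ring

/-- the variables and their inverses -/
def z1 : A4 := single (1, 0, 0, 0) 1
def z2 : A4 := single (0, 1, 0, 0) 1
def z3 : A4 := single (0, 0, 1, 0) 1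
def z4 : A4 := single (0, 0, 0, 1) 1
def y1 : A4 := single (-1, 0, 0, 0) 1
def y2 : A4 := single (0, -1, 0, 0) 1
def y3 : A4 := single (0, 0, -1, 0) 1
def y4 : A4 := single (0, 0, 0, -1) 1

lemma CC_sh' (a b : ℤ) : CC (a - 1) b + CC a (b - 1) = 0 := by
  have h := Pool.Agent.R314.JN.CC_sh (a - 1) (b - 1)
  rw [sub_add_cancel, sub_add_cancel] at h
  rw [add_comm]
  exact h

lemma one4 : (single (0, 0, 0, 0) 1 : A4) = 1 := rfl

lemma mem_t (D : TD l ρ ρ' μ J t) :
    z1 + z2 + single 0 ρ * (z3 + z4) ∈ nul l (Jd μ J) := by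
  refine mem_nul ?_
  rintro ⟨a, b, c, d⟩
  refine (D.T a b c d).congr fun n => ?_
  have e : (z1 + z2 + single 0 ρ * (z3 + z4)) * single (a, b, c, d) 1 =
      single (a + 1, b, c, d) 1 + single (a, b + 1, c, d) 1 +
      single 0 ρ * (single (a, b, c + 1, d) 1 + single (a, b, c, d + 1) 1) := by
    unfold z1 z2 z3 z4
    simp only [add_mul, mul_assoc, AddMonoidAlgebra.single_mul_single, Prod.mk_add_mk, zero_add,
      mul_one, add_comm (1 : ℤ)]
  rw [e, Lf_add, Lf_add, Lf_c, Lf_add, Lf_single, Lf_single, Lf_single, Lf_single]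
  unfold Jd gv
  have h1 := Pool.Agent.R314.JN.CC_sh a b
  have h2 := Pool.Agent.R314.JN.CC_sh c d
  simp only [v_one, one_mul]
  linear_combination CC c d * μ * h1 + ρ.v n * CC a b * μ * h2

lemma mem_tb (D : TD l ρ ρ' μ J t) :
    y1 + y2 + single 0 ρ * (y3 + y4) ∈ nul l (Jd μ J) := by
  refine mem_nul ?_
  rintro ⟨a, b, c, d⟩
  refine (D.Tb a b c d).congr fun n => ?_
  have e : (y1 + y2 + single 0 ρ * (y3 + y4)) * single (a, b, c, d) 1 =
      single (a - 1, b, c, d) 1 + single (a, b - 1, c, d) 1 +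
      single 0 ρ * (single (a, b, c - 1, d) 1 + single (a, b, c, d - 1) 1) := by
    unfold y1 y2 y3 y4
    simp only [add_mul, mul_assoc, AddMonoidAlgebra.single_mul_single, Prod.mk_add_mk, zero_add,
      mul_one, add_comm (-1 : ℤ), Int.add_neg_one]
  rw [e, Lf_add, Lf_add, Lf_c, Lf_add, Lf_single, Lf_single, Lf_single, Lf_single]
  unfold Jd gv
  have h1 := CC_sh' a b
  have h2 := CC_sh' c d
  simp only [v_one, one_mul]
  linear_combination CC c d * μ * h1 + ρ.v n * CC a b * μ * h2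

lemma mem_nu (D : TD l ρ ρ' μ J t) :
    z1 * z2 * (y3 * y4) + z3 * z4 * (y1 * y2) - 2 ∈ nul l (Jd μ J) := by
  refine mem_nul ?_
  rintro ⟨a, b, c, d⟩
  have h := (D.N a b c d).sub_const ((CC (a + 1) (b + 1) * CC (c - 1) (d - 1) +
    CC (a - 1) (b - 1) * CC (c + 1) (d + 1) - 2 * CC a b * CC c d) * (μ : ℂ))
  rw [sub_self] at h
  refine h.congr fun n => ?_
  have e : (z1 * z2 * (y3 * y4) + z3 * z4 * (y1 * y2) - 2) * single (a, b, c, d) 1 =
      single (a + 1, b + 1, c - 1, d - 1) 1 + single (a - 1, b - 1, c + 1, d + 1) 1 -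
      (single (a, b, c, d) 1 + single (a, b, c, d) 1) := by
    unfold z1 z2 z3 z4 y1 y2 y3 y4
    simp only [add_mul, sub_mul, AddMonoidAlgebra.single_mul_single, Prod.mk_add_mk,
      zero_add, add_zero, mul_one, add_comm (1 : ℤ), add_comm (-1 : ℤ), Int.add_neg_one, two_mul]
  rw [e, Lf_sub, Lf_add, Lf_add, Lf_single, Lf_single, Lf_single]
  unfold Jd gv
  simp only [v_one, one_mul]
  ring

/-- the relations in the quotient ring -/
theorem TD.rel (D : TD l ρ ρ' μ J t) : Rel (Ideal.Quotient.mk (nul l (Jd μ J)) z1)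
    (Ideal.Quotient.mk _ z2) (Ideal.Quotient.mk _ z3) (Ideal.Quotient.mk _ z4)
    (Ideal.Quotient.mk _ y1) (Ideal.Quotient.mk _ y2) (Ideal.Quotient.mk _ y3)
    (Ideal.Quotient.mk _ y4) (Ideal.Quotient.mk _ (single 0 ρ))
    (Ideal.Quotient.mk _ (single 0 ρ')) where
  h1 := by
    rw [← map_mul, ← map_one (Ideal.Quotient.mk (nul l (Jd μ J)))]; congr 1
    unfold z1 y1; rw [AddMonoidAlgebra.single_mul_single, mul_one]; exact one4
  h2 := by
    rw [← map_mul, ← map_one (Ideal.Quotient.mk (nul l (Jd μ J)))]; congr 1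
    unfold z2 y2; rw [AddMonoidAlgebra.single_mul_single, mul_one]; exact one4
  h3 := by
    rw [← map_mul, ← map_one (Ideal.Quotient.mk (nul l (Jd μ J)))]; congr 1
    unfold z3 y3; rw [AddMonoidAlgebra.single_mul_single, mul_one]; exact one4
  h4 := by
    rw [← map_mul, ← map_one (Ideal.Quotient.mk (nul l (Jd μ J)))]; congr 1
    unfold z4 y4; rw [AddMonoidAlgebra.single_mul_single, mul_one]; exact one4
  hr := by
    rw [← map_mul, ← map_one (Ideal.Quotient.mk (nul l (Jd μ J)))]; congr 1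
    rw [AddMonoidAlgebra.single_mul_single, D.rr, add_zero]; exact one4
  t := by
    have := Ideal.Quotient.eq_zero_iff_mem.2 (mem_t D)
    rwa [map_add, map_add, map_mul, map_add] at this
  tb := by
    have := Ideal.Quotient.eq_zero_iff_mem.2 (mem_tb D)
    rwa [map_add, map_add, map_mul, map_add] at this
  nu := by
    have := Ideal.Quotient.eq_zero_iff_mem.2 (mem_nu D)
    rw [map_sub, map_add, map_mul, map_mul, map_mul, map_mul, map_mul, map_mul] at this
    rw [← this]; congr 1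

/-- the polynomial `(T + T⁻¹ + 2 ρ) (ρ (T + T⁻¹) + 2)` -/
def Dp (ρ : Bd) : A1 := (cT + 2 * single 0 ρ) * (single 0 ρ * cT + 2)

/-- the polynomial `1 + ρ² + ρ (T + T⁻¹)` -/
def Rp (ρ : Bd) : A1 := 1 + single 0 ρ ^ 2 + single 0 ρ * cT

/-- the form with bounded values -/
def S12 : A4 := (z1 * y2 - z2 * y1) * (z3 * y4 - z4 * y3)

lemma E1_T : E1 (single 1 1) = z1 * y3 := by
  rw [E1_single]; unfold z1 y3
  rw [AddMonoidAlgebra.single_mul_single, mul_one]; rfl
lemma E1_Ti : E1 (single (-1) 1) = z3 * y1 := by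
  rw [E1_single]; unfold z3 y1
  rw [AddMonoidAlgebra.single_mul_single, mul_one]; rfl
lemma E2_T : E2 (single 1 1) = z4 * y2 := by
  rw [E2_single]; unfold z4 y2
  rw [AddMonoidAlgebra.single_mul_single, mul_one]; rfl
lemma E1_C (c : Bd) : E1 (single 0 c) = single 0 c := by
  rw [E1_single]; rfl
lemma E2_C (c : Bd) : E2 (single 0 c) = single 0 c := by
  rw [E2_single]; rfl

lemma cj_sT : cj sT = sT := by
  unfold sT
  rw [map_sub, cj_single, cj_single, map_one]

lemma cj_cT : cj cT = cT := by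
  unfold cT
  rw [map_add, cj_single, cj_single, map_one]

/-- **the square of a polynomial which vanishes at `T = ± 1`** -/
theorem TD.mkFF (D : TD l ρ ρ' μ J t) {χ k : A1} (hk : χ * cj χ = Dp ρ * k) :
    Ideal.Quotient.mk (nul l (Jd μ J)) (FF (sT * χ)) =
      Ideal.Quotient.mk (nul l (Jd μ J)) (-(single 0 ρ' * E1 (Rp ρ ^ 2 * k) * S12)) := by
  have R := D.rel
  have key := R.key
  have e1 := R.e1
  set π := Ideal.Quotient.mk (nul l (Jd μ J)) with hπ
  set f : A1 →+* A4 ⧸ nul l (Jd μ J) := π.comp E1 with hf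
  set g : A1 →+* A4 ⧸ nul l (Jd μ J) := π.comp E2 with hg
  have fT : f (single 1 1) = π z1 * π y3 := by
    rw [hf, RingHom.comp_apply, E1_T, map_mul]
  have fTi : f (single (-1) 1) = π z3 * π y1 := by
    rw [hf, RingHom.comp_apply, E1_Ti, map_mul]
  have gT : g (single 1 1) = π z4 * π y2 := by
    rw [hg, RingHom.comp_apply, E2_T, map_mul]
  have fs : f sT = π z1 * π y3 - π z3 * π y1 := by
    unfold sT; rw [map_sub, fT, fTi]
  have fc : f cT = π z1 * π y3 + π z3 * π y1 := by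
    unfold cT; rw [map_add, fT, fTi]
  have fC : ∀ c, f (single 0 c) = π (single 0 c) := fun c => by
    rw [hf, RingHom.comp_apply, E1_C]
  have ag := agree f g (f sT) (fun c => by
    rw [hf, hg, RingHom.comp_apply, RingHom.comp_apply, E1_C, E2_C]) (by
    rw [fs, fT, gT]
    linear_combination -e1)
  have h1 : π (FF (sT * χ)) = f (sT * χ) * g (cj (sT * χ)) := by
    unfold FF; rw [map_mul]; rfl
  have h2 : f (sT * χ) * g (cj (sT * χ)) = f sT ^ 2 * f (χ * cj χ) := by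
    have := ag (cj (sT * χ))
    rw [map_mul f sT χ]
    have e2 : f (cj (sT * χ)) = f sT * f (cj χ) := by
      rw [map_mul cj, cj_sT, map_mul]
    rw [e2] at this
    rw [map_mul f χ]
    linear_combination (-f χ) * this
  rw [h1, h2, hk, map_mul f, fs]
  have fD : f (Dp ρ) = (π z1 * π y3 + π z3 * π y1 + 2 * π (single 0 ρ)) *
      (π (single 0 ρ) * (π z1 * π y3 + π z3 * π y1) + 2) := by
    unfold Dp
    simp only [map_mul, map_add, fc, fC, map_ofNat]
  have fR : f (Rp ρ) = 1 + π (single 0 ρ) ^ 2 + π (single 0 ρ) * (π z1 * π y3 + π z3 * π y1) := by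
    unfold Rp
    simp only [map_mul, map_add, map_pow, map_one, fc, fC]
  have h3 : π (-(single 0 ρ' * E1 (Rp ρ ^ 2 * k) * S12)) =
      -(π (single 0 ρ') * (f (Rp ρ) ^ 2 * f k) * ((π z1 * π y2 - π z2 * π y1) *
        (π z3 * π y4 - π z4 * π y3))) := by
    unfold S12
    simp only [map_neg, map_mul, map_sub, map_pow]
    rfl
  rw [h3, fD, fR]
  linear_combination (f k) * key

lemma Lf_gv_S12 (X : A4) (n : ℕ) : Lf gv (X * S12) n = 0 := by
  induction X using AddMonoidAlgebra.induction_linear with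
  | zero => simp
  | add a b ha hb => rw [add_mul, Lf_add, ha, hb, add_zero]
  | single m r =>
    obtain ⟨a, b, c, d⟩ := m
    have e : (single (a, b, c, d) r : A4) * S12 =
        single (a + 1, b - 1, c + 1, d - 1) r - single (a + 1, b - 1, c - 1, d + 1) r -
        single (a - 1, b + 1, c + 1, d - 1) r + single (a - 1, b + 1, c - 1, d + 1) r := by
      unfold S12 z1 z2 z3 z4 y1 y2 y3 y4
      simp only [mul_sub, sub_mul, AddMonoidAlgebra.single_mul_single, Prod.mk_add_mk,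
        zero_add, add_zero, mul_one, Int.add_neg_one]
      abel
    rw [e, Lf_add, Lf_sub, Lf_sub, Lf_single, Lf_single, Lf_single, Lf_single]
    unfold gv
    have h1 : CC (a + 1) (b - 1) = CC (a - 1) (b + 1) := by
      have h1 := Pool.Agent.R314.JN.CC_sh a (b - 1)
      have h2 := CC_sh' a (b + 1)
      rw [sub_add_cancel] at h1
      rw [add_sub_cancel_right] at h2
      linear_combination h1 - h2
    simp only [h1]
    ring

lemma bdd_S12 (D : TD l ρ ρ' μ J t) : ∃ B : ℝ, 0 ≤ B ∧ bdd l J S12 B := by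
  obtain ⟨B, hB0, hB⟩ := D.B
  refine ⟨B, hB0, ?_⟩
  rintro ⟨a, b, c, d⟩
  filter_upwards [hB a b c d] with n hn
  refine le_of_eq_of_le ?_ hn
  congr 1
  have e : S12 * (single (a, b, c, d) 1 : A4) =
      single (a + 1, b - 1, c + 1, d - 1) 1 - single (a + 1, b - 1, c - 1, d + 1) 1 -
      single (a - 1, b + 1, c + 1, d - 1) 1 + single (a - 1, b + 1, c - 1, d + 1) 1 := by
    rw [mul_comm]
    unfold S12 z1 z2 z3 z4 y1 y2 y3 y4
    simp only [mul_sub, sub_mul, AddMonoidAlgebra.single_mul_single, Prod.mk_add_mk,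
      zero_add, add_zero, mul_one, Int.add_neg_one]
    abel
  rw [e, Lf_add, Lf_sub, Lf_sub, Lf_single, Lf_single, Lf_single, Lf_single]
  simp

/-- **The mean square.** -/
theorem TD.core (D : TD l ρ ρ' μ J t) {χ k : A1} (hk : χ * cj χ = Dp ρ * k) {K : ℕ → A1}
    {ε : ℕ → ℝ} (hK1 : ∀ N n, q (K N) n ≤ ε N)
    (hK2 : ∀ N (X : A4) (C : ℝ), 0 ≤ C → bdd l J X C →
      bdd l J (E1 (K N * cj (K N)) * X) (ε N * C)) :
    ∃ C : ℝ, 0 ≤ C ∧ ∀ N, ∀ η > 0, ∀ᶠ n in l, ‖Lf t (sT * (χ * K N)) n‖ ^ 2 ≤ C * ε N + η := by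
  obtain ⟨B, hB0, hB⟩ := bdd_S12 D
  obtain ⟨M, hM0, hM⟩ := D.P
  obtain ⟨C1, hC10, hC1⟩ := q_mul (sT * χ)
  obtain ⟨C2, hC20, hC2⟩ := bdd_mul (-(single 0 ρ' * E1 (Rp ρ ^ 2 * k)))
  refine ⟨M * (C1 * |μ| + C2 * B), by positivity, fun N η hη => ?_⟩
  have hk' : (χ * K N) * cj (χ * K N) = Dp ρ * (k * (K N * cj (K N))) := by
    rw [map_mul]
    linear_combination (K N * cj (K N)) * hk
  have key := nul_eq (D.mkFF hk')
  set Y : A4 := E1 (K N * cj (K N)) * (-(single 0 ρ' * E1 (Rp ρ ^ 2 * k)) * S12) with hY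
  have eY : -(single 0 ρ' * E1 (Rp ρ ^ 2 * (k * (K N * cj (K N)))) * S12) = Y := by
    rw [hY, ← mul_assoc (Rp ρ ^ 2) k, map_mul E1 (Rp ρ ^ 2 * k)]
    ring
  rw [eY] at key
  have b1 : bdd l J Y (ε N * (C2 * B)) := hK2 N _ _ (by positivity) (hC2 _ _ hB)
  have b2 := b1 0
  have hMp : 0 < M + 1 := by linarith
  have ev := Metric.tendsto_nhds.1 key (η / (M + 1)) (by positivity)
  filter_upwards [hM, b2, ev] with n h1 h2 h3
  refine (h1 _).trans ?_
  rw [dist_zero_right, Lf_Jd, Lf_Jd] at h3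
  have e0 : (single 0 1 : A4) = 1 := rfl
  rw [e0, mul_one] at h2
  have gY : Lf gv Y n = 0 := by
    rw [hY, ← mul_assoc]; exact Lf_gv_S12 _ n
  rw [gY, zero_mul, sub_zero, Lf_gv_FF] at h3
  have hq : q (sT * (χ * K N)) n ≤ C1 * ε N := by
    rw [← mul_assoc]
    exact (hC1 _ n).trans (mul_le_mul_of_nonneg_left (hK1 N n) hC10)
  have h4 : ‖Lf J (FF (sT * (χ * K N))) n‖ ≤ η / (M + 1) + ε N * (C2 * B) +
      C1 * ε N * |μ| := by
    have e1 : Lf J (FF (sT * (χ * K N))) n = (Lf J (FF (sT * (χ * K N))) n -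
        (q (sT * (χ * K N)) n : ℂ) * μ - Lf J Y n) + Lf J Y n +
        (q (sT * (χ * K N)) n : ℂ) * μ := by ring
    rw [e1]
    refine (norm_add₃_le).trans (add_le_add (add_le_add h3.le h2) ?_)
    rw [norm_mul, Complex.norm_real, Complex.norm_real, Real.norm_eq_abs, Real.norm_eq_abs,
      abs_of_nonneg (q_nonneg _ n)]
    exact mul_le_mul_of_nonneg_right hq (abs_nonneg _)
  calc M * ‖Lf J (FF (sT * (χ * K N))) n‖ ≤ M * (η / (M + 1) + ε N * (C2 * B) +
      C1 * ε N * |μ|) := mul_le_mul_of_nonneg_left h4 hM0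
    _ = M * (C1 * |μ| + C2 * B) * ε N + M * (η / (M + 1)) := by ring
    _ ≤ M * (C1 * |μ| + C2 * B) * ε N + η := by
      have : M * (η / (M + 1)) ≤ η := by
        rw [← mul_div_assoc, div_le_iff₀ hMp]
        nlinarith
      linarith

end

end Pool.Agent.K1H18.TP
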