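import Pool.Agent.K1H18.TP.Concl

/-!
# Triple products: the limit along an ultrafilter
-/

set_option autoImplicit false
open Filter Topology

namespace Pool.Agent.K1H18.TP

noncomputable section

open AddMonoidAlgebra (single)
open Pool.Agent.W745.RW (CC)

/-- the data with real parameters -/
structure TR (l : Filter ℕ) (r s : ℕ → ℝ) (μ : ℝ) (J : ℤ × ℤ × ℤ × ℤ → ℕ → ℂ) (t : ℤ → ℕ → ℂ) :
    Prop where
  T : ∀ a b c d : ℤ, Tendsto (fun n => J (a + 1, b, c, d) n + J (a, b + 1, c, d) n +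
    (r n : ℂ) * (J (a, b, c + 1, d) n + J (a, b, c, d + 1) n)) l (𝓝 0)
  Tb : ∀ a b c d : ℤ, Tendsto (fun n => J (a - 1, b, c, d) n + J (a, b - 1, c, d) n +
    (r n : ℂ) * (J (a, b, c - 1, d) n + J (a, b, c, d - 1) n)) l (𝓝 0)
  N : ∀ a b c d : ℤ, Tendsto (fun n => J (a + 1, b + 1, c - 1, d - 1) n +
    J (a - 1, b - 1, c + 1, d + 1) n - 2 * J (a, b, c, d) n) l
    (𝓝 ((CC (a + 1) (b + 1) * CC (c - 1) (d - 1) + CC (a - 1) (b - 1) * CC (c + 1) (d + 1) -
        2 * CC a b * CC c d) * (μ : ℂ)))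
  B : ∃ B : ℝ, 0 ≤ B ∧ ∀ a b c d : ℤ, ∀ᶠ n in l, ‖J (a + 1, b - 1, c + 1, d - 1) n -
    J (a + 1, b - 1, c - 1, d + 1) n - J (a - 1, b + 1, c + 1, d - 1) n +
    J (a - 1, b + 1, c - 1, d + 1) n‖ ≤ B
  P : ∃ M : ℝ, 0 ≤ M ∧ ∀ᶠ n in l, ∀ φ : A1, ‖Lf t φ n‖ ^ 2 ≤ M * ‖Lf J (FF φ) n‖
  R : ∀ k : ℤ, Tendsto (fun n => (s n : ℂ) * t k n - (r n : ℂ) * (t (k + 1) n + t (k - 1) n)) l
    (𝓝 0)

variable {l : Filter ℕ} {r s : ℕ → ℝ} {μ : ℝ} {J : ℤ × ℤ × ℤ × ℤ → ℕ → ℂ} {t : ℤ → ℕ → ℂ}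

lemma TR.mono {l' : Filter ℕ} (H : TR l r s μ J t) (h : l' ≤ l) : TR l' r s μ J t where
  T a b c d := (H.T a b c d).mono_left h
  Tb a b c d := (H.Tb a b c d).mono_left h
  N a b c d := (H.N a b c d).mono_left h
  B := by
    obtain ⟨B, h0, hB⟩ := H.B
    exact ⟨B, h0, fun a b c d => (hB a b c d).filter_mono h⟩
  P := by
    obtain ⟨M, h0, hM⟩ := H.P
    exact ⟨M, h0, hM.filter_mono h⟩
  R k := (H.R k).mono_left h

/-- real bounded sequences -/
def rB (x : ℕ → ℝ) (h : ∃ C, ∀ n, |x n| ≤ C) : Bd := Bd.mk' (fun n => (x n : ℂ)) (by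
  obtain ⟨C, hC⟩ := h
  exact ⟨C, fun n => by rw [Complex.norm_real]; exact hC n⟩)

@[simp] lemma v_rB (x : ℕ → ℝ) (h : ∃ C, ∀ n, |x n| ≤ C) (n : ℕ) : (rB x h).v n = (x n : ℂ) := rfl

lemma cjB_rB (x : ℕ → ℝ) (h : ∃ C, ∀ n, |x n| ≤ C) : cjB (rB x h) = rB x h :=
  Bd.ext' fun n => by rw [v_cjB, v_rB, Complex.conj_ofReal]

lemma inv_bd {x : ℕ → ℝ} {a : ℝ} (ha : 0 < a) (h : ∀ n, a ≤ x n) :
    ∃ C, ∀ n, |(x n)⁻¹| ≤ C :=
  ⟨a⁻¹, fun n => by
    have := h n
    rw [abs_inv, abs_of_pos (by linarith)]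
    exact inv_anti₀ ha this⟩

/-- transfer, with a modification of `r` -/
lemma TR.td (H : TR l r s μ J t) {x : ℕ → ℝ} (hx : ∀ᶠ n in l, x n = r n) {a : ℝ} (ha : 0 < a)
    (hxa : ∀ n, a ≤ x n) (hb : ∃ C, ∀ n, |x n| ≤ C) :
    TD l (rB x hb) (rB (fun n => (x n)⁻¹) (inv_bd ha hxa)) μ J t where
  rr := Bd.ext' fun n => by
    have : x n ≠ 0 := (lt_of_lt_of_le ha (hxa n)).ne'
    rw [v_mul, v_rB, v_rB, v_one]
    push_cast
    exact mul_inv_cancel₀ (by exact_mod_cast this)
  rc := cjB_rB x hb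
  T a b c d := (H.T a b c d).congr' (by filter_upwards [hx] with n hn; rw [v_rB, hn])
  Tb a b c d := (H.Tb a b c d).congr' (by filter_upwards [hx] with n hn; rw [v_rB, hn])
  N := H.N
  B := H.B
  P := H.P

lemma Lf_T (c : Bd) (m : ℤ) (n : ℕ) : Lf t ((single 0 c * cT - 1) * single m 1) n =
    c.v n * (t (m + 1) n + t (m - 1) n) - t m n := by
  have e : (single 0 c * cT - 1) * single m 1 = (single (m + 1) c + single (m - 1) c) -
      single m (1 : Bd) := by
    unfold cT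
    rw [sub_mul, mul_add, AddMonoidAlgebra.single_mul_single, AddMonoidAlgebra.single_mul_single,
      add_mul, AddMonoidAlgebra.single_mul_single, AddMonoidAlgebra.single_mul_single, one_mul,
      zero_add, zero_add, mul_one, mul_one, add_comm (1 : ℤ), add_comm (-1 : ℤ), Int.add_neg_one]
  rw [e, Lf_sub, Lf_add, Lf_single, Lf_single, Lf_single, v_one]
  ring

lemma Lf_T' (c : Bd) (m : ℤ) (n : ℕ) : Lf t ((cT - single 0 c) * single m 1) n =
    (t (m + 1) n + t (m - 1) n) - c.v n * t m n := by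
  have e : (cT - single 0 c) * single m 1 = (single (m + 1) 1 + single (m - 1) 1) -
      single m c := by
    unfold cT
    rw [sub_mul, add_mul, AddMonoidAlgebra.single_mul_single, AddMonoidAlgebra.single_mul_single,
      AddMonoidAlgebra.single_mul_single, zero_add, mul_one, mul_one, add_comm (1 : ℤ),
      add_comm (-1 : ℤ), Int.add_neg_one]
  rw [e, Lf_sub, Lf_add, Lf_single, Lf_single, Lf_single, v_one]
  ring

lemma lim_of {U : Ultrafilter ℕ} {x : ℕ → ℝ} {a b : ℝ} (h : ∀ᶠ n in (U : Filter ℕ), a ≤ x n ∧ x n ≤ b) :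
    ∃ y, a ≤ y ∧ y ≤ b ∧ Tendsto x U (𝓝 y) := by
  have h1 : (U.map x : Filter ℝ) ≤ 𝓟 (Set.Icc a b) := by
    rw [le_principal_iff]
    exact h
  obtain ⟨y, hy, h2⟩ := isCompact_Icc.ultrafilter_le_nhds (U.map x) h1
  exact ⟨y, hy.1, hy.2, h2⟩

/-- outside of the spectrum -/
theorem TR.outside {U : Ultrafilter ℕ} (H : TR U r s μ J t) {a b δ : ℝ} (ha : 0 < a)
    (hr : ∀ᶠ n in (U : Filter ℕ), a ≤ r n ∧ r n ≤ b)
    (hs : ∀ᶠ n in (U : Filter ℕ), -(1 + r n ^ 2) ≤ s n) (hδ : 0 < δ)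
    (ho : ∀ᶠ n in (U : Filter ℕ), 2 * r n + δ ≤ |s n|) : Tendsto (t 0) U (𝓝 0) := by
  classical
  obtain ⟨n0, hn0⟩ := hr.exists
  have hab : a ≤ b := hn0.1.trans hn0.2
  have hb : 0 < b := by linarith
  set x : ℕ → ℝ := fun n => if a ≤ r n ∧ r n ≤ b then r n else a with hx
  have x1 : ∀ n, a ≤ x n := by
    intro n; rw [hx]; simp only; split_ifs with h
    · exact h.1
    · exact le_rfl
  have x2 : ∃ C, ∀ n, |x n| ≤ C := by
    refine ⟨b, fun n => ?_⟩
    rw [abs_of_pos (lt_of_lt_of_le ha (x1 n))]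
    rw [hx]; simp only; split_ifs with h
    · exact h.2
    · exact hab
  have x3 : ∀ᶠ n in (U : Filter ℕ), x n = r n := by
    filter_upwards [hr] with n hn
    rw [hx]; simp only [hn, and_self, if_true]
  have D := H.td x3 ha x1 x2
  set κ : ℝ := b / (2 * b + δ) with hκ
  have hd : 0 < 2 * b + δ := by linarith
  have κ0 : 0 ≤ κ := by positivity
  have κ1 : 2 * κ < 1 := by
    rw [hκ, ← mul_div_assoc, div_lt_one hd]; linarith
  set c : ℕ → ℝ := fun n => if (a ≤ r n ∧ r n ≤ b) ∧ 2 * r n + δ ≤ |s n| then r n / s n else 0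
    with hc
  have c1 : ∀ n, |c n| ≤ κ := by
    intro n
    rw [hc]; simp only; split_ifs with h
    · have h1 : 0 < r n := lt_of_lt_of_le ha h.1.1
      have h2 : 0 < |s n| := by linarith [h.2]
      rw [abs_div, abs_of_pos h1, hκ, div_le_div_iff₀ h2 hd]
      nlinarith [h.2, h.1.2, mul_le_mul_of_nonneg_left h.2 hb.le]
    · simpa using κ0
  have c2 : ∀ᶠ n in (U : Filter ℕ), c n = r n / s n := by
    filter_upwards [hr, ho] with n h1 h2
    rw [hc]; simp only [h1, h2, and_self, if_true]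
  have hsn : ∀ᶠ n in (U : Filter ℕ), δ ≤ |s n| := by
    filter_upwards [hr, ho] with n h1 h2
    linarith [h1.1]
  have rel : single 0 (rB c ⟨κ, c1⟩) * cT - 1 ∈ nul (U : Filter ℕ) t := by
    refine mem_nul fun m => ?_
    have h1 := H.R m
    have h2 : Tendsto (fun n => ((-1 / s n : ℝ) : ℂ) * ((s n : ℂ) * t m n -
        (r n : ℂ) * (t (m + 1) n + t (m - 1) n))) U (𝓝 0) := by
      have h3 := h1.norm.const_mul (1 / δ)
      rw [norm_zero, mul_zero] at h3
      refine squeeze_zero_norm' ?_ h3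
      filter_upwards [hsn] with n hn
      rw [norm_mul, Complex.norm_real, Real.norm_eq_abs, abs_div, abs_neg, abs_one]
      exact mul_le_mul_of_nonneg_right (one_div_le_one_div_of_le hδ hn) (norm_nonneg _)
    refine h2.congr' ?_
    filter_upwards [c2, hsn] with n h3 h4
    have h5 : s n ≠ 0 := by
      intro h; rw [h, abs_zero] at h4; linarith
    have h6 : (s n : ℂ) ≠ 0 := by exact_mod_cast h5
    rw [Lf_T, v_rB, h3]
    push_cast
    field_simp
    ring
  -- limits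
  obtain ⟨ρ, hρa, hρb, hρ⟩ := lim_of hr
  obtain ⟨γ, hγa, hγb, hγ⟩ := lim_of (U := U) (x := c) (a := -κ) (b := κ)
    (Eventually.of_forall fun n => abs_le.1 (c1 n))
  have hx' : Tendsto x U (𝓝 ρ) := hρ.congr' (by filter_upwards [x3] with n hn; rw [hn])
  have hρ0 : 0 < ρ := lt_of_lt_of_le ha hρa
  have γ1 : |γ| < 1 / 2 := by
    rw [abs_lt]; constructor <;> linarith
  have γ2 := abs_lt.1 γ1
  have con : γ < 0 → ρ ≤ -γ * (1 + ρ ^ 2) := by
    intro hγ0
    have h1 : ∀ᶠ n in (U : Filter ℕ), c n < 0 := hγ.eventually (gt_mem_nhds hγ0)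
    have h2 : ∀ᶠ n in (U : Filter ℕ), r n ≤ -c n * (1 + r n ^ 2) := by
      filter_upwards [h1, c2, hs, hsn, hr] with n h3 h4 h5 h6 h7
      have h8 : s n ≠ 0 := by
        intro h; rw [h, abs_zero] at h6; linarith
      have h9 : r n = c n * s n := by rw [h4]; field_simp
      nlinarith [mul_le_mul_of_nonneg_left h5 (by linarith : 0 ≤ -c n)]
    refine le_of_tendsto_of_tendsto hρ ?_ h2
    exact (hγ.neg).mul ((hρ.pow 2).const_add 1)
  set g : ℝ := (1 - 4 * γ ^ 2) * (1 + 2 * ρ * γ) * (ρ + 2 * γ) with hg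
  have g1 : 1 - 4 * γ ^ 2 ≠ 0 := by
    have : γ ^ 2 < 1 / 4 := by nlinarith
    intro h; linarith
  have g2 : 1 + 2 * ρ * γ ≠ 0 := by
    intro h
    have h1 : γ < 0 := by
      by_contra h2
      have : 0 ≤ ρ * γ := mul_nonneg hρ0.le (not_lt.1 h2)
      linarith
    have h2 := con h1
    nlinarith [mul_pos hρ0 hρ0, γ2.1, γ2.2]
  have g3 : ρ + 2 * γ ≠ 0 := by
    intro h
    have h1 : γ < 0 := by linarith
    have h2 := con h1
    have h3 : ρ = -2 * γ := by linarith
    have h4 : 0 < ρ * (1 - ρ ^ 2) := by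
      have : ρ < 1 := by linarith [γ2.1]
      have : 0 < 1 - ρ ^ 2 := by nlinarith
      positivity
    nlinarith
  have g0 : g ≠ 0 := by
    rw [hg]; exact mul_ne_zero (mul_ne_zero g1 g2) g3
  have lg : Tendsto (fun n => (1 - 4 * c n ^ 2) * (1 + 2 * x n * c n) * (x n + 2 * c n)) U
      (𝓝 g) := by
    refine Tendsto.mul (Tendsto.mul ?_ ?_) ?_
    · exact ((hγ.pow 2).const_mul 4).const_sub 1
    · exact ((hx'.const_mul 2).mul hγ).const_add 1
    · exact hx'.add (hγ.const_mul 2)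
  have lg' := (lg.norm).eventually (lt_mem_nhds (show ‖g‖ / 2 < ‖g‖ by
    have := norm_pos_iff.2 g0; linarith))
  refine D.out (cjB_rB c ⟨κ, c1⟩) κ0 κ1 (fun n => ?_) rel
    (c0 := ‖g‖ / 2) (by have := norm_pos_iff.2 g0; linarith) ?_
  · rw [v_rB, Complex.norm_real]; exact c1 n
  · filter_upwards [lg'] with n hn
    rw [v_rB, v_rB]
    have e : ((1 - 4 * (c n : ℂ) ^ 2) * (1 + 2 * (x n : ℂ) * (c n : ℂ)) *
        ((x n : ℂ) + 2 * (c n : ℂ))) =
        (((1 - 4 * c n ^ 2) * (1 + 2 * x n * c n) * (x n + 2 * c n) : ℝ) : ℂ) := by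
      push_cast; ring
    rw [e, Complex.norm_real]
    exact hn.le

/-- both orientations -/
lemma both {ρ ρ' : Bd} (D : TD l ρ ρ' μ J t) {x y : ℕ → ℝ} (hx : ∃ C, ∀ n, |x n| ≤ C)
    (hxy : ∀ n, x n ^ 2 + y n ^ 2 = 1) {δ : ℝ} (hδ : 0 < δ) (hy : ∀ n, δ ≤ y n)
    (rel : cT - single 0 (rB (fun n => 2 * x n) (by
      obtain ⟨C, hC⟩ := hx
      exact ⟨2 * C, fun n => by rw [abs_mul, abs_two]; linarith [hC n]⟩)) ∈ nul l t)
    (good : ∀ ς : ℝ, ς ^ 2 = 1 → ∀ z : Bd, (∀ n, z.v n = (x n : ℂ) + ς * y n * Complex.I) →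
      Ideal.Quotient.mk (nul l t) cT = Ideal.Quotient.mk _ (single 0 (z + cjB z)) →
      ∃ (h2 k' : A1) (hv : Bd) (c0 : ℝ), h2 * cj h2 = Dp ρ * k' ∧
      Ideal.Quotient.mk (nul l t) (single 1 1 - single 0 (cjB z)) *
      Ideal.Quotient.mk _ h2 = Ideal.Quotient.mk _ (single 1 1 - single 0 (cjB z)) *
      Ideal.Quotient.mk _ (single 0 hv) ∧ 0 < c0 ∧ ∀ᶠ n in l, c0 ≤ ‖hv.v n‖) :
    Tendsto (t 0) l (𝓝 0) := by
  have one : ∀ ς : ℝ, ς ^ 2 = 1 →
      Tendsto (fun n => t 1 n - ((x n : ℂ) - ς * y n * Complex.I) * t 0 n) l (𝓝 0) := by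
    intro ς hς
    set z : Bd := Bd.mk' (fun n => (x n : ℂ) + ς * y n * Complex.I) (by
      refine ⟨1, fun n => ?_⟩
      rw [Complex.norm_def, ← Real.sqrt_one]
      refine Real.sqrt_le_sqrt (le_of_eq ?_)
      rw [Complex.normSq_apply]
      simp only [Complex.add_re, Complex.ofReal_re, Complex.mul_re, Complex.ofReal_im,
        Complex.I_re, Complex.I_im, Complex.add_im, Complex.mul_im]
      have := hxy n
      nlinarith [this]) with hz
    have zv : ∀ n, z.v n = (x n : ℂ) + ς * y n * Complex.I := fun n => rfl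
    have zc : ∀ n, (starRingEnd ℂ) (z.v n) = (x n : ℂ) - ς * y n * Complex.I := fun n => by
      rw [zv, map_add, map_mul, map_mul, Complex.conj_ofReal, Complex.conj_ofReal,
        Complex.conj_ofReal, Complex.conj_I]
      ring
    have z1 : z * cjB z = 1 := Bd.ext' fun n => by
      rw [v_mul, v_cjB, zc, zv, v_one]
      have h1 : (x n : ℂ) ^ 2 + (y n : ℂ) ^ 2 = 1 := by exact_mod_cast hxy n
      have h2 : (ς : ℂ) ^ 2 = 1 := by exact_mod_cast hς
      linear_combination h1 + (y n : ℂ) ^ 2 * h2 - (ς : ℂ) ^ 2 * (y n : ℂ) ^ 2 * Complex.I_sq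
    have zs : single 0 (z + cjB z) = (single 0 (rB (fun n => 2 * x n) (by
      obtain ⟨C, hC⟩ := hx
      exact ⟨2 * C, fun n => by rw [abs_mul, abs_two]; linarith [hC n]⟩)) : A1) := by
      congr 1
      refine Bd.ext' fun n => ?_
      rw [v_add, v_cjB, zc, zv, v_rB]
      push_cast; ring
    have rel' : cT - single 0 (z + cjB z) ∈ nul l t := by rw [zs]; exact rel
    have rq : Ideal.Quotient.mk (nul l t) cT = Ideal.Quotient.mk _ (single 0 (z + cjB z)) :=
      Ideal.Quotient.eq.2 rel'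
    obtain ⟨h2, k', hv, c0, p1, p2, p3, p4⟩ := good ς hς z zv rq
    have hz2 : ∀ n, 2 * δ ≤ ‖z.v n - (starRingEnd ℂ) (z.v n)‖ := by
      intro n
      rw [zc, zv]
      have e : (x n : ℂ) + ς * y n * Complex.I - ((x n : ℂ) - ς * y n * Complex.I) =
          ((2 * (ς * y n) : ℝ) : ℂ) * Complex.I := by push_cast; ring
      rw [e, norm_mul, Complex.norm_I, mul_one, Complex.norm_real, Real.norm_eq_abs, abs_mul,
        abs_two, abs_mul]
      have h3 : |ς| = 1 := by
        rw [← Real.sqrt_sq_eq_abs, hς, Real.sqrt_one]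
      have h4 := hy n
      rw [h3, one_mul, abs_of_pos (by linarith)]
      linarith
    have key := D.ins z1 (δ := 2 * δ) (by linarith) hz2 rel' p1 p2 p3 p4
    exact key.congr fun n => by rw [zc]
  have h1 := (one (-1) (by norm_num)).sub (one 1 (by norm_num))
  rw [sub_zero] at h1
  refine null_of_mul (g := fun n => -(2 * y n * Complex.I)) (c0 := 2 * δ) (by linarith)
    (Eventually.of_forall fun n => ?_) (h1.congr fun n => by push_cast; ring)
  rw [norm_neg, norm_mul, Complex.norm_I, mul_one, norm_mul, Complex.norm_real, Real.norm_eq_abs]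
  have h4 := hy n
  rw [abs_of_pos (show 0 < y n by linarith), show ‖(2 : ℂ)‖ = 2 by norm_num]
  linarith

/-- the roots of unit modulus -/
lemma root {w : ℕ → ℝ} (hw : ∀ n, |w n| ≤ 1) (ς : ℝ) (hς : ς ^ 2 = 1) :
    ∃ a : Bd, a * cjB a = 1 ∧ a + cjB a = -(rB w ⟨1, hw⟩ + rB w ⟨1, hw⟩) ∧
      ∀ n, a.v n = -(w n : ℂ) - ς * (√(1 - w n ^ 2) : ℝ) * Complex.I := by
  have sq : ∀ n, (√(1 - w n ^ 2)) ^ 2 = 1 - w n ^ 2 := fun n => by
    rw [Real.sq_sqrt]
    have := hw n
    rw [abs_le] at this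
    nlinarith
  set a : Bd := Bd.mk' (fun n => -(w n : ℂ) - ς * (√(1 - w n ^ 2) : ℝ) * Complex.I) (by
      refine ⟨1, fun n => ?_⟩
      rw [Complex.norm_def, ← Real.sqrt_one]
      refine Real.sqrt_le_sqrt (le_of_eq ?_)
      rw [Complex.normSq_apply]
      simp only [Complex.sub_re, Complex.neg_re, Complex.ofReal_re, Complex.mul_re,
        Complex.ofReal_im, Complex.I_re, Complex.I_im, Complex.sub_im, Complex.neg_im,
        Complex.mul_im, Real.sqrt_one]
      have := sq n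
      nlinarith [this]) with ha
  have av : ∀ n, a.v n = -(w n : ℂ) - ς * (√(1 - w n ^ 2) : ℝ) * Complex.I := fun n => rfl
  have ac : ∀ n, (starRingEnd ℂ) (a.v n) = -(w n : ℂ) + ς * (√(1 - w n ^ 2) : ℝ) * Complex.I :=
    fun n => by
      rw [av, map_sub, map_mul, map_mul, map_neg, Complex.conj_ofReal, Complex.conj_ofReal,
        Complex.conj_ofReal, Complex.conj_I]
      ring
  refine ⟨a, Bd.ext' fun n => ?_, Bd.ext' fun n => ?_, av⟩
  · rw [v_mul, v_cjB, ac, av, v_one]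
    have h1 : ((√(1 - w n ^ 2) : ℝ) : ℂ) ^ 2 = 1 - (w n : ℂ) ^ 2 := by exact_mod_cast sq n
    have h2 : (ς : ℂ) ^ 2 = 1 := by exact_mod_cast hς
    linear_combination h1 + ((√(1 - w n ^ 2) : ℝ) : ℂ) ^ 2 * h2 -
      (ς : ℂ) ^ 2 * ((√(1 - w n ^ 2) : ℝ) : ℂ) ^ 2 * Complex.I_sq
  · rw [v_add, v_cjB, ac, av, v_neg, v_add, v_rB]
    ring

/-- inside of the spectrum -/
theorem TR.inside {U : Ultrafilter ℕ} (H : TR U r s μ J t) {a b δ : ℝ} (ha : 0 < a)
    (hr : ∀ᶠ n in (U : Filter ℕ), a ≤ r n ∧ r n ≤ b) (hδ : 0 < δ)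
    (ho : ∀ᶠ n in (U : Filter ℕ), |s n| ≤ 2 * r n - δ) : Tendsto (t 0) U (𝓝 0) := by
  classical
  obtain ⟨n0, hn0⟩ := hr.exists
  have hab : a ≤ b := hn0.1.trans hn0.2
  have hb : 0 < b := by linarith
  -- the cosine
  obtain ⟨n1, hn1, hn1'⟩ := (hr.and ho).exists
  have hδb : δ ≤ 2 * b := by
    have := abs_nonneg (s n1)
    linarith [hn1.2]
  set d : ℝ := δ / (2 * b) with hd
  have d0 : 0 < d := by positivity
  have d1 : d ≤ 1 := by rw [hd, div_le_one (by linarith)]; exact hδb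
  set x : ℕ → ℝ := fun n => if (a ≤ r n ∧ r n ≤ b) ∧ |s n| ≤ 2 * r n - δ then s n / (2 * r n)
    else 0 with hx
  have x1 : ∀ n, |x n| ≤ 1 - d := by
    intro n
    rw [hx]; simp only; split_ifs with h
    · have h1 : 0 < r n := lt_of_lt_of_le ha h.1.1
      rw [abs_div, abs_of_pos (show 0 < 2 * r n by linarith), div_le_iff₀ (by linarith), hd]
      have h2 : δ / (2 * b) * (2 * r n) ≤ δ := by
        rw [div_mul_eq_mul_div, div_le_iff₀ (by linarith)]
        nlinarith [h.1.2]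
      nlinarith [h.2]
    · rw [abs_zero]; linarith
  have x2 : ∀ᶠ n in (U : Filter ℕ), x n = s n / (2 * r n) := by
    filter_upwards [hr, ho] with n h1 h2
    rw [hx]; simp only [h1, h2, and_self, if_true]
  set y : ℕ → ℝ := fun n => √(1 - x n ^ 2) with hy
  have xx : ∀ n, x n ^ 2 ≤ 1 - d := by
    intro n
    have h := x1 n
    have h2 := abs_nonneg (x n)
    rw [← sq_abs]
    nlinarith
  have y1 : ∀ n, x n ^ 2 + y n ^ 2 = 1 := by
    intro n
    rw [hy]; simp only
    rw [Real.sq_sqrt (by linarith [xx n])]; ring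
  have y2 : ∀ n, √d ≤ y n := fun n => Real.sqrt_le_sqrt (by linarith [xx n])
  have sd : 0 < √d := Real.sqrt_pos.2 d0
  have bx : ∃ C, ∀ n, |x n| ≤ C := ⟨1 - d, x1⟩
  have rel : cT - single 0 (rB (fun n => 2 * x n) (by
      obtain ⟨C, hC⟩ := bx
      exact ⟨2 * C, fun n => by rw [abs_mul, abs_two]; linarith [hC n]⟩)) ∈
      nul (U : Filter ℕ) t := by
    refine mem_nul fun m => ?_
    have h1 := H.R m
    have h2 : Tendsto (fun n => ((-1 / r n : ℝ) : ℂ) * ((s n : ℂ) * t m n -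
        (r n : ℂ) * (t (m + 1) n + t (m - 1) n))) U (𝓝 0) := by
      have h3 := h1.norm.const_mul (1 / a)
      rw [norm_zero, mul_zero] at h3
      refine squeeze_zero_norm' ?_ h3
      filter_upwards [hr] with n hn
      have : 0 < r n := lt_of_lt_of_le ha hn.1
      rw [norm_mul, Complex.norm_real, Real.norm_eq_abs, abs_div, abs_neg, abs_one,
        abs_of_pos this]
      exact mul_le_mul_of_nonneg_right (one_div_le_one_div_of_le ha hn.1) (norm_nonneg _)
    refine h2.congr' ?_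
    filter_upwards [x2, hr] with n h3 h4
    have h6 : (r n : ℂ) ≠ 0 := by exact_mod_cast (lt_of_lt_of_le ha h4.1).ne'
    rw [Lf_T', v_rB, h3]
    push_cast
    field_simp
    ring
  -- limits
  obtain ⟨ρ, hρa, hρb, hρ⟩ := lim_of hr
  obtain ⟨γ, hγa, hγb, hγ⟩ := lim_of (U := U) (x := x) (a := -(1 - d)) (b := 1 - d)
    (Eventually.of_forall fun n => abs_le.1 (x1 n))
  have hρ0 : 0 < ρ := lt_of_lt_of_le ha hρa
  have TT : (single 1 1 : A1) * single (-1) 1 = 1 := by
    rw [AddMonoidAlgebra.single_mul_single, mul_one]; rfl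
  have sp : ∀ a b : Bd, (single 0 (a * b) : A1) = single 0 a * single 0 b := fun a b => by
    rw [AddMonoidAlgebra.single_mul_single, zero_add]
  have sa : ∀ a b : Bd, (single 0 (a + b) : A1) = single 0 a + single 0 b := fun a b =>
    AddMonoidAlgebra.single_add ..
  have ss : ∀ a b : Bd, (single 0 (a - b) : A1) = single 0 a - single 0 b := fun a b =>
    AddMonoidAlgebra.single_sub ..
  have sn : ∀ a : Bd, (single 0 (-a) : A1) = -single 0 a := fun a =>
    AddMonoidAlgebra.single_neg ..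
  have s1 : (single 0 (1 : Bd) : A1) = 1 := rfl
  have s2 : (single 0 (2 : Bd) : A1) = 2 := by
    rw [show (2 : Bd) = 1 + 1 by norm_num, sa, s1]; norm_num
  have v2 : ∀ n, (2 : Bd).v n = 2 := fun n => by
    rw [show (2 : Bd) = 1 + 1 by norm_num, v_add, v_one]; norm_num
  -- multiplication by the factor
  have wT : ∀ z : Bd, z * cjB z = 1 → Ideal.Quotient.mk (nul (U : Filter ℕ) t) cT =
      Ideal.Quotient.mk _ (single 0 (z + cjB z)) →
      Ideal.Quotient.mk (nul (U : Filter ℕ) t) (single 1 1 - single 0 (cjB z)) *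
        Ideal.Quotient.mk _ (single 1 1) =
      Ideal.Quotient.mk (nul (U : Filter ℕ) t) (single 1 1 - single 0 (cjB z)) *
        Ideal.Quotient.mk _ (single 0 z) := by
    intro z hz h
    rw [sa, map_add] at h
    unfold cT at h
    rw [map_add] at h
    have h1 := congrArg (Ideal.Quotient.mk (nul (U : Filter ℕ) t)) TT
    rw [map_mul, map_one] at h1
    have h2 : Ideal.Quotient.mk (nul (U : Filter ℕ) t) (single 0 z) *
        Ideal.Quotient.mk _ (single 0 (cjB z)) = 1 := by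
      rw [← map_mul, ← sp, hz]; rfl
    rw [map_sub]
    linear_combination (Ideal.Quotient.mk (nul (U : Filter ℕ) t) (single 1 1)) * h - h1 + h2
  have zz : ∀ (ς : ℝ), ς ^ 2 = 1 → ∀ z : Bd, (∀ n, z.v n = (x n : ℂ) + ς * y n * Complex.I) →
      z * cjB z = 1 := by
    intro ς hς z hz
    refine Bd.ext' fun n => ?_
    rw [v_mul, v_cjB, v_one, hz, map_add, map_mul, map_mul, Complex.conj_ofReal,
      Complex.conj_ofReal, Complex.conj_ofReal, Complex.conj_I]
    have h1 : (x n : ℂ) ^ 2 + (y n : ℂ) ^ 2 = 1 := by exact_mod_cast y1 n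
    have h2 : (ς : ℂ) ^ 2 = 1 := by exact_mod_cast hς
    linear_combination h1 + (y n : ℂ) ^ 2 * h2 - (ς : ℂ) ^ 2 * (y n : ℂ) ^ 2 * Complex.I_sq
  have zsum : ∀ (ς : ℝ) (z : Bd), (∀ n, z.v n = (x n : ℂ) + ς * y n * Complex.I) → ∀ n,
      (z + cjB z).v n = 2 * (x n : ℂ) := by
    intro ς z hz n
    rw [v_add, v_cjB, hz, map_add, map_mul, map_mul, Complex.conj_ofReal,
      Complex.conj_ofReal, Complex.conj_ofReal, Complex.conj_I]
    ring
  -- distance to the root
  have dist : ∀ (ς : ℝ), ς ^ 2 = 1 → ∀ (z A : Bd) (w : ℕ → ℝ),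
      (∀ n, z.v n = (x n : ℂ) + ς * y n * Complex.I) →
      (∀ n, A.v n = -(w n : ℂ) - ς * (√(1 - w n ^ 2) : ℝ) * Complex.I) →
      ∀ n, √d ≤ ‖(z - A).v n‖ := by
    intro ς hς z A w hz hA n
    have h3 : |ς| = 1 := by
      rw [← Real.sqrt_sq_eq_abs, hς, Real.sqrt_one]
    have h1 := Complex.abs_im_le_norm ((z - A).v n)
    refine le_trans ?_ h1
    have e : ((z - A).v n).im = ς * (y n + √(1 - w n ^ 2)) := by
      rw [v_sub, hz, hA]
      simp only [Complex.sub_im, Complex.add_im, Complex.ofReal_im, Complex.mul_im,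
        Complex.mul_re, Complex.ofReal_re, Complex.I_re, Complex.I_im, Complex.neg_im]
      ring
    rw [e, abs_mul, h3, one_mul]
    have h4 := y2 n
    have h5 := Real.sqrt_nonneg (1 - w n ^ 2)
    rw [abs_of_nonneg (by linarith)]
    linarith
  by_cases hc1 : γ + ρ = 0
  · -- right angle, first case
    have hρ1 : ρ < 1 := by linarith
    set p : ℕ → ℝ := fun n => if a ≤ r n ∧ r n ≤ 1 then r n else 1 with hp
    have a1 : a ≤ 1 := by linarith
    have p1 : ∀ n, a ≤ p n := by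
      intro n; rw [hp]; simp only; split_ifs with h
      · exact h.1
      · exact a1
    have p1' : ∀ n, |p n| ≤ 1 := by
      intro n
      rw [abs_of_pos (lt_of_lt_of_le ha (p1 n))]
      rw [hp]; simp only; split_ifs with h
      · exact h.2
      · exact le_rfl
    have p3 : ∀ᶠ n in (U : Filter ℕ), p n = r n := by
      filter_upwards [hr, hρ.eventually (gt_mem_nhds hρ1)] with n hn hn'
      rw [hp]; simp only [hn.1, hn'.le, and_self, if_true]
    have hp' : Tendsto p U (𝓝 ρ) := hρ.congr' (by filter_upwards [p3] with n hn; rw [hn])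
    have D := H.td p3 ha p1 ⟨1, p1'⟩
    refine both D bx y1 sd y2 rel fun ς hς z hz hzr => ?_
    obtain ⟨A, A1', A2, A3⟩ := root p1' ς hς
    set R : Bd := rB p ⟨1, p1'⟩ with hR
    refine ⟨(single 1 1 - single 0 A) * (single 0 R * cT + 2), single 1 1 * (single 0 R * cT + 2),
      (z - A) * (R * (z + cjB z) + 2), √d * (1 - ρ ^ 2), ?_, ?_, ?_, ?_⟩
    · have e1 : (single 0 A : A1) * single 0 (cjB A) = 1 := by rw [← sp, A1']; rfl
      have e2 : (single 0 A : A1) + single 0 (cjB A) = -(single 0 R + single 0 R) := by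
        rw [← sa, A2, sn, sa]
      simp only [map_mul, map_sub, map_add, cj_single, cj_cT, map_one, map_ofNat]
      rw [cjB_rB]
      unfold Dp cT
      linear_combination ((single 0 R * (single 1 1 + single (-1) 1) + 2) ^ 2) *
        (e1 - single 1 1 * e2 - TT)
    · have w1 := wT z (zz ς hς z hz) hzr
      set π := Ideal.Quotient.mk (nul (U : Filter ℕ) t) with hπ
      set W := π (single 1 1 - single 0 (cjB z)) with hW
      simp only [map_mul, map_sub, map_add, map_ofNat, sp, ss, sa, s2, hzr] at w1 ⊢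
      linear_combination (π (single 0 R) * (π (single 0 z) + π (single 0 (cjB z))) + 2) * w1
    · have : 0 < 1 - ρ ^ 2 := by nlinarith
      positivity
    · have lim : Tendsto (fun n => 2 * p n * x n + 2) U (𝓝 (2 * ρ * γ + 2)) :=
        ((hp'.const_mul 2).mul hγ).add_const 2
      have h1 : 1 - ρ ^ 2 < 2 * ρ * γ + 2 := by
        have : γ = -ρ := by linarith
        rw [this]; nlinarith
      filter_upwards [lim.eventually (lt_mem_nhds h1)] with n hn
      rw [v_mul, norm_mul]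
      refine mul_le_mul (dist ς hς z A p hz A3 n) ?_ (by nlinarith) (norm_nonneg _)
      rw [v_add, v_mul, zsum ς z hz n, v2, hR, v_rB]
      have e : (p n : ℂ) * (2 * (x n : ℂ)) + 2 = ((2 * p n * x n + 2 : ℝ) : ℂ) := by
        push_cast; ring
      rw [e, Complex.norm_real]
      exact hn.le.trans (le_abs_self _)
  by_cases hc2 : ρ * γ + 1 = 0
  · -- right angle, second case
    have hρ1 : 1 < ρ := by
      by_contra h
      have h := not_lt.1 h
      nlinarith
    set p : ℕ → ℝ := fun n => if 1 ≤ r n ∧ r n ≤ b then r n else 1 with hp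
    have p1 : ∀ n, 1 ≤ p n := by
      intro n; rw [hp]; simp only; split_ifs with h
      · exact h.1
      · exact le_rfl
    have p1' : ∃ C, ∀ n, |p n| ≤ C := by
      refine ⟨max b 1, fun n => ?_⟩
      rw [abs_of_pos (lt_of_lt_of_le one_pos (p1 n))]
      rw [hp]; simp only; split_ifs with h
      · exact h.2.trans (le_max_left _ _)
      · exact le_max_right _ _
    have p3 : ∀ᶠ n in (U : Filter ℕ), p n = r n := by
      filter_upwards [hr, hρ.eventually (lt_mem_nhds hρ1)] with n hn hn'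
      rw [hp]; simp only [hn.2, hn'.le, and_self, if_true]
    have hp' : Tendsto p U (𝓝 ρ) := hρ.congr' (by filter_upwards [p3] with n hn; rw [hn])
    have D := H.td p3 one_pos p1 p1'
    have pi1 : ∀ n, |(p n)⁻¹| ≤ 1 := by
      intro n
      have := p1 n
      rw [abs_inv, abs_of_pos (by linarith)]
      exact inv_le_one_of_one_le₀ this
    refine both D bx y1 sd y2 rel fun ς hς z hz hzr => ?_
    obtain ⟨A, A1', A2, A3⟩ := root pi1 ς hς
    have rr := D.rr
    set R : Bd := rB p p1' with hR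
    set R' : Bd := rB (fun n => (p n)⁻¹) ⟨1, pi1⟩ with hR'
    have rr' : (single 0 R : A1) * single 0 R' = 1 := by
      rw [← sp]; exact congrArg (fun c => (single 0 c : A1)) rr
    refine ⟨(single 1 1 - single 0 A) * (cT + 2 * single 0 R),
      single 0 R' * (single 1 1 * (cT + 2 * single 0 R)),
      (z - A) * ((z + cjB z) + 2 * R), √d * (ρ - ρ⁻¹), ?_, ?_, ?_, ?_⟩
    · have e1 : (single 0 A : A1) * single 0 (cjB A) = 1 := by rw [← sp, A1']; rfl
      have e2 : (single 0 A : A1) + single 0 (cjB A) = -(single 0 R' + single 0 R') := by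
        rw [← sa, A2, sn, sa]
      simp only [map_mul, map_sub, map_add, cj_single, cj_cT, map_one, map_ofNat]
      rw [cjB_rB]
      unfold Dp cT
      linear_combination ((single 1 1 + single (-1) 1 + 2 * single 0 R) ^ 2) *
        (e1 - single 1 1 * e2 - TT) - ((single 1 1 + single (-1) 1 + 2 * single 0 R) ^ 2) *
        (single 1 1 * (single 1 1 + single (-1) 1)) * rr'
    · have w1 := wT z (zz ς hς z hz) hzr
      set π := Ideal.Quotient.mk (nul (U : Filter ℕ) t) with hπ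
      set W := π (single 1 1 - single 0 (cjB z)) with hW
      simp only [map_mul, map_sub, map_add, map_ofNat, sp, ss, sa, s2, hzr] at w1 ⊢
      linear_combination (π (single 0 z) + π (single 0 (cjB z)) + 2 * π (single 0 R)) * w1
    · have h1 : ρ⁻¹ < 1 := inv_lt_one_of_one_lt₀ hρ1
      have : 0 < ρ - ρ⁻¹ := by linarith
      positivity
    · have lim : Tendsto (fun n => 2 * x n + 2 * p n) U (𝓝 (2 * γ + 2 * ρ)) :=
        (hγ.const_mul 2).add (hp'.const_mul 2)
      have h0 : ρ⁻¹ < 1 := inv_lt_one_of_one_lt₀ hρ1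
      have h1 : ρ - ρ⁻¹ < 2 * γ + 2 * ρ := by
        have : γ = -ρ⁻¹ := by
          have h5 : ρ * ρ⁻¹ = 1 := mul_inv_cancel₀ hρ0.ne'
          have h6 : ρ * (γ + ρ⁻¹) = 0 := by linarith
          rcases mul_eq_zero.1 h6 with h | h
          · linarith
          · linarith
        rw [this]; linarith
      filter_upwards [lim.eventually (lt_mem_nhds h1)] with n hn
      rw [v_mul, norm_mul]
      refine mul_le_mul (dist ς hς z A (fun n => (p n)⁻¹) hz A3 n) ?_ (by linarith)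
        (norm_nonneg _)
      rw [v_add, zsum ς z hz n, v_mul, v2, hR, v_rB]
      have e : 2 * (x n : ℂ) + 2 * (p n : ℂ) = ((2 * x n + 2 * p n : ℝ) : ℂ) := by
        push_cast; ring
      rw [e, Complex.norm_real]
      exact hn.le.trans (le_abs_self _)
  -- the generic case
  set p : ℕ → ℝ := fun n => if a ≤ r n ∧ r n ≤ b then r n else a with hp
  have p1 : ∀ n, a ≤ p n := by
    intro n; rw [hp]; simp only; split_ifs with h
    · exact h.1
    · exact le_rfl
  have p2 : ∃ C, ∀ n, |p n| ≤ C := by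
    refine ⟨b, fun n => ?_⟩
    rw [abs_of_pos (lt_of_lt_of_le ha (p1 n))]
    rw [hp]; simp only; split_ifs with h
    · exact h.2
    · exact hab
  have p3 : ∀ᶠ n in (U : Filter ℕ), p n = r n := by
    filter_upwards [hr] with n hn
    rw [hp]; simp only [hn, and_self, if_true]
  have hp' : Tendsto p U (𝓝 ρ) := hρ.congr' (by filter_upwards [p3] with n hn; rw [hn])
  have D := H.td p3 ha p1 p2
  refine both D bx y1 sd y2 rel fun ς hς z hz hzr => ?_
  set R : Bd := rB p p2 with hR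
  have g0 : (2 * γ + 2 * ρ) * (2 * ρ * γ + 2) ≠ 0 := by
    refine mul_ne_zero ?_ ?_
    · intro h; exact hc1 (by linarith)
    · intro h; exact hc2 (by linarith)
  refine ⟨Dp R, Dp R, ((z + cjB z) + 2 * R) * (R * (z + cjB z) + 2),
    ‖(2 * γ + 2 * ρ) * (2 * ρ * γ + 2)‖ / 2, ?_, ?_, ?_, ?_⟩
  · rw [cj_Dp D.rc]
  · unfold Dp
    simp only [map_mul, map_sub, map_add, map_ofNat, sp, ss, sa, s2, hzr]
  · have := norm_pos_iff.2 g0; linarith
  · have lim : Tendsto (fun n => (2 * x n + 2 * p n) * (2 * p n * x n + 2)) U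
        (𝓝 ((2 * γ + 2 * ρ) * (2 * ρ * γ + 2))) :=
      ((hγ.const_mul 2).add (hp'.const_mul 2)).mul
        (((hp'.const_mul 2).mul hγ).add_const 2)
    have h1 : ‖(2 * γ + 2 * ρ) * (2 * ρ * γ + 2)‖ / 2 <
        ‖(2 * γ + 2 * ρ) * (2 * ρ * γ + 2)‖ := by
      have := norm_pos_iff.2 g0; linarith
    filter_upwards [lim.norm.eventually (lt_mem_nhds h1)] with n hn
    rw [v_mul, v_add, v_add _ (2 : Bd), v_mul, v_mul, zsum ς z hz n, v2, hR, v_rB]
    have e : (2 * (x n : ℂ) + 2 * (p n : ℂ)) * ((p n : ℂ) * (2 * (x n : ℂ)) + 2) =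
        (((2 * x n + 2 * p n) * (2 * p n * x n + 2) : ℝ) : ℂ) := by
      push_cast; ring
    rw [e, Complex.norm_real]
    exact hn.le

/-- **the abstract theorem** -/
theorem TR.main (H : TR l r s μ J t) {a b δ : ℝ} (ha : 0 < a)
    (hr : ∀ᶠ n in l, a ≤ r n ∧ r n ≤ b)
    (hs : ∀ᶠ n in l, -(1 + r n ^ 2) ≤ s n) (hδ : 0 < δ)
    (h1 : ∀ᶠ n in l, δ ≤ |s n - 2 * r n|) (h2 : ∀ᶠ n in l, δ ≤ |s n + 2 * r n|) :
    Tendsto (t 0) l (𝓝 0) := by
  rw [tendsto_iff_ultrafilter]
  intro U hU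
  have H' := H.mono hU
  have hr' := hr.filter_mono hU
  have h1' := h1.filter_mono hU
  have h2' := h2.filter_mono hU
  rcases U.em (fun n => 2 * r n + δ ≤ |s n|) with h | h
  · exact H'.outside ha hr' (hs.filter_mono hU) hδ h
  · refine H'.inside ha hr' hδ ?_
    filter_upwards [h, hr', h1', h2'] with n a1 a2 a3 a4
    have a5 : 0 < r n := lt_of_lt_of_le ha a2.1
    rw [not_le] at a1
    rcases le_abs'.1 a3 with a3 | a3
    · rcases le_abs'.1 a4 with a4 | a4
      · have := neg_le_abs (s n); linarith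
      · rw [abs_le]; constructor <;> linarith
    · have := le_abs_self (s n); linarith

end

end Pool.Agent.K1H18.TP
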