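import Pool.Agent.K1H18.TP.Alg

/-!
# Triple products: functionals on Laurent polynomials with bounded sequences as coefficients
-/

set_option autoImplicit false
open Filter Topology

namespace Pool.Agent.K1H18.TP

noncomputable section

/-- the subring of the bounded sequences of complex numbers -/
def BdS : Subring (ℕ → ℂ) where
  carrier := {c | ∃ C : ℝ, ∀ n, ‖c n‖ ≤ C}
  mul_mem' := by
    rintro a b ⟨C, hC⟩ ⟨D, hD⟩
    refine ⟨C * D, fun n => ?_⟩
    rw [Pi.mul_apply, norm_mul]
    exact mul_le_mul (hC n) (hD n) (norm_nonneg _) ((norm_nonneg _).trans (hC n))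
  one_mem' := ⟨1, fun n => by simp⟩
  add_mem' := by
    rintro a b ⟨C, hC⟩ ⟨D, hD⟩
    exact ⟨C + D, fun n => (norm_add_le _ _).trans (add_le_add (hC n) (hD n))⟩
  zero_mem' := ⟨0, fun n => by simp⟩
  neg_mem' := by
    rintro a ⟨C, hC⟩
    exact ⟨C, fun n => by rw [Pi.neg_apply, norm_neg]; exact hC n⟩

/-- bounded sequences of complex numbers -/
def Bd : Type := BdS

instance : CommRing Bd := inferInstanceAs (CommRing BdS)

/-- the value -/
def Bd.v (c : Bd) (n : ℕ) : ℂ := Subtype.val c n

@[simp] lemma v_add (a b : Bd) (n : ℕ) : (a + b).v n = a.v n + b.v n := rfl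
@[simp] lemma v_mul (a b : Bd) (n : ℕ) : (a * b).v n = a.v n * b.v n := rfl
@[simp] lemma v_one (n : ℕ) : (1 : Bd).v n = 1 := rfl
@[simp] lemma v_zero (n : ℕ) : (0 : Bd).v n = 0 := rfl
@[simp] lemma v_neg (a : Bd) (n : ℕ) : (-a).v n = - a.v n := rfl
@[simp] lemma v_sub (a b : Bd) (n : ℕ) : (a - b).v n = a.v n - b.v n := rfl
@[simp] lemma v_pow (a : Bd) (k n : ℕ) : (a ^ k).v n = a.v n ^ k := rfl

lemma Bd.bd (c : Bd) : ∃ C : ℝ, 0 ≤ C ∧ ∀ n, ‖c.v n‖ ≤ C := by
  obtain ⟨C, hC⟩ := c.2
  exact ⟨C, (norm_nonneg _).trans (hC 0), hC⟩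

lemma Bd.ext' {a b : Bd} (h : ∀ n, a.v n = b.v n) : a = b := Subtype.ext (funext h)

/-- a bounded sequence from its values -/
def Bd.mk' (f : ℕ → ℂ) (h : ∃ C : ℝ, ∀ n, ‖f n‖ ≤ C) : Bd := ⟨f, h⟩

@[simp] lemma v_mk' (f : ℕ → ℂ) (h : ∃ C : ℝ, ∀ n, ‖f n‖ ≤ C) (n : ℕ) :
    (Bd.mk' f h).v n = f n := rfl

lemma Bd.null_mul (c : Bd) {l : Filter ℕ} {x : ℕ → ℂ} (hx : Tendsto x l (𝓝 0)) :
    Tendsto (fun n => c.v n * x n) l (𝓝 0) := by
  obtain ⟨C, hC0, hC⟩ := c.bd
  have h1 := hx.norm.const_mul C
  rw [norm_zero, mul_zero] at h1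
  refine squeeze_zero_norm (fun n => ?_) h1
  rw [norm_mul]
  exact mul_le_mul_of_nonneg_right (hC n) (norm_nonneg _)

variable {G : Type} [AddCommGroup G]

open AddMonoidAlgebra (single)

/-- the functional with the values `J m` on the monomials -/
def Lf (J : G → ℕ → ℂ) (F : AddMonoidAlgebra Bd G) (n : ℕ) : ℂ :=
  F.coeff.sum fun m c => c.v n * J m n

lemma Lf_add (J : G → ℕ → ℂ) (F F' : AddMonoidAlgebra Bd G) (n : ℕ) :
    Lf J (F + F') n = Lf J F n + Lf J F' n := by
  unfold Lf
  rw [AddMonoidAlgebra.coeff_add, Finsupp.sum_add_index']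
  · intro m; simp
  · intro m a b; simp [add_mul]

@[simp] lemma Lf_zero (J : G → ℕ → ℂ) (n : ℕ) : Lf J 0 n = 0 := by
  simp [Lf]

@[simp] lemma Lf_single (J : G → ℕ → ℂ) (m : G) (c : Bd) (n : ℕ) :
    Lf J (single m c) n = c.v n * J m n := by
  unfold Lf
  rw [AddMonoidAlgebra.coeff_single, Finsupp.sum_single_index]
  simp

lemma Lf_neg (J : G → ℕ → ℂ) (F : AddMonoidAlgebra Bd G) (n : ℕ) :
    Lf J (-F) n = - Lf J F n := by
  have h := Lf_add J F (-F) n
  rw [add_neg_cancel, Lf_zero] at h
  linear_combination -h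

lemma Lf_sub (J : G → ℕ → ℂ) (F F' : AddMonoidAlgebra Bd G) (n : ℕ) :
    Lf J (F - F') n = Lf J F n - Lf J F' n := by
  rw [sub_eq_add_neg, Lf_add, Lf_neg, sub_eq_add_neg]

lemma Lf_c (J : G → ℕ → ℂ) (c : Bd) (F : AddMonoidAlgebra Bd G) (n : ℕ) :
    Lf J (single 0 c * F) n = c.v n * Lf J F n := by
  induction F using AddMonoidAlgebra.induction_linear with
  | zero => simp
  | add f g hf hg => rw [mul_add, Lf_add, Lf_add, hf, hg, mul_add]
  | single m r =>
    rw [AddMonoidAlgebra.single_mul_single, Lf_single, Lf_single, zero_add, v_mul, mul_assoc]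

/-- the ideal of the null sequences -/
def nul (l : Filter ℕ) (J : G → ℕ → ℂ) : Ideal (AddMonoidAlgebra Bd G) where
  carrier := {F | ∀ F', Tendsto (Lf J (F * F')) l (𝓝 0)}
  add_mem' := by
    intro a b ha hb F'
    have := (ha F').add (hb F')
    rw [add_zero] at this
    refine this.congr fun n => ?_
    rw [add_mul, Lf_add]
  zero_mem' := by
    intro F'
    refine tendsto_const_nhds.congr fun n => ?_
    rw [zero_mul, Lf_zero]
  smul_mem' := by
    intro c x hx F'
    have := hx (c * F')
    rw [show c • x * F' = x * (c * F') by rw [smul_eq_mul]; ring]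
    exact this

variable {l : Filter ℕ} {J : G → ℕ → ℂ}

lemma nul_lim {F : AddMonoidAlgebra Bd G} (h : F ∈ nul l J) : Tendsto (Lf J F) l (𝓝 0) := by
  have := h 1
  rwa [mul_one] at this

lemma mem_nul {F : AddMonoidAlgebra Bd G}
    (h : ∀ m, Tendsto (Lf J (F * single m 1)) l (𝓝 0)) : F ∈ nul l J := by
  intro F'
  induction F' using AddMonoidAlgebra.induction_linear with
  | zero =>
    refine tendsto_const_nhds.congr fun n => ?_
    rw [mul_zero, Lf_zero]
  | add f g hf hg =>
    have := hf.add hg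
    rw [add_zero] at this
    refine this.congr fun n => ?_
    rw [mul_add, Lf_add]
  | single m r =>
    refine (r.null_mul (h m)).congr fun n => ?_
    rw [← Lf_c]
    congr 1
    have : (single m r : AddMonoidAlgebra Bd G) = single 0 r * single m 1 := by
      rw [AddMonoidAlgebra.single_mul_single, zero_add, mul_one]
    rw [this]; ring

/-- congruence modulo the ideal gives equality of the limits -/
lemma nul_eq {F F' : AddMonoidAlgebra Bd G}
    (h : Ideal.Quotient.mk (nul l J) F = Ideal.Quotient.mk (nul l J) F') :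
    Tendsto (fun n => Lf J F n - Lf J F' n) l (𝓝 0) := by
  have h1 := nul_lim (Ideal.Quotient.eq.1 h)
  exact h1.congr fun n => Lf_sub J F F' n

/-- two homomorphisms which agree after multiplication by `w` -/
lemma agree {Q : Type*} [CommRing Q] (f g : AddMonoidAlgebra Bd ℤ →+* Q) (w : Q)
    (hc : ∀ c : Bd, f (single 0 c) = g (single 0 c))
    (hT : w * f (single 1 1) = w * g (single 1 1)) (p : AddMonoidAlgebra Bd ℤ) :
    w * f p = w * g p := by
  have hf : f (single 1 1) * f (single (-1) 1) = 1 := by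
    rw [← map_mul, AddMonoidAlgebra.single_mul_single]; simp [← AddMonoidAlgebra.one_def]
  have hg : g (single 1 1) * g (single (-1) 1) = 1 := by
    rw [← map_mul, AddMonoidAlgebra.single_mul_single]; simp [← AddMonoidAlgebra.one_def]
  have hT' : w * f (single (-1) 1) = w * g (single (-1) 1) := by
    linear_combination (-(f (single (-1) 1) * g (single (-1) 1))) * hT +
      (w * g (single (-1) 1)) * hf - (w * f (single (-1) 1)) * hg
  have hk : ∀ k : ℤ, w * f (single k 1) = w * g (single k 1) := by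
    intro k
    induction k using Int.induction_on with
    | zero => rw [hc]
    | succ i ih =>
      have e : ∀ F : AddMonoidAlgebra Bd ℤ →+* Q, F (single ((i : ℤ) + 1) 1) =
          F (single (i : ℤ) 1) * F (single 1 1) := fun F => by
        rw [← map_mul, AddMonoidAlgebra.single_mul_single, mul_one]
      rw [e, e]
      linear_combination f (single 1 1) * ih + g (single (i : ℤ) 1) * hT
    | pred i ih =>
      have e : ∀ F : AddMonoidAlgebra Bd ℤ →+* Q, F (single (-(i : ℤ) - 1) 1) =
          F (single (-(i : ℤ)) 1) * F (single (-1) 1) := fun F => by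
        rw [← map_mul, AddMonoidAlgebra.single_mul_single, mul_one]; rfl
      rw [e, e]
      linear_combination f (single (-1) 1) * ih + g (single (-(i : ℤ)) 1) * hT'
  induction p using AddMonoidAlgebra.induction_linear with
  | zero => simp
  | add a b ha hb => rw [map_add, map_add, mul_add, mul_add, ha, hb]
  | single m r =>
    have : (single m r : AddMonoidAlgebra Bd ℤ) = single 0 r * single m 1 := by
      rw [AddMonoidAlgebra.single_mul_single, zero_add, mul_one]
    rw [this, map_mul, map_mul, hc]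
    linear_combination g (single 0 r) * hk m

end

end Pool.Agent.K1H18.TP
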