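import Pool.Agent.K1H18.TP.Core

/-!
# Triple products: kernels
-/

set_option autoImplicit false
open Filter Topology

namespace Pool.Agent.K1H18.TP

noncomputable section

open AddMonoidAlgebra (single)

/-- constant sequences -/
def cst (x : ℂ) : Bd := Bd.mk' (fun _ => x) ⟨‖x‖, fun _ => le_rfl⟩

@[simp] lemma v_cst (x : ℂ) (n : ℕ) : (cst x).v n = x := rfl

@[simp] lemma v_sum {ι : Type} (s : Finset ι) (f : ι → Bd) (n : ℕ) :
    (∑ i ∈ s, f i).v n = ∑ i ∈ s, (f i).v n := by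
  classical
  induction s using Finset.induction_on with
  | empty => simp
  | insert a s ha ih => rw [Finset.sum_insert ha, Finset.sum_insert ha, v_add, ih]

/-- double sums along the diagonals -/
lemma dsum {a b : ℂ} (ha : ‖a‖ = 1) (hb : ‖b‖ = 1) {C : ℝ} (L : ℕ) {x : ℕ → ℂ}
    (hx : ∀ j, j < 2 * L → ‖x j‖ ≤ C) (hC : 0 ≤ C) :
    ‖∑ k ∈ Finset.range L, ∑ l ∈ Finset.range L, a ^ k * b ^ l * x (k + l)‖ * ‖a - b‖ ≤
      4 * L * C := by
  set y : ℕ → ℂ := fun j => if j = 0 then 0 else x (j - 1) with hy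
  have hy' : ∀ j, j ≤ 2 * L → ‖y j‖ ≤ C := by
    intro j hj
    rw [hy]
    by_cases h : j = 0
    · simp [h, hC]
    · simp only [h, if_false]
      exact hx _ (by omega)
  set u : ℕ → ℕ → ℂ := fun k l => a ^ k * b ^ l * y (k + l) with hu
  have hub : ∀ k l, k + l ≤ 2 * L → ‖u k l‖ ≤ C := by
    intro k l h
    rw [hu]
    simp only [norm_mul, norm_pow, ha, hb, one_pow, one_mul]
    exact hy' _ h
  have e1 : (∑ k ∈ Finset.range L, ∑ l ∈ Finset.range L, a ^ k * b ^ l * x (k + l)) * (a - b) =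
      (∑ l ∈ Finset.range L, u L l) - (∑ l ∈ Finset.range L, u 0 l) -
      ((∑ k ∈ Finset.range L, u k L) - ∑ k ∈ Finset.range L, u k 0) := by
    have p1 : ∀ k l, a ^ k * b ^ l * x (k + l) * (a - b) = u (k + 1) l - u k (l + 1) := by
      intro k l
      have q1 : y (k + 1 + l) = x (k + l) := by
        rw [hy]; simp only [show k + 1 + l ≠ 0 by omega, if_false]; congr 1; omega
      have q2 : y (k + (l + 1)) = x (k + l) := by
        rw [hy]; simp only [show k + (l + 1) ≠ 0 by omega, if_false]; congr 1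
      rw [hu]
      simp only [q1, q2]
      ring
    have p2 : ∑ k ∈ Finset.range L, ∑ l ∈ Finset.range L, u (k + 1) l =
        ∑ l ∈ Finset.range L, ((∑ k ∈ Finset.range L, u k l) + u L l - u 0 l) := by
      rw [Finset.sum_comm]
      refine Finset.sum_congr rfl fun l _ => ?_
      rw [← Finset.sum_range_succ (fun k => u k l), Finset.sum_range_succ' (fun k => u k l)]
      ring
    have p3 : ∑ k ∈ Finset.range L, ∑ l ∈ Finset.range L, u k (l + 1) =
        ∑ k ∈ Finset.range L, ((∑ l ∈ Finset.range L, u k l) + u k L - u k 0) := by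
      refine Finset.sum_congr rfl fun k _ => ?_
      rw [← Finset.sum_range_succ (fun l => u k l), Finset.sum_range_succ' (fun l => u k l)]
      ring
    rw [Finset.sum_mul]
    simp only [Finset.sum_mul, p1, Finset.sum_sub_distrib]
    rw [p2, p3]
    simp only [Finset.sum_sub_distrib, Finset.sum_add_distrib]
    rw [Finset.sum_comm (f := fun l k => u k l)]
    ring
  rw [← norm_mul, e1]
  have b1 : ∀ f : ℕ → ℂ, (∀ l, l < L → ‖f l‖ ≤ C) → ‖∑ l ∈ Finset.range L, f l‖ ≤ L * C := by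
    intro f hf
    refine (norm_sum_le_of_le _ fun l hl => hf l (Finset.mem_range.1 hl)).trans ?_
    rw [Finset.sum_const, Finset.card_range, nsmul_eq_mul]
  have c1 := b1 (fun l => u L l) fun l hl => hub _ _ (by omega)
  have c2 := b1 (fun l => u 0 l) fun l hl => hub _ _ (by omega)
  have c3 := b1 (fun k => u k L) fun l hl => hub _ _ (by omega)
  have c4 := b1 (fun k => u k 0) fun l hl => hub _ _ (by omega)
  refine (norm_sub_le _ _).trans ?_
  have d1 := norm_sub_le (∑ l ∈ Finset.range L, u L l) (∑ l ∈ Finset.range L, u 0 l)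
  have d2 := norm_sub_le (∑ k ∈ Finset.range L, u k L) (∑ k ∈ Finset.range L, u k 0)
  linarith

/-- the kernel with the peak at `T = ζ⁻¹` -/
def KF (ζ : Bd) (N : ℕ) : A1 :=
  ∑ k ∈ Finset.range (N + 1), single (k : ℤ) (ζ ^ k * cst (1 / ((N : ℂ) + 1)))

lemma coeff_sum_single (L : ℕ) (c : ℕ → Bd) (j : ℕ) (hj : j < L) :
    (∑ k ∈ Finset.range L, (single (k : ℤ) (c k) : A1)).coeff (j : ℤ) = c j := by
  rw [AddMonoidAlgebra.coeff_sum, Finsupp.finsetSum_apply]
  rw [Finset.sum_eq_single_of_mem j (Finset.mem_range.2 hj)]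
  · rw [AddMonoidAlgebra.coeff_single, Finsupp.single_eq_same]
  · intro k _ hk
    rw [AddMonoidAlgebra.coeff_single, Finsupp.single_eq_of_ne]
    exact_mod_cast hk.symm

lemma coeff_sum_single' (L : ℕ) (c : ℕ → Bd) (m : ℤ)
    (hm : m ∉ (Finset.range L).image (Nat.cast : ℕ → ℤ)) :
    (∑ k ∈ Finset.range L, (single (k : ℤ) (c k) : A1)).coeff m = 0 := by
  rw [AddMonoidAlgebra.coeff_sum, Finsupp.finsetSum_apply]
  refine Finset.sum_eq_zero fun k hk => ?_
  rw [AddMonoidAlgebra.coeff_single, Finsupp.single_eq_of_ne]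
  rintro rfl
  exact hm (Finset.mem_image_of_mem _ hk)

lemma q_sum (L : ℕ) (c : ℕ → Bd) (n : ℕ) :
    q (∑ k ∈ Finset.range L, (single (k : ℤ) (c k) : A1)) n =
      ∑ k ∈ Finset.range L, ‖(c k).v n‖ ^ 2 := by
  unfold q
  rw [tsum_eq_sum (s := (Finset.range L).image (Nat.cast : ℕ → ℤ)),
    Finset.sum_image (fun a _ b _ h => by exact_mod_cast h)]
  · refine Finset.sum_congr rfl fun k hk => ?_
    rw [coeff_sum_single L c k (Finset.mem_range.1 hk)]
  · intro m hm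
    rw [coeff_sum_single' L c m hm]; simp

variable {l : Filter ℕ} {J : ℤ × ℤ × ℤ × ℤ → ℕ → ℂ}

lemma KF_q {ζ : Bd} (h1 : ∀ n, ‖ζ.v n‖ = 1) (N n : ℕ) : q (KF ζ N) n ≤ 1 / ((N : ℝ) + 1) := by
  unfold KF
  rw [q_sum]
  have e : ∀ k ∈ Finset.range (N + 1), ‖(ζ ^ k * cst (1 / ((N : ℂ) + 1))).v n‖ ^ 2 =
      (1 / ((N : ℝ) + 1)) ^ 2 := by
    intro k _
    rw [v_mul, v_pow, v_cst, norm_mul, norm_pow, h1, one_pow, one_mul, norm_div, norm_one]
    congr 2
    have : ((N : ℂ) + 1) = (((N : ℝ) + 1 : ℝ) : ℂ) := by push_cast; rfl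
    rw [this, Complex.norm_real, Real.norm_eq_abs, abs_of_pos (by positivity)]
  rw [Finset.sum_congr rfl e, Finset.sum_const, Finset.card_range, nsmul_eq_mul]
  have : (0 : ℝ) < N + 1 := by positivity
  push_cast
  apply le_of_eq
  field_simp

/-- functionals of finite sums -/
lemma Lf_sum {G : Type} [AddCommGroup G] (J : G → ℕ → ℂ) {ι : Type} (s : Finset ι)
    (f : ι → AddMonoidAlgebra Bd G) (n : ℕ) : Lf J (∑ i ∈ s, f i) n = ∑ i ∈ s, Lf J (f i) n := by
  classical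
  induction s using Finset.induction_on with
  | empty => simp
  | insert a s ha ih => rw [Finset.sum_insert ha, Finset.sum_insert ha, Lf_add, ih]

lemma KF_b {ζ : Bd} (h1 : ∀ n, ‖ζ.v n‖ = 1) {δ : ℝ} (hδ : 0 < δ)
    (h2 : ∀ n, δ ≤ ‖ζ.v n - (starRingEnd ℂ) (ζ.v n)‖) (N : ℕ) (X : A4) (C : ℝ) (hC : 0 ≤ C)
    (hX : bdd l J X C) :
    bdd l J (E1 (KF ζ N * cj (KF ζ N)) * X) (4 / (δ * ((N : ℝ) + 1)) * C) := by
  intro m
  have hx : ∀ᶠ n in l, ∀ j ∈ Finset.range (2 * (N + 1)),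
      ‖Lf J (X * single (((j : ℤ), 0, -(j : ℤ), 0) + m) 1) n‖ ≤ C := by
    rw [Filter.eventually_all_finset]
    intro j _
    exact hX _
  filter_upwards [hx] with n hn
  have hN : (0 : ℝ) < (N : ℝ) + 1 := by positivity
  set x : ℕ → ℂ := fun j => Lf J (X * single (((j : ℤ), 0, -(j : ℤ), 0) + m) 1) n with hxd
  have e1 : E1 (KF ζ N * cj (KF ζ N)) * X * single m 1 =
      ∑ k ∈ Finset.range (N + 1), ∑ l' ∈ Finset.range (N + 1),
        single 0 (ζ ^ k * cjB ζ ^ l' * cst (1 / ((N : ℂ) + 1)) ^ 2) *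
          (X * single ((((k + l' : ℕ) : ℤ), 0, -((k + l' : ℕ) : ℤ), 0) + m) 1) := by
    unfold KF
    rw [map_sum cj, Finset.sum_mul_sum, map_sum, Finset.sum_mul, Finset.sum_mul]
    refine Finset.sum_congr rfl fun k _ => ?_
    rw [map_sum, Finset.sum_mul, Finset.sum_mul]
    refine Finset.sum_congr rfl fun l' _ => ?_
    rw [cj_single, AddMonoidAlgebra.single_mul_single, E1_single]
    have c1 : cjB (ζ ^ l' * cst (1 / ((N : ℂ) + 1))) = cjB ζ ^ l' * cst (1 / ((N : ℂ) + 1)) := by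
      rw [map_mul, map_pow]
      congr 1
      refine Bd.ext' fun n => ?_
      simp
    have c2 : (single ((k : ℤ) + (l' : ℤ), 0, -((k : ℤ) + (l' : ℤ)), 0)
        (ζ ^ k * cst (1 / ((N : ℂ) + 1)) * cjB (ζ ^ l' * cst (1 / ((N : ℂ) + 1)))) : A4) =
        single 0 (ζ ^ k * cjB ζ ^ l' * cst (1 / ((N : ℂ) + 1)) ^ 2) *
          single (((k + l' : ℕ) : ℤ), 0, -((k + l' : ℕ) : ℤ), 0) 1 := by
      rw [AddMonoidAlgebra.single_mul_single, zero_add, mul_one, c1]
      push_cast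
      congr 1
      ring
    have c3 : (single ((((k + l' : ℕ) : ℤ), 0, -((k + l' : ℕ) : ℤ), 0) + m) 1 : A4) =
        single (((k + l' : ℕ) : ℤ), 0, -((k + l' : ℕ) : ℤ), 0) 1 * single m 1 := by
      rw [AddMonoidAlgebra.single_mul_single, mul_one]
    rw [c2, c3]
    ring
  rw [e1, Lf_sum]
  have e2 : ∑ k ∈ Finset.range (N + 1), Lf J (∑ l' ∈ Finset.range (N + 1),
        single 0 (ζ ^ k * cjB ζ ^ l' * cst (1 / ((N : ℂ) + 1)) ^ 2) *
          (X * single ((((k + l' : ℕ) : ℤ), 0, -((k + l' : ℕ) : ℤ), 0) + m) 1)) n =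
      (1 / ((N : ℂ) + 1)) ^ 2 * ∑ k ∈ Finset.range (N + 1), ∑ l' ∈ Finset.range (N + 1),
        ζ.v n ^ k * (starRingEnd ℂ) (ζ.v n) ^ l' * x (k + l') := by
    rw [Finset.mul_sum]
    refine Finset.sum_congr rfl fun k _ => ?_
    rw [Lf_sum, Finset.mul_sum]
    refine Finset.sum_congr rfl fun l' _ => ?_
    rw [Lf_c]
    simp only [v_mul, v_pow, v_cst, v_cjB]
    rw [hxd]
    ring
  rw [e2, norm_mul]
  have e3 : ‖(1 / ((N : ℂ) + 1)) ^ 2‖ = (1 / ((N : ℝ) + 1)) ^ 2 := by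
    rw [norm_pow, norm_div, norm_one]
    congr 2
    have : ((N : ℂ) + 1) = (((N : ℝ) + 1 : ℝ) : ℂ) := by push_cast; rfl
    rw [this, Complex.norm_real, Real.norm_eq_abs, abs_of_pos (by positivity)]
  rw [e3]
  have hd := dsum (h1 n) (show ‖(starRingEnd ℂ) (ζ.v n)‖ = 1 by rw [RCLike.norm_conj]; exact h1 n)
    (N + 1) (x := x) (C := C) (fun j hj => hn j (Finset.mem_range.2 hj)) hC
  set S : ℝ := ‖∑ k ∈ Finset.range (N + 1), ∑ l' ∈ Finset.range (N + 1),
        ζ.v n ^ k * (starRingEnd ℂ) (ζ.v n) ^ l' * x (k + l')‖ with hS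
  have hS0 : 0 ≤ S := norm_nonneg _
  have h3 : S * δ ≤ 4 * ((N : ℝ) + 1) * C := by
    refine (mul_le_mul_of_nonneg_left (h2 n) hS0).trans ?_
    refine hd.trans (le_of_eq ?_)
    push_cast; ring
  have h4 : S ≤ 4 * ((N : ℝ) + 1) * C / δ := by
    rw [le_div_iff₀ hδ]; exact h3
  calc (1 / ((N : ℝ) + 1)) ^ 2 * S ≤ (1 / ((N : ℝ) + 1)) ^ 2 * (4 * ((N : ℝ) + 1) * C / δ) :=
        mul_le_mul_of_nonneg_left h4 (by positivity)
    _ = 4 / (δ * ((N : ℝ) + 1)) * C := by field_simp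

/-- the kernel outside of the spectrum -/
def KO (c : Bd) (N : ℕ) : A1 := (single 0 c * cT) ^ N

lemma q_one (n : ℕ) : q 1 n = 1 := by
  have := q_sum 1 (fun _ => 1) n
  simp only [Finset.range_one, Finset.sum_singleton] at this
  have e : (single ((0 : ℕ) : ℤ) (1 : Bd) : A1) = 1 := rfl
  rw [e] at this
  rw [this]; simp

lemma KO_q {c : Bd} {κ : ℝ} (hκ : ∀ n, ‖c.v n‖ ≤ κ) (N n : ℕ) : q (KO c N) n ≤ (2 * κ) ^ (2 * N) := by
  induction N with
  | zero => simp [KO, q_one]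
  | succ N ih =>
    have e : KO c (N + 1) = single 0 c * cT * KO c N := by unfold KO; rw [pow_succ]; ring
    rw [e]
    refine (q_cT c hκ _ n).trans ?_
    calc (2 * κ) ^ 2 * q (KO c N) n ≤ (2 * κ) ^ 2 * (2 * κ) ^ (2 * N) :=
          mul_le_mul_of_nonneg_left ih (by positivity)
      _ = (2 * κ) ^ (2 * (N + 1)) := by ring

lemma KO_b {c : Bd} (hc : cjB c = c) {κ : ℝ} (hκ : ∀ n, ‖c.v n‖ ≤ κ) (N : ℕ) (X : A4) (C : ℝ)
    (hX : bdd l J X C) : bdd l J (E1 (KO c N * cj (KO c N)) * X) ((2 * κ) ^ (2 * N) * C) := by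
  have hcj : ∀ N, cj (KO c N) = KO c N := by
    intro N
    unfold KO
    rw [map_pow, map_mul, cj_single, cj_cT, hc]
  induction N with
  | zero =>
    have : E1 (KO c 0 * cj (KO c 0)) * X = X := by
      rw [hcj]; unfold KO; simp
    rw [this, mul_zero, pow_zero, one_mul]
    exact hX
  | succ N ih =>
    have e : E1 (KO c (N + 1) * cj (KO c (N + 1))) * X = E1 (single 0 c * cT) *
        (E1 (single 0 c * cT) * (E1 (KO c N * cj (KO c N)) * X)) := by
      rw [hcj, hcj]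
      unfold KO
      rw [← mul_assoc, ← mul_assoc, ← map_mul, ← map_mul]
      congr 2
      ring
    rw [e]
    have := bdd_cT c hκ (bdd_cT c hκ ih)
    rw [show (2 * κ) ^ (2 * (N + 1)) * C = 2 * κ * (2 * κ * ((2 * κ) ^ (2 * N) * C)) by ring]
    exact this

end

end Pool.Agent.K1H18.TP
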