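import Pool.Agent.K1H18.TP.Fin

/-!
# Triple products: frequencies whose ratio tends to `0`
-/

set_option autoImplicit false
open Filter Topology

namespace Pool.Agent.K1H18.TP

noncomputable section

/-- the relations, `r` need not be invertible -/
structure Rel0 {Q : Type*} [CommRing Q] (z1 z2 z3 z4 y1 y2 y3 y4 r : Q) : Prop where
  h1 : z1 * y1 = 1
  h2 : z2 * y2 = 1
  h3 : z3 * y3 = 1
  h4 : z4 * y4 = 1
  t : z1 + z2 + r * (z3 + z4) = 0
  tb : y1 + y2 + r * (y3 + y4) = 0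
  nu : z1 * z2 * (y3 * y4) + z3 * z4 * (y1 * y2) - 2 = 0

section alg

variable {Q : Type*} [CommRing Q] {z1 z2 z3 z4 y1 y2 y3 y4 r : Q}

lemma Rel0.e0 (H : Rel0 z1 z2 z3 z4 y1 y2 y3 y4 r) :
    r * (z4 * y2 + z2 * y4) = r * (z1 * y3 + z3 * y1) := by
  obtain ⟨h1, h2, h3, h4, t, tb, nu⟩ := H
  linear_combination (-(y1 + r * y3)) * t + (z2 + r * z4) * tb + h1 + r ^ 2 * h3 - h2 - r ^ 2 * h4

lemma Rel0.n2 (H : Rel0 z1 z2 z3 z4 y1 y2 y3 y4 r) :
    (z4 * y2 - z1 * y3) ^ 2 = 0 := by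
  obtain ⟨h1, h2, h3, h4, t, tb, nu⟩ := H
  linear_combination (z1 * y3 * (z4 * y2)) * nu - (z1 * y3) ^ 2 * (z4 * y4) * h2 -
    (z1 * y3) ^ 2 * h4 - (z4 * y2) ^ 2 * (z3 * y3) * h1 - (z4 * y2) ^ 2 * h3

lemma Rel0.e1 (H : Rel0 z1 z2 z3 z4 y1 y2 y3 y4 r) :
    r * ((z1 * y3 - z3 * y1) * (z4 * y2 - z1 * y3)) = 0 := by
  have e0 := H.e0
  have n2 := H.n2
  obtain ⟨h1, h2, h3, h4, t, tb, nu⟩ := H
  linear_combination (z4 * y2) * e0 - r * n2 - r * (z4 * y4) * h2 - r * h4 +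
    r * (z3 * y3) * h1 + r * h3

lemma Rel0.pe (H : Rel0 z1 z2 z3 z4 y1 y2 y3 y4 r) :
    r * ((z3 + z4) * (z1 * z2 - z3 * z4)) = 0 := by
  obtain ⟨h1, h2, h3, h4, t, tb, nu⟩ := H
  linear_combination (z1 * z2 * z3 * z4) * tb - (z3 * z4) * t - (z2 * z3 * z4) * h1 -
      (z1 * z3 * z4) * h2 - r * (z1 * z2 * z4) * h3 - r * (z1 * z2 * z3) * h4

lemma Rel0.py (H : Rel0 z1 z2 z3 z4 y1 y2 y3 y4 r) :
    r * ((z3 + z4) * (y1 * y2 - y3 * y4)) = 0 := by
  have pe := H.pe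
  obtain ⟨h1, h2, h3, h4, t, tb, nu⟩ := H
  have e : y1 * y2 - y3 * y4 = -(z1 * z2 - z3 * z4) * (y1 * y2 * y3 * y4) := by
    linear_combination (y3 * y4) * (z2 * y2) * h1 + (y3 * y4) * h2 - (y1 * y2) * (z4 * y4) * h3 -
      (y1 * y2) * h4
  linear_combination (r * (z3 + z4)) * e - (y1 * y2 * y3 * y4) * pe

lemma Rel0.pR (H : Rel0 z1 z2 z3 z4 y1 y2 y3 y4 r) :
    r * ((z3 + z4) * (1 + r ^ 2 + r * (z1 * y3 + z3 * y1))) =
      -(r * ((z3 + z4) * ((z1 + r * z3) ^ 2 * (y1 * y2)))) := by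
  have py := H.py
  obtain ⟨h1, h2, h3, h4, t, tb, nu⟩ := H
  have e1 : 1 + r ^ 2 + r * (z1 * y3 + z3 * y1) = (z1 + r * z3) * (y1 + r * y3) := by
    linear_combination -h1 - r ^ 2 * h3
  have e2 : r * ((z3 + z4) * (y1 + r * y3)) = r * ((z3 + z4) * ((z2 + r * z4) * (y1 * y2))) := by
    linear_combination (-(r * (z3 + z4)) * y1) * h2 - (r * (z3 + z4) * r * y3) * h4 -
      (r * z4) * py
  linear_combination (r * (z3 + z4)) * e1 + (z1 + r * z3) * e2 +
    (r * (z3 + z4) * (z1 + r * z3) * (y1 * y2)) * t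

lemma Rel0.pA (H : Rel0 z1 z2 z3 z4 y1 y2 y3 y4 r) :
    r * ((z3 + z4) * (z1 * y3 + z3 * y1 + 2 * r)) =
      -(r * ((z3 + z4) * ((z3 - z4) * (z1 + r * z3) * (y3 * y4)))) := by
  have pe := H.pe
  obtain ⟨h1, h2, h3, h4, t, tb, nu⟩ := H
  have a1 : z1 * y3 + z3 * y1 + 2 * r + (z3 - z4) * (z1 + r * z3) * (y3 * y4) =
      y4 * (z1 + z2 + r * (z3 + z4)) + y4 * y1 * (z3 * z4 - z1 * z2) := by
    linear_combination (z1 * y4) * h3 + (r * z3 * y4) * h3 - (z1 * y3) * h4 - r * (z4 * y4) * h3 -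
      r * h4 - r * h4 - (z3 * y1) * h4 + (y4 * z2) * h1
  linear_combination (r * (z3 + z4)) * a1 + (r * (z3 + z4) * y4) * t - (y4 * y1) * pe

lemma Rel0.pB (H : Rel0 z1 z2 z3 z4 y1 y2 y3 y4 r) :
    r * ((z3 + z4) * (r * (z1 * y3 + z3 * y1) + 2)) =
      -(r * ((z3 + z4) * ((z1 - z2) * (z1 + r * z3) * (y1 * y2)))) := by
  have pe := H.pe
  obtain ⟨h1, h2, h3, h4, t, tb, nu⟩ := H
  have a2 : r * (z1 * y3 + z3 * y1) + 2 + (z1 - z2) * (z1 + r * z3) * (y1 * y2) =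
      y2 * (z1 + z2 + r * (z3 + z4)) + r * (y2 * y3) * (z1 * z2 - z3 * z4) := by
    linear_combination (z1 * y2) * h1 + (r * z3 * y2) * h1 - (z2 * y2) * h1 - h2 -
      (r * z3 * y1) * h2 - (r * z1 * y3) * h2 + (r * y2 * z4) * h3 - h2
  linear_combination (r * (z3 + z4)) * a2 + (r * (z3 + z4) * y2) * t + (r * (y2 * y3)) * pe

/-- **the key identity** -/
theorem Rel0.key (H : Rel0 z1 z2 z3 z4 y1 y2 y3 y4 r) :
    r ^ 3 * ((z1 * y3 - z3 * y1) ^ 2 *
      ((z1 * y3 + z3 * y1 + 2 * r) * (r * (z1 * y3 + z3 * y1) + 2))) =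
      -(r ^ 2 * ((1 + r ^ 2 + r * (z1 * y3 + z3 * y1)) ^ 2 *
        ((z1 * y2 - z2 * y1) * (z3 * y4 - z4 * y3)))) := by
  have n2 := H.n2
  have e1 := H.e1
  have pR := H.pR
  have pA := H.pA
  have pB := H.pB
  obtain ⟨h1, h2, h3, h4, t, tb, nu⟩ := H
  have e3 : z4 * y2 - z3 * y1 = (z3 + z4) * (z1 + r * z3) * (y1 * y2) := by
    linear_combination -(z3 * y1 * y2) * t - (z4 * y2) * h1 + (z3 * y1) * h2
  have e4 : r * (z1 * y3 - z3 * y1) ^ 2 = r * ((z3 + z4) * (z1 + r * z3) * (y1 * y2)) ^ 2 := by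
    rw [← e3]
    linear_combination -r * n2 - 2 * e1
  have s1 : z1 * y2 - z2 * y1 = -(r * ((z3 + z4) * ((z1 - z2) * (y1 * y2)))) := by
    linear_combination (-(z1 * y2)) * h1 + (z2 * y1) * h2 + ((z1 - z2) * (y1 * y2)) * t
  have s2 : z3 * y4 - z4 * y3 = (z3 - z4) * (z3 + z4) * (y3 * y4) := by
    linear_combination (-(z3 * y4)) * h3 + (z4 * y3) * h4
  rw [s1, s2]
  set S := z3 + z4
  set D := z3 - z4
  set E := z1 - z2
  set V := y3 * y4
  set Y := y1 * y2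
  set X := z1 + r * z3
  set A := z1 * y3 + z3 * y1 + 2 * r
  set G := r * (z1 * y3 + z3 * y1) + 2
  set R := 1 + r ^ 2 + r * (z1 * y3 + z3 * y1)
  linear_combination (r ^ 2 * A * G) * e4 + (r * X ^ 2 * Y ^ 2 * (r * (S * G))) * pA -
    (r * X ^ 2 * Y ^ 2 * (r * (S * (D * X * V)))) * pB -
    (r * E * Y * D * V * (r * (S * R) - r * (S * (X ^ 2 * Y)))) * pR

end alg

open AddMonoidAlgebra (single)
open Pool.Agent.W745.RW (CC)

/-- the relations, `ρ` need not be invertible -/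
structure TD0 (l : Filter ℕ) (ρ : Bd) (μ : ℝ) (J : ℤ × ℤ × ℤ × ℤ → ℕ → ℂ) (t : ℤ → ℕ → ℂ) :
    Prop where
  rc : cjB ρ = ρ
  T : ∀ a b c d : ℤ, Tendsto (fun n => J (a + 1, b, c, d) n + J (a, b + 1, c, d) n +
    ρ.v n * (J (a, b, c + 1, d) n + J (a, b, c, d + 1) n)) l (𝓝 0)
  Tb : ∀ a b c d : ℤ, Tendsto (fun n => J (a - 1, b, c, d) n + J (a, b - 1, c, d) n +
    ρ.v n * (J (a, b, c - 1, d) n + J (a, b, c, d - 1) n)) l (𝓝 0)
  N : ∀ a b c d : ℤ, Tendsto (fun n => J (a + 1, b + 1, c - 1, d - 1) n +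
    J (a - 1, b - 1, c + 1, d + 1) n - 2 * J (a, b, c, d) n) l
    (𝓝 ((CC (a + 1) (b + 1) * CC (c - 1) (d - 1) + CC (a - 1) (b - 1) * CC (c + 1) (d + 1) -
        2 * CC a b * CC c d) * (μ : ℂ)))
  B : ∃ B : ℝ, 0 ≤ B ∧ ∀ a b c d : ℤ, ∀ᶠ n in l, ‖J (a + 1, b - 1, c + 1, d - 1) n -
    J (a + 1, b - 1, c - 1, d + 1) n - J (a - 1, b + 1, c + 1, d - 1) n +
    J (a - 1, b + 1, c - 1, d + 1) n‖ ≤ B
  P : ∃ M : ℝ, 0 ≤ M ∧ ∀ᶠ n in l, ∀ φ : A1, ‖Lf t φ n‖ ^ 2 ≤ M * ‖Lf J (FF φ) n‖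

variable {l : Filter ℕ} {ρ : Bd} {μ : ℝ} {J : ℤ × ℤ × ℤ × ℤ → ℕ → ℂ} {t : ℤ → ℕ → ℂ}

lemma mem_t0 (D : TD0 l ρ μ J t) :
    z1 + z2 + single 0 ρ * (z3 + z4) ∈ nul l (Jd μ J) := by
  refine mem_nul ?_
  rintro ⟨a, b, c, d⟩
  refine (D.T a b c d).congr fun n => ?_
  have e : (z1 + z2 + single 0 ρ * (z3 + z4)) * single (a, b, c, d) 1 =
      single (a + 1, b, c, d) 1 + single (a, b + 1, c, d) 1 +
      single 0 ρ * (single (a, b, c + 1, d) 1 + single (a, b, c, d + 1) 1) := by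
    unfold z1 z2 z3 z4
    simp only [add_mul, mul_assoc, AddMonoidAlgebra.single_mul_single, Prod.mk_add_mk, zero_add,
      mul_one, add_comm (1 : ℤ)]
  rw [e, Lf_add, Lf_add, Lf_c, Lf_add, Lf_single, Lf_single, Lf_single, Lf_single]
  unfold Jd gv
  have h1 := Pool.Agent.R314.JN.CC_sh a b
  have h2 := Pool.Agent.R314.JN.CC_sh c d
  simp only [v_one, one_mul]
  linear_combination CC c d * μ * h1 + ρ.v n * CC a b * μ * h2

lemma mem_tb0 (D : TD0 l ρ μ J t) :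
    y1 + y2 + single 0 ρ * (y3 + y4) ∈ nul l (Jd μ J) := by
  refine mem_nul ?_
  rintro ⟨a, b, c, d⟩
  refine (D.Tb a b c d).congr fun n => ?_
  have e : (y1 + y2 + single 0 ρ * (y3 + y4)) * single (a, b, c, d) 1 =
      single (a - 1, b, c, d) 1 + single (a, b - 1, c, d) 1 +
      single 0 ρ * (single (a, b, c - 1, d) 1 + single (a, b, c, d - 1) 1) := by
    unfold y1 y2 y3 y4
    simp only [add_mul, mul_assoc, AddMonoidAlgebra.single_mul_single, Prod.mk_add_mk, zero_add,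
      mul_one, add_comm (-1 : ℤ), Int.add_neg_one]
  rw [e, Lf_add, Lf_add, Lf_c, Lf_add, Lf_single, Lf_single, Lf_single, Lf_single]
  unfold Jd gv
  have h1 := CC_sh' a b
  have h2 := CC_sh' c d
  simp only [v_one, one_mul]
  linear_combination CC c d * μ * h1 + ρ.v n * CC a b * μ * h2

lemma mem_nu0 (D : TD0 l ρ μ J t) :
    z1 * z2 * (y3 * y4) + z3 * z4 * (y1 * y2) - 2 ∈ nul l (Jd μ J) := by
  refine mem_nul ?_
  rintro ⟨a, b, c, d⟩
  have h := (D.N a b c d).sub_const ((CC (a + 1) (b + 1) * CC (c - 1) (d - 1) +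
    CC (a - 1) (b - 1) * CC (c + 1) (d + 1) - 2 * CC a b * CC c d) * (μ : ℂ))
  rw [sub_self] at h
  refine h.congr fun n => ?_
  have e : (z1 * z2 * (y3 * y4) + z3 * z4 * (y1 * y2) - 2) * single (a, b, c, d) 1 =
      single (a + 1, b + 1, c - 1, d - 1) 1 + single (a - 1, b - 1, c + 1, d + 1) 1 -
      (single (a, b, c, d) 1 + single (a, b, c, d) 1) := by
    unfold z1 z2 z3 z4 y1 y2 y3 y4
    simp only [add_mul, sub_mul, AddMonoidAlgebra.single_mul_single, Prod.mk_add_mk,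
      zero_add, add_zero, mul_one, add_comm (1 : ℤ), add_comm (-1 : ℤ), Int.add_neg_one, two_mul]
  rw [e, Lf_sub, Lf_add, Lf_add, Lf_single, Lf_single, Lf_single]
  unfold Jd gv
  simp only [v_one, one_mul]
  ring

/-- the relations in the quotient ring -/
theorem TD0.rel (D : TD0 l ρ μ J t) : Rel0 (Ideal.Quotient.mk (nul l (Jd μ J)) z1)
    (Ideal.Quotient.mk _ z2) (Ideal.Quotient.mk _ z3) (Ideal.Quotient.mk _ z4)
    (Ideal.Quotient.mk _ y1) (Ideal.Quotient.mk _ y2) (Ideal.Quotient.mk _ y3)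
    (Ideal.Quotient.mk _ y4) (Ideal.Quotient.mk _ (single 0 ρ)) where
  h1 := by
    rw [← map_mul, ← map_one (Ideal.Quotient.mk (nul l (Jd μ J)))]; congr 1
    unfold z1 y1; rw [AddMonoidAlgebra.single_mul_single, mul_one]; exact one4
  h2 := by
    rw [← map_mul, ← map_one (Ideal.Quotient.mk (nul l (Jd μ J)))]; congr 1
    unfold z2 y2; rw [AddMonoidAlgebra.single_mul_single, mul_one]; exact one4
  h3 := by
    rw [← map_mul, ← map_one (Ideal.Quotient.mk (nul l (Jd μ J)))]; congr 1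
    unfold z3 y3; rw [AddMonoidAlgebra.single_mul_single, mul_one]; exact one4
  h4 := by
    rw [← map_mul, ← map_one (Ideal.Quotient.mk (nul l (Jd μ J)))]; congr 1
    unfold z4 y4; rw [AddMonoidAlgebra.single_mul_single, mul_one]; exact one4
  t := by
    have := Ideal.Quotient.eq_zero_iff_mem.2 (mem_t0 D)
    rwa [map_add, map_add, map_mul, map_add] at this
  tb := by
    have := Ideal.Quotient.eq_zero_iff_mem.2 (mem_tb0 D)
    rwa [map_add, map_add, map_mul, map_add] at this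
  nu := by
    have := Ideal.Quotient.eq_zero_iff_mem.2 (mem_nu0 D)
    rw [map_sub, map_add, map_mul, map_mul, map_mul, map_mul, map_mul, map_mul] at this
    rw [← this]; congr 1

/-- **the square of a polynomial which vanishes at `T = ± 1`** -/
theorem TD0.mkFF (D : TD0 l ρ μ J t) {χ k : A1} (hk : χ * cj χ = Dp ρ * k) :
    Ideal.Quotient.mk (nul l (Jd μ J)) (single 0 ρ ^ 3 * FF (sT * χ)) =
      Ideal.Quotient.mk (nul l (Jd μ J)) (-(single 0 ρ ^ 2 * E1 (Rp ρ ^ 2 * k) * S12)) := by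
  have R := D.rel
  have key := R.key
  have e1 := R.e1
  set π := Ideal.Quotient.mk (nul l (Jd μ J)) with hπ
  set f : A1 →+* A4 ⧸ nul l (Jd μ J) := π.comp E1 with hf
  set g : A1 →+* A4 ⧸ nul l (Jd μ J) := π.comp E2 with hg
  have fT : f (single 1 1) = π z1 * π y3 := by
    rw [hf, RingHom.comp_apply, E1_T, map_mul]
  have fTi : f (single (-1) 1) = π z3 * π y1 := by
    rw [hf, RingHom.comp_apply, E1_Ti, map_mul]
  have gT : g (single 1 1) = π z4 * π y2 := by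
    rw [hg, RingHom.comp_apply, E2_T, map_mul]
  have fs : f sT = π z1 * π y3 - π z3 * π y1 := by
    unfold sT; rw [map_sub, fT, fTi]
  have fc : f cT = π z1 * π y3 + π z3 * π y1 := by
    unfold cT; rw [map_add, fT, fTi]
  have fC : ∀ c, f (single 0 c) = π (single 0 c) := fun c => by
    rw [hf, RingHom.comp_apply, E1_C]
  have ag := agree f g (π (single 0 ρ) * f sT) (fun c => by
    rw [hf, hg, RingHom.comp_apply, RingHom.comp_apply, E1_C, E2_C]) (by
    rw [fs, fT, gT]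
    linear_combination -e1)
  have h1 : π (FF (sT * χ)) = f (sT * χ) * g (cj (sT * χ)) := by
    unfold FF; rw [map_mul]; rfl
  have h2 : π (single 0 ρ) * (f (sT * χ) * g (cj (sT * χ))) =
      π (single 0 ρ) * (f sT ^ 2 * f (χ * cj χ)) := by
    have := ag (cj (sT * χ))
    rw [map_mul f sT χ]
    have e2 : f (cj (sT * χ)) = f sT * f (cj χ) := by
      rw [map_mul cj, cj_sT, map_mul]
    rw [e2] at this
    rw [map_mul f χ]
    linear_combination (-f χ) * this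
  have fD : f (Dp ρ) = (π z1 * π y3 + π z3 * π y1 + 2 * π (single 0 ρ)) *
      (π (single 0 ρ) * (π z1 * π y3 + π z3 * π y1) + 2) := by
    unfold Dp
    simp only [map_mul, map_add, fc, fC, map_ofNat]
  have fR : f (Rp ρ) = 1 + π (single 0 ρ) ^ 2 + π (single 0 ρ) * (π z1 * π y3 + π z3 * π y1) := by
    unfold Rp
    simp only [map_mul, map_add, map_pow, map_one, fc, fC]
  have h3 : π (-(single 0 ρ ^ 2 * E1 (Rp ρ ^ 2 * k) * S12)) =
      -(π (single 0 ρ) ^ 2 * (f (Rp ρ) ^ 2 * f k) * ((π z1 * π y2 - π z2 * π y1) *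
        (π z3 * π y4 - π z4 * π y3))) := by
    unfold S12
    simp only [map_neg, map_mul, map_sub, map_pow]
    rfl
  rw [h3, fR, map_mul π, map_pow π, h1]
  rw [hk, map_mul f (Dp ρ) k, fD, fs] at h2
  linear_combination π (single 0 ρ) ^ 2 * h2 + (f k) * key

lemma bdd_S120 (D : TD0 l ρ μ J t) : ∃ B : ℝ, 0 ≤ B ∧ bdd l J S12 B := by
  obtain ⟨B, hB0, hB⟩ := D.B
  refine ⟨B, hB0, ?_⟩
  rintro ⟨a, b, c, d⟩
  filter_upwards [hB a b c d] with n hn
  refine le_of_eq_of_le ?_ hn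
  congr 1
  have e : S12 * (single (a, b, c, d) 1 : A4) =
      single (a + 1, b - 1, c + 1, d - 1) 1 - single (a + 1, b - 1, c - 1, d + 1) 1 -
      single (a - 1, b + 1, c + 1, d - 1) 1 + single (a - 1, b + 1, c - 1, d + 1) 1 := by
    rw [mul_comm]
    unfold S12 z1 z2 z3 z4 y1 y2 y3 y4
    simp only [mul_sub, sub_mul, AddMonoidAlgebra.single_mul_single, Prod.mk_add_mk,
      zero_add, add_zero, mul_one, Int.add_neg_one]
    abel
  rw [e, Lf_add, Lf_sub, Lf_sub, Lf_single, Lf_single, Lf_single, Lf_single]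
  simp

/-- the mean square is at most of the order `ρ⁻³` -/
theorem TD0.core (D : TD0 l ρ μ J t) {χ k : A1} (hk : χ * cj χ = Dp ρ * k) :
    ∃ C : ℝ, ∀ᶠ n in l, ‖ρ.v n ^ 3 * Lf J (FF (sT * χ)) n‖ ≤ C := by
  obtain ⟨B, hB0, hB⟩ := bdd_S120 D
  obtain ⟨C1, hC10, hC1⟩ := q_mul (sT * χ)
  obtain ⟨C2, hC20, hC2⟩ := bdd_mul (-(single 0 ρ ^ 2 * E1 (Rp ρ ^ 2 * k)))
  obtain ⟨R, hR0, hR⟩ := ρ.bd
  have key := nul_eq (D.mkFF hk)
  set Y : A4 := -(single 0 ρ ^ 2 * E1 (Rp ρ ^ 2 * k)) * S12 with hY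
  have eY : -(single 0 ρ ^ 2 * E1 (Rp ρ ^ 2 * k) * S12) = Y := by rw [hY]; ring
  rw [eY] at key
  have b2 := hC2 _ _ hB 0
  refine ⟨1 + C2 * B + R ^ 3 * (C1 * |μ|), ?_⟩
  filter_upwards [b2, Metric.tendsto_nhds.1 key 1 one_pos] with n h2 h3
  rw [dist_zero_right, Lf_Jd, Lf_Jd] at h3
  have e0 : (single 0 1 : A4) = 1 := rfl
  rw [e0, mul_one] at h2
  have gY : Lf gv Y n = 0 := by rw [hY]; exact Lf_gv_S12 _ n
  have r3 : ∀ (J : ℤ × ℤ × ℤ × ℤ → ℕ → ℂ) (F : A4), Lf J (single 0 ρ ^ 3 * F) n =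
      ρ.v n ^ 3 * Lf J F n := by
    intro J F
    rw [show (single 0 ρ : A4) ^ 3 * F = single 0 ρ * (single 0 ρ * (single 0 ρ * F)) by ring,
      Lf_c, Lf_c, Lf_c]
    ring
  rw [gY, zero_mul, sub_zero, r3, r3, Lf_gv_FF] at h3
  have hq : q (sT * χ) n ≤ C1 := by
    have := hC1 1 n
    rw [mul_one, q_one, mul_one] at this
    exact this
  have e1 : ρ.v n ^ 3 * Lf J (FF (sT * χ)) n = (ρ.v n ^ 3 * Lf J (FF (sT * χ)) n -
      ρ.v n ^ 3 * (q (sT * χ) n : ℂ) * μ - Lf J Y n) + Lf J Y n +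
      ρ.v n ^ 3 * ((q (sT * χ) n : ℂ) * μ) := by ring
  rw [e1]
  refine (norm_add₃_le).trans (add_le_add (add_le_add h3.le h2) ?_)
  rw [norm_mul, norm_mul, norm_pow, Complex.norm_real, Complex.norm_real, Real.norm_eq_abs,
    Real.norm_eq_abs, abs_of_nonneg (q_nonneg _ n)]
  exact mul_le_mul (pow_le_pow_left₀ (norm_nonneg _) (hR n) 3)
    (mul_le_mul_of_nonneg_right hq (abs_nonneg _))
    (mul_nonneg (q_nonneg _ _) (abs_nonneg _)) (by positivity)

variable {r s : ℕ → ℝ}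

/-- **ratio of the frequencies tending to `0`** -/
theorem TR.zero (H : TR l r s μ J t) (r0 : Tendsto r l (𝓝 0))
    (hs : ∀ᶠ n in l, -(1 + r n ^ 2) ≤ s n) {δ : ℝ} (hδ : 0 < δ)
    (ho : ∀ᶠ n in l, δ ≤ |s n|) : Tendsto (t 0) l (𝓝 0) := by
  classical
  set x : ℕ → ℝ := fun n => if |r n| ≤ 1 then r n else 0 with hxd
  set σ : ℕ → ℝ := fun n => if δ ≤ |s n| then (s n)⁻¹ else 0 with hσd
  have x1 : ∀ n, |x n| ≤ 1 := by
    intro n; rw [hxd]; simp only; split_ifs with h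
    · exact h
    · simp
  have σ1 : ∀ n, |σ n| ≤ δ⁻¹ := by
    intro n; rw [hσd]; simp only; split_ifs with h
    · rw [abs_inv]; exact inv_anti₀ hδ h
    · rw [abs_zero]; positivity
  have rs : ∀ᶠ n in l, |r n| ≤ 1 / 2 := by
    have h1 : Tendsto (fun n => |r n|) l (𝓝 0) := by
      have := r0.abs; rwa [abs_zero] at this
    exact h1.eventually (eventually_le_nhds (by norm_num))
  have hx : ∀ᶠ n in l, x n = r n := by
    filter_upwards [rs] with n hn
    rw [hxd]; simp only; rw [if_pos (by linarith)]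
  have hσ : ∀ᶠ n in l, σ n = (s n)⁻¹ := by
    filter_upwards [ho] with n hn
    rw [hσd]; simp only; rw [if_pos hn]
  have sn : ∀ᶠ n in l, s n ≠ 0 := by
    filter_upwards [ho] with n hn h
    rw [h, abs_zero] at hn; linarith
  have x0 : Tendsto x l (𝓝 0) := r0.congr' (by filter_upwards [hx] with n hn; rw [hn])
  set P : Bd := rB x ⟨1, x1⟩ with hP
  set S : Bd := rB σ ⟨δ⁻¹, σ1⟩ with hS
  have Pc : cjB P = P := cjB_rB x ⟨1, x1⟩
  have Sc : cjB S = S := cjB_rB σ ⟨δ⁻¹, σ1⟩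
  have D : TD0 l P μ J t :=
    { rc := Pc
      T := fun a b c d => (H.T a b c d).congr' (by filter_upwards [hx] with n hn; rw [hP, v_rB, hn])
      Tb := fun a b c d =>
        (H.Tb a b c d).congr' (by filter_upwards [hx] with n hn; rw [hP, v_rB, hn])
      N := H.N
      B := H.B
      P := H.P }
  have rel : single 0 (S * P) * cT - 1 ∈ nul l t := by
    refine mem_nul fun m => ?_
    have h1 := H.R m
    have h2 : Tendsto (fun n => (-(σ n : ℂ)) * ((s n : ℂ) * t m n -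
        (r n : ℂ) * (t (m + 1) n + t (m - 1) n))) l (𝓝 0) := by
      have h3 := h1.norm.const_mul δ⁻¹
      rw [norm_zero, mul_zero] at h3
      refine squeeze_zero_norm' ?_ h3
      filter_upwards with n
      rw [norm_mul, norm_neg, Complex.norm_real, Real.norm_eq_abs]
      exact mul_le_mul_of_nonneg_right (σ1 n) (norm_nonneg _)
    refine h2.congr' ?_
    filter_upwards [hx, hσ, sn] with n h3 h4 h5
    have h6 : (s n : ℂ) ≠ 0 := by exact_mod_cast h5
    rw [Lf_T, v_mul, hS, hP, v_rB, v_rB, h3, h4]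
    push_cast
    field_simp
    ring
  set π := Ideal.Quotient.mk (nul l t) with hπ
  have sp : ∀ a b : Bd, (single 0 (a * b) : A1) = single 0 a * single 0 b := fun a b => by
    rw [AddMonoidAlgebra.single_mul_single, zero_add]
  have sa : ∀ a b : Bd, (single 0 (a + b) : A1) = single 0 a + single 0 b := fun a b =>
    AddMonoidAlgebra.single_add ..
  have ss : ∀ a b : Bd, (single 0 (a - b) : A1) = single 0 a - single 0 b := fun a b =>
    AddMonoidAlgebra.single_sub ..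
  have s1 : (single 0 (1 : Bd) : A1) = 1 := rfl
  have s2 : (single 0 (2 : Bd) : A1) = 2 := by
    rw [show (2 : Bd) = 1 + 1 by norm_num, sa, s1]; norm_num
  have s4 : (single 0 (4 : Bd) : A1) = 4 := by
    rw [show (4 : Bd) = 2 + 2 by norm_num, sa, s2]; norm_num
  have v2 : ∀ n, (2 : Bd).v n = 2 := fun n => by
    rw [show (2 : Bd) = 1 + 1 by norm_num, v_add, v_one]; norm_num
  have v4 : ∀ n, (4 : Bd).v n = 4 := fun n => by
    rw [show (4 : Bd) = 2 + 2 by norm_num, v_add, v2]; norm_num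
  have e0 : π (single 0 S) * π (single 0 P) * π cT = 1 := by
    have := Ideal.Quotient.eq_zero_iff_mem.2 rel
    rw [map_sub, map_mul, map_one, sp, map_mul] at this
    linear_combination this
  -- the polynomial
  set c3 : Bd := (S * P) * (S * P) * (S * P) * S with hc3
  set χ : A1 := sT * Dp P with hχ
  have e1 : π (single 0 c3 * (sT * χ)) =
      π (single 0 ((1 - 4 * (S * P) * (S * P)) * (1 + 2 * P * (S * P)) * (1 + 2 * S))) := by
    rw [hc3, hχ, show sT * (sT * Dp P) = sT ^ 2 * Dp P by ring, sT_sq]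
    unfold Dp
    simp only [sp, sa, ss, s1, s2, s4, map_mul, map_sub, map_add, map_pow, map_one, map_ofNat]
    set a := π (single 0 S)
    set b := π (single 0 P)
    set y := π cT
    have f2 : (a * b) ^ 2 * (y ^ 2 - 4) = 1 - 4 * (a * b) * (a * b) := by
      linear_combination (a * b * y + 1) * e0
    have f3 : (a * b) * (y + 2 * b) = 1 + 2 * b * (a * b) := by linear_combination e0
    have f4 : a * (b * y + 2) = 1 + 2 * a := by linear_combination e0
    calc a * b * (a * b) * (a * b) * a * ((y ^ 2 - 4) * ((y + 2 * b) * (b * y + 2))) =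
        ((a * b) ^ 2 * (y ^ 2 - 4)) * ((a * b) * (y + 2 * b)) * (a * (b * y + 2)) := by ring
      _ = _ := by rw [f2, f3, f4]
  have hk : χ * cj χ = Dp P * (sT ^ 2 * Dp P) := by
    rw [hχ, map_mul, cj_sT, cj_Dp Pc]; ring
  obtain ⟨C, hC⟩ := D.core hk
  obtain ⟨M, hM0, hM⟩ := D.P
  have cc : cjB c3 = c3 := by rw [hc3]; simp only [map_mul, Pc, Sc]
  have eF : FF (single 0 c3 * (sT * χ)) = single 0 (c3 * c3) * FF (sT * χ) := by
    unfold FF
    rw [map_mul E1, map_mul cj, map_mul E2, cj_single, cc, E1_C, E2_C]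
    have : (single 0 (c3 * c3) : A4) = single 0 c3 * single 0 c3 := by
      rw [AddMonoidAlgebra.single_mul_single, zero_add]
    rw [this]; ring
  have small : Tendsto (Lf t (single 0 c3 * (sT * χ))) l (𝓝 0) := by
    have b1 : ∀ᶠ n in l, ‖Lf t (single 0 c3 * (sT * χ)) n‖ ^ 2 ≤
        M * ((δ⁻¹) ^ 8 * |x n| ^ 3 * C) := by
      filter_upwards [hC, hM] with n h1 h2
      refine (h2 _).trans (mul_le_mul_of_nonneg_left ?_ hM0)
      rw [eF, Lf_c]
      have e2 : (c3 * c3).v n * Lf J (FF (sT * χ)) n =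
          ((σ n ^ 8 * x n ^ 3 : ℝ) : ℂ) * (P.v n ^ 3 * Lf J (FF (sT * χ)) n) := by
        rw [hc3]
        simp only [v_mul]
        rw [hS, hP, v_rB, v_rB]
        push_cast
        ring
      rw [e2, norm_mul, Complex.norm_real, Real.norm_eq_abs, abs_mul, abs_pow, abs_pow]
      have a1 : |σ n| ^ 8 ≤ (δ⁻¹) ^ 8 := pow_le_pow_left₀ (abs_nonneg _) (σ1 n) 8
      exact mul_le_mul (mul_le_mul_of_nonneg_right a1 (by positivity)) h1 (norm_nonneg _)
        (by positivity)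
    have b2 : Tendsto (fun n => M * ((δ⁻¹) ^ 8 * |x n| ^ 3 * C)) l (𝓝 0) := by
      have h1 : Tendsto (fun n => |x n| ^ 3) l (𝓝 0) := by
        have := (x0.abs).pow 3
        rwa [abs_zero, zero_pow three_ne_zero] at this
      have h2 := (((h1.const_mul ((δ⁻¹) ^ 8)).mul_const C).const_mul M)
      rwa [mul_zero, zero_mul, mul_zero] at h2
    rw [tendsto_zero_iff_norm_tendsto_zero]
    have b3 := squeeze_zero' (Eventually.of_forall fun n => sq_nonneg _) b1 b2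
    have b4 := b3.sqrt
    rw [Real.sqrt_zero] at b4
    exact b4.congr fun n => Real.sqrt_sq (norm_nonneg _)
  have key := nul_eq e1
  have k2 := small.sub key
  rw [sub_zero] at k2
  refine null_of_mul (g := fun n => (1 - 4 * (σ n * x n : ℂ) * (σ n * x n)) *
    (1 + 2 * x n * (σ n * x n)) * (1 + 2 * σ n)) (c0 := 1 / 12) (by norm_num) ?_
    (k2.congr fun n => ?_)
  · -- lower bound
    have l1 : Tendsto (fun n => σ n * x n) l (𝓝 0) := by
      have h1 := (x0.abs).const_mul δ⁻¹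
      rw [abs_zero, mul_zero] at h1
      refine squeeze_zero_norm (fun n => ?_) h1
      rw [Real.norm_eq_abs, abs_mul]
      exact mul_le_mul_of_nonneg_right (σ1 n) (abs_nonneg _)
    have l2 : Tendsto (fun n => (1 - 4 * (σ n * x n) * (σ n * x n)) *
        (1 + 2 * x n * (σ n * x n))) l (𝓝 ((1 - 4 * 0 * 0) * (1 + 2 * 0 * 0))) := by
      refine Tendsto.mul ?_ ?_
      · exact ((l1.const_mul 4).mul l1).const_sub 1
      · exact ((x0.const_mul 2).mul l1).const_add 1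
    have l3 := l2.eventually (lt_mem_nhds (show (1 / 2 : ℝ) < (1 - 4 * 0 * 0) * (1 + 2 * 0 * 0) by
      norm_num))
    filter_upwards [l3, hσ, hs, rs, ho] with n h1 h2 h3 h4 h5
    have e : (1 - 4 * (σ n * x n : ℂ) * (σ n * x n)) * (1 + 2 * x n * (σ n * x n)) *
        (1 + 2 * σ n) = ((((1 - 4 * (σ n * x n) * (σ n * x n)) *
        (1 + 2 * x n * (σ n * x n))) * (1 + 2 * σ n) : ℝ) : ℂ) := by push_cast; ring
    rw [e, Complex.norm_real, Real.norm_eq_abs, abs_mul]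
    have a1 : 1 / 3 ≤ |1 + 2 * σ n| := by
      have hr2 : r n ^ 2 ≤ 1 / 4 := by
        have := abs_le.1 h4
        nlinarith
      rcases lt_or_ge 0 (s n) with h6 | h6
      · have : 0 < (s n)⁻¹ := inv_pos.2 h6
        rw [h2, abs_of_pos (by linarith)]; linarith
      · have h7 : s n < 0 := by
          rcases h6.lt_or_eq with h | h
          · exact h
          · rw [h, abs_zero] at h5; linarith
        have h8 : -(s n)⁻¹ ≥ 2 / 3 := by
          rw [ge_iff_le, ← inv_neg, le_inv_comm₀ (by norm_num) (by linarith)]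
          norm_num
          linarith
        rw [h2, abs_of_neg (by linarith)]; linarith
    have a2 : 1 / 2 ≤ |(1 - 4 * (σ n * x n) * (σ n * x n)) * (1 + 2 * x n * (σ n * x n))| :=
      h1.le.trans (le_abs_self _)
    calc (1 / 12 : ℝ) ≤ 1 / 2 * (1 / 3) := by norm_num
      _ ≤ _ := mul_le_mul a2 a1 (by norm_num) (abs_nonneg _)
  · rw [Lf_single]
    simp only [v_mul, v_add, v_sub, v_one, v2, v4, hS, hP, v_rB]
    ring

/-- **the abstract theorem, for all ratios** -/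
theorem TR.main2 (H : TR l r s μ J t) {b δ : ℝ}
    (hr : ∀ᶠ n in l, 0 ≤ r n ∧ r n ≤ b)
    (hs : ∀ᶠ n in l, -(1 + r n ^ 2) ≤ s n) (hδ : 0 < δ)
    (h1 : ∀ᶠ n in l, δ ≤ |s n - 2 * r n|) (h2 : ∀ᶠ n in l, δ ≤ |s n + 2 * r n|) :
    Tendsto (t 0) l (𝓝 0) := by
  rw [tendsto_iff_ultrafilter]
  intro U hU
  have H' := H.mono hU
  have hr' := hr.filter_mono hU
  have hs' := hs.filter_mono hU
  have h1' := h1.filter_mono hU
  have h2' := h2.filter_mono hU
  obtain ⟨ρ, hρ0, hρb, hρ⟩ := lim_of hr'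
  rcases hρ0.eq_or_lt with h | h
  · rw [← h] at hρ
    refine H'.zero hρ hs' (δ := δ / 2) (by linarith) ?_
    have h3 := hρ.eventually (gt_mem_nhds (show (0 : ℝ) < δ / 4 by linarith))
    filter_upwards [h3, hr', h1', h2'] with n a1 a2 a3 a4
    rcases le_abs'.1 a3 with a3 | a3
    · rcases le_abs'.1 a4 with a4 | a4
      · have := neg_le_abs (s n); linarith
      · rw [le_abs']
        by_contra hc
        rw [not_or] at hc
        obtain ⟨c1, c2⟩ := hc
        rw [not_le] at c1 c2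
        linarith
    · have := le_abs_self (s n); linarith
  · refine H'.main (a := ρ / 2) (b := b) (by linarith) ?_ hs' hδ h1' h2'
    filter_upwards [hρ.eventually (lt_mem_nhds (show ρ / 2 < ρ by linarith)), hr'] with n a1 a2
    exact ⟨a1.le, a2.2⟩

end

end Pool.Agent.K1H18.TP
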