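import Pool.Agent.K1H18.TP.Mom2
import Pool.Agent.K1H18.TP.Zero

/-!
# Triple products: the theorem for all ratios of the frequencies
-/

set_option autoImplicit false
open MeasureTheory Filter Topology Complex
open scoped ContDiff

namespace Pool.Agent.K1H18.TP

open Pool.Agent.W745.RW Pool.Agent.TH294.RS Pool.Agent.Y265.HY Pool.Agent.R314.JN

noncomputable section

variable {Ω : Set ℂ} {lam mu nu : ℕ → ℝ} {u v : ℕ → ℂ → ℝ} {g : ℕ → ℂ → ℝ}

/-- the product moment -/
def T3 (ρ : ℂ → ℝ) (u v g : ℂ → ℝ) : ℝ := ∫ z, ρ z * (u z * v z * g z)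

/-- the triple products vanish, for nonnegative weights, the second sequence is slower -/
theorem main0' (H : QS Ω lam u) (H' : QS Ω mu v) (hΩ : IsOpen Ω) (hU : ∀ z ∈ Ω, 0 < z.im)
    (h2 : ∀ n, mu n ≤ lam n)
    (np : ∀ n, 0 ≤ nu n) (gs : ∀ n, ContDiffOn ℝ ∞ (g n) Ω)
    (ge : ∀ n, ∀ z ∈ Ω, z.im ^ 2 * lap (g n) z + nu n * g n z = 0)
    (gb : ∀ K : Set ℂ, IsCompact K → K ⊆ Ω → ∃ C : ℝ, ∀ᶠ n in atTop, ∫ z in K, g n z ^ 2 ≤ C)
    {δ : ℝ} (hδ : 0 < δ)
    (nd : ∀ᶠ n in atTop, δ * lam n ≤ |nu n - (√(lam n) + √(mu n)) ^ 2| ∧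
      δ * lam n ≤ |nu n - (√(lam n) - √(mu n)) ^ 2|)
    {ρ : ℂ → ℝ} (hρ : TF Ω ρ) (h0 : ∀ z, 0 ≤ ρ z) :
    Tendsto (fun n => T3 ρ (u n) (v n) (g n)) atTop (𝓝 0) := by
  have R := mkTR6 H H' hΩ hU hρ h0 one_pos (fun n => by rw [one_mul]; exact h2 n) gs ge gb
  have r2 : ∀ n, (√(mu n) / √(lam n)) ^ 2 = mu n / lam n := fun n => by
    rw [div_pow, Real.sq_sqrt (H.pos n).le, Real.sq_sqrt (H'.pos n).le]
  have key := R.main2 (b := 1) (δ := δ)
    (Eventually.of_forall fun n => ⟨by positivity, ?_⟩) (Eventually.of_forall fun n => ?_) hδ ?_ ?_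
  · have k2 := (Complex.continuous_re.tendsto _).comp key
    rw [Complex.zero_re] at k2
    refine k2.congr fun n => ?_
    have e : tM ρ lam mu u v g 0 n = ((T3 ρ (u n) (v n) (g n) : ℝ) : ℂ) := by
      unfold tM T3
      rw [← integral_complex_ofReal]
      congr 1; funext z
      have e1 : FW (lam n) (u n) 0 z = (u n z : ℂ) := rfl
      have e2 : FW (mu n) (v n) (-0) z = (v n z : ℂ) := rfl
      rw [e1, e2]
      push_cast; ring
    simp only [Function.comp_def]
    rw [e, Complex.ofReal_re]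
  · have pl := Real.sqrt_pos.2 (H.pos n)
    rw [div_le_iff₀ pl, one_mul]
    exact Real.sqrt_le_sqrt (h2 n)
  · rw [r2]
    have := div_nonneg (np n) (H.pos n).le
    linarith
  · filter_upwards [nd] with n hn
    have pl := H.pos n
    have ps := Real.sqrt_pos.2 pl
    have e : nu n / lam n - 1 - mu n / lam n - 2 * (√(mu n) / √(lam n)) =
        (nu n - (√(lam n) + √(mu n)) ^ 2) / lam n := by
      have q1 := Real.sq_sqrt pl.le
      have q2 := Real.sq_sqrt (H'.pos n).le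
      rw [add_sq, q1, q2, eq_div_iff pl.ne']
      have : √(mu n) / √(lam n) * lam n = √(lam n) * √(mu n) := by
        nth_rewrite 2 [← q1]
        field_simp
      have e1 : nu n / lam n * lam n = nu n := by field_simp
      have e2 : mu n / lam n * lam n = mu n := by field_simp
      linear_combination e1 - e2 - 2 * this
    rw [e, abs_div, abs_of_pos pl, le_div_iff₀ pl]
    exact hn.1
  · filter_upwards [nd] with n hn
    have pl := H.pos n
    have ps := Real.sqrt_pos.2 pl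
    have e : nu n / lam n - 1 - mu n / lam n + 2 * (√(mu n) / √(lam n)) =
        (nu n - (√(lam n) - √(mu n)) ^ 2) / lam n := by
      have q1 := Real.sq_sqrt pl.le
      have q2 := Real.sq_sqrt (H'.pos n).le
      rw [sub_sq, q1, q2, eq_div_iff pl.ne']
      have : √(mu n) / √(lam n) * lam n = √(lam n) * √(mu n) := by
        nth_rewrite 2 [← q1]
        field_simp
      have e1 : nu n / lam n * lam n = nu n := by field_simp
      have e2 : mu n / lam n * lam n = mu n := by field_simp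
      linear_combination e1 - e2 + 2 * this
    rw [e, abs_div, abs_of_pos pl, le_div_iff₀ pl]
    exact hn.2

/-- from nonnegative weights to all weights -/
lemma allw (hΩ : IsOpen Ω) (us : ∀ n, ContinuousOn (u n) Ω) (vs : ∀ n, ContinuousOn (v n) Ω)
    (gs : ∀ n, ContinuousOn (g n) Ω)
    (key : ∀ φ, TF Ω φ → (∀ z, 0 ≤ φ z) →
      Tendsto (fun n => T3 φ (u n) (v n) (g n)) atTop (𝓝 0)) {ψ : ℂ → ℝ} (hψ : TF Ω ψ) :
    Tendsto (fun n => T3 ψ (u n) (v n) (g n)) atTop (𝓝 0) := by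
  obtain ⟨χ, hχ, hχ0, -, hχ1⟩ := Pool.Agent.Y265.RW.cutoff hΩ hψ.2.1 hψ.2.2
  obtain ⟨M', hM'⟩ := hψ.2.1.exists_bound_of_continuousOn hψ.1.continuous.continuousOn
  obtain ⟨M, hM⟩ : ∃ M, M = max M' 0 := ⟨_, rfl⟩
  have M0 : 0 ≤ M := by rw [hM]; exact le_max_right _ _
  have t1 : TF Ω (fun z => ψ z + M * χ z) := by
    refine ⟨hψ.1.add (contDiff_const.mul hχ.1), hψ.2.1.add (hχ.2.1.mul_left), ?_⟩
    refine (tsupport_add _ _).trans (Set.union_subset hψ.2.2 ?_)
    exact (tsupport_mul_subset_right (f := fun _ : ℂ => M)).trans hχ.2.2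
  have p1 : ∀ z, 0 ≤ ψ z + M * χ z := by
    intro z
    by_cases hz : z ∈ tsupport ψ
    · rw [hχ1 z hz, mul_one]
      have h1 := hM' z hz
      rw [Real.norm_eq_abs] at h1
      have h2 := neg_abs_le (ψ z)
      have h3 : M' ≤ M := by rw [hM]; exact le_max_left _ _
      linarith
    · rw [image_eq_zero_of_notMem_tsupport hz, zero_add]
      exact mul_nonneg M0 (hχ0 z)
  have k := (key _ t1 p1).sub ((key χ hχ hχ0).const_mul M)
  rw [mul_zero, sub_zero] at k
  refine k.congr fun n => ?_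
  have c0 : ContinuousOn (fun z => u n z * v n z * g n z) Ω := ((us n).mul (vs n)).mul (gs n)
  have i1 : Integrable (fun z => (ψ z + M * χ z) * (u n z * v n z * g n z)) :=
    Pool.Agent.W311.RW.int_mul hΩ t1 c0
  have i2 : Integrable (fun z => χ z * (u n z * v n z * g n z)) :=
    Pool.Agent.W311.RW.int_mul hΩ hχ c0
  simp only [T3]
  rw [← integral_const_mul, ← integral_sub i1 (i2.const_mul _)]
  congr 1; funext z; ring

open Classical in
/-- two quantum ergodic sequences can be merged -/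
lemma QS.merge (H : QS Ω lam u) (H' : QS Ω mu v) (p : ℕ → Prop) :
    QS Ω (fun n => if p n then lam n else mu n) (fun n => if p n then u n else v n) where
  pos n := by split_ifs; exacts [H.pos n, H'.pos n]
  lim := Tendsto.if' H.lim H'.lim
  sm n := by split_ifs; exacts [H.sm n, H'.sm n]
  eq n := by split_ifs; exacts [H.eq n, H'.eq n]
  qe φ hφ k := by
    refine (Tendsto.if' (p := p) (H.qe φ hφ k) (H'.qe φ hφ k)).congr fun n => ?_
    split_ifs <;> rfl

/-- **the triple products vanish, for all ratios of the frequencies** -/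
theorem main1' (H : QS Ω lam u) (H' : QS Ω mu v) (hΩ : IsOpen Ω) (hU : ∀ z ∈ Ω, 0 < z.im)
    (np : ∀ n, 0 ≤ nu n) (gs : ∀ n, ContDiffOn ℝ ∞ (g n) Ω)
    (ge : ∀ n, ∀ z ∈ Ω, z.im ^ 2 * lap (g n) z + nu n * g n z = 0)
    (gb : ∀ K : Set ℂ, IsCompact K → K ⊆ Ω → ∃ C : ℝ, ∀ᶠ n in atTop, ∫ z in K, g n z ^ 2 ≤ C)
    {δ : ℝ} (hδ : 0 < δ)
    (nd : ∀ᶠ n in atTop, δ * max (lam n) (mu n) ≤ |nu n - (√(lam n) + √(mu n)) ^ 2| ∧
      δ * max (lam n) (mu n) ≤ |nu n - (√(lam n) - √(mu n)) ^ 2|)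
    {ψ : ℂ → ℝ} (hψ : TF Ω ψ) :
    Tendsto (fun n => T3 ψ (u n) (v n) (g n)) atTop (𝓝 0) := by
  classical
  refine allw hΩ (fun n => (H.sm n).continuousOn) (fun n => (H'.sm n).continuousOn)
    (fun n => (gs n).continuousOn) (fun φ hφ h0 => ?_) hψ
  have M1 := QS.merge H H' (fun n => mu n ≤ lam n)
  have M2 := QS.merge H' H (fun n => mu n ≤ lam n)
  have key := main0' M1 M2 hΩ hU (fun n => by
    split_ifs with h
    · exact h
    · exact (not_le.1 h).le) np gs ge gb hδ (by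
    filter_upwards [nd] with n hn
    split_ifs with h
    · rw [max_eq_left h] at hn; exact hn
    · rw [max_eq_right (not_le.1 h).le] at hn
      refine ⟨?_, ?_⟩
      · rw [add_comm (√(mu n))]; exact hn.1
      · rw [show (√(mu n) - √(lam n)) ^ 2 = (√(lam n) - √(mu n)) ^ 2 by ring]; exact hn.2) hφ h0
  refine key.congr fun n => ?_
  unfold T3
  congr 1; funext z
  split_ifs
  · rfl
  · ring

end

end Pool.Agent.K1H18.TP
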