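import Pool.Agent.Y265.HY.JC4
import Pool.Agent.R314.JN.Low

/-!
# Triple products: the relation of a third eigenfunction with two ladders
-/

set_option autoImplicit false
open MeasureTheory Filter Topology Complex Set
open scoped ContDiff Real Manifold

namespace Pool.Agent.K1H18.TP

open Pool.Agent.W745.RW Pool.Agent.TH294.RS Pool.Agent.Y265.HY Pool.Agent.Y265.HY.PS
open Pool.Agent.Y265.HY.JC Pool.Agent.R314.JN
open Pool.Agent.TH294.RG (vv sL sL1 opP sL_it sL_eq)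

noncomputable section

variable {B : Set ℂ} {h κ : ℕ → ℝ} {w v : ℤ → ℕ → ℂ → ℂ}

/-- bounded scalars -/
lemma LB.bsc {f : ℕ → ℂ → ℂ} (H : LB B 2 f) {c : ℕ → ℝ} {C : ℝ} (hc : ∀ n, |c n| ≤ C) :
    LB B 2 (fun n z => (c n : ℂ) * f n z) := by
  refine ⟨fun n => contDiffOn_const.mul (H.sm n), fun K hK hKB => ?_⟩
  obtain ⟨D, hD⟩ := H.bd K hK hKB
  refine ⟨C ^ 2 * D, hD.mono fun n hn => ?_⟩
  have e : ∀ z, ‖(c n : ℂ) * f n z‖ ^ 2 = c n ^ 2 * ‖f n z‖ ^ 2 := fun z => by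
    rw [norm_mul, Complex.norm_real, Real.norm_eq_abs, mul_pow, sq_abs]
  simp only [e]
  rw [integral_const_mul]
  have h1 : c n ^ 2 ≤ C ^ 2 := sq_le_sq' (by linarith [neg_le_of_abs_le (hc n)])
    (le_of_abs_le (hc n))
  have h0 : 0 ≤ ∫ z in K, ‖f n z‖ ^ 2 := integral_nonneg fun z => by positivity
  exact mul_le_mul h1 hn h0 (sq_nonneg _)

lemma M2.bsc (hB : IsOpen B) {c : ℕ → ℝ} {C : ℝ} (hc : ∀ n, |c n| ≤ C) {k : ℕ} :
    ∀ {f : ℕ → ℂ → ℂ}, M2 B h k f → M2 B h k (fun n z => (c n : ℂ) * f n z) := by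
  induction k with
  | zero => intro f H; exact LB.bsc H hc
  | succ k ih =>
    intro f H
    have e : ∀ v, ∀ n, ∀ z ∈ B, hd h v (fun n z => (c n : ℂ) * f n z) n z =
        (c n : ℂ) * hd h v f n z := by
      intro v n z hz
      simp only [hd]
      rw [fderiv_const_mul (fda hB (H.1.sm n) hz)]
      simp only [smul_apply, smul_eq_mul]; ring
    exact ⟨LB.bsc H.1 hc, (ih H.2.1).congr hB (e 1), (ih H.2.2).congr hB (e I)⟩

lemma M2C.bsc (hB : IsOpen B) {c : ℕ → ℝ} {C : ℝ} (hc : ∀ n, |c n| ≤ C)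
    {f : ℕ → ℂ → ℂ} (H : M2C B h f) : M2C B h (fun n z => (c n : ℂ) * f n z) := fun k =>
  M2.bsc hB hc (H k)

/-- change of the semiclassical parameter -/
lemma M2.chg (hB : IsOpen B) (hk : ∀ n, 0 < κ n) {C : ℝ} (hC : ∀ n, |h n / κ n| ≤ C) {k : ℕ} :
    ∀ {f : ℕ → ℂ → ℂ}, M2 B κ k f → M2 B h k f := by
  induction k with
  | zero => intro f H; exact H
  | succ k ih =>
    intro f H
    have e : ∀ v, ∀ n, ∀ z ∈ B, hd h v f n z = ((h n / κ n : ℝ) : ℂ) * hd κ v f n z := by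
      intro v n z _
      have h2 : (κ n : ℂ) ≠ 0 := by exact_mod_cast (hk n).ne'
      simp only [hd]
      push_cast
      field_simp
    exact ⟨H.1, (M2.bsc hB hC (ih H.2.1)).congr hB (e 1),
      (M2.bsc hB hC (ih H.2.2)).congr hB (e I)⟩

lemma M2C.chg (hB : IsOpen B) (hk : ∀ n, 0 < κ n) {C : ℝ} (hC : ∀ n, |h n / κ n| ≤ C)
    {f : ℕ → ℂ → ℂ} (H : M2C B κ f) : M2C B h f := fun k => M2.chg hB hk hC (H k)

lemma QE.bsc (hB : IsOpen B) {c : ℕ → ℝ} {C : ℝ} (hc : ∀ n, |c n| ≤ C)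
    {f : ℕ → ℂ → ℂ} (hf : QE B h w f) : QE B h w (fun n z => (c n : ℂ) * f n z) := by
  induction hf with
  | mul he hg => exact (QE.mul (M2C.bsc hB hc he) hg).cg fun n z _ => by ring
  | add _ _ ih1 ih2 => exact (ih1.add ih2).cg fun n z _ => by ring
  | cg _ e ih => exact ih.cg fun n z hz => by rw [e n z hz]

lemma int5 {f1 f2 f3 f4 f5 : ℂ → ℂ} (h1 : Integrable f1) (h2 : Integrable f2)
    (h3 : Integrable f3) (h4 : Integrable f4) (h5 : Integrable f5) :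
    ∫ z, (f1 z + f2 z + f3 z + f4 z + f5 z) = (∫ z, f1 z) + (∫ z, f2 z) + (∫ z, f3 z) +
      (∫ z, f4 z) + ∫ z, f5 z := by
  rw [integral_add (f := fun z => f1 z + f2 z + f3 z + f4 z) (((h1.add h2).add h3).add h4) h5,
    integral_add (f := fun z => f1 z + f2 z + f3 z) ((h1.add h2).add h3) h4,
    integral_add (f := fun z => f1 z + f2 z) (h1.add h2) h3, integral_add h1 h2]

end

end Pool.Agent.K1H18.TP
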