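import Pool.Agent.K1H18.TP.Fin
import Pool.Agent.K1H18.TP.Rel
import Pool.Agent.R314.JN.Low3

/-!
# Triple products: verification of the abstract relations
-/

set_option autoImplicit false
open MeasureTheory Filter Topology Complex
open scoped ContDiff

namespace Pool.Agent.K1H18.TP

open Pool.Agent.W745.RW Pool.Agent.TH294.RS Pool.Agent.Y265.HY Pool.Agent.R314.JN
open AddMonoidAlgebra (single)

noncomputable section

variable {Ω : Set ℂ} {lam mu nu : ℕ → ℝ} {u v : ℕ → ℂ → ℝ} {g : ℕ → ℂ → ℝ} {ρ : ℂ → ℝ}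

/-- Cauchy-Schwarz -/
lemma csC (hΩ : IsOpen Ω) (hρ : TF Ω ρ) (h0 : ∀ z, 0 ≤ ρ z) {f g : ℂ → ℂ}
    (cf : ContinuousOn f Ω) (cg : ContinuousOn g Ω) :
    ‖∫ z, (ρ z : ℂ) * (f z * g z)‖ ^ 2 ≤
      (∫ z, ρ z * ‖f z‖ ^ 2) * ∫ z, ρ z * ‖g z‖ ^ 2 := by
  have iA := Pool.Agent.Y265.RW.int_mulr hΩ hρ (cf.norm.pow 2)
  have iB := Pool.Agent.Y265.RW.int_mulr hΩ hρ (cg.norm.pow 2)
  have iAB := Pool.Agent.Y265.RW.int_mulr hΩ hρ (cf.norm.mul cg.norm)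
  have h1 := csI h0 iA iB iAB
  refine le_trans ?_ h1
  have h2 : ‖∫ z, (ρ z : ℂ) * (f z * g z)‖ ≤ ∫ z, ρ z * (‖f z‖ * ‖g z‖) := by
    refine norm_integral_le_of_norm_le iAB (Eventually.of_forall fun z => ?_)
    rw [norm_mul, norm_mul, Complex.norm_real, Real.norm_eq_abs, abs_of_nonneg (h0 z)]
  exact pow_le_pow_left₀ (norm_nonneg _) h2 2

lemma sgnE (a b : ℤ) (h : a % 2 = b % 2) : (-1 : ℂ) ^ a.natAbs = (-1) ^ b.natAbs := by
  rcases Nat.even_or_odd a.natAbs with h1 | h1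
  · have h2 : Even b.natAbs := by rw [Nat.even_iff] at h1 ⊢; omega
    rw [h1.neg_one_pow, h2.neg_one_pow]
  · have h2 : Odd b.natAbs := by rw [Nat.odd_iff] at h1 ⊢; omega
    rw [h1.neg_one_pow, h2.neg_one_pow]

lemma sgnS (a : ℤ) : (-1 : ℂ) ^ (a - 1).natAbs = - (-1) ^ a.natAbs := by
  rcases Nat.even_or_odd a.natAbs with h1 | h1
  · have h2 : Odd (a - 1).natAbs := by rw [Nat.even_iff] at h1; rw [Nat.odd_iff]; omega
    rw [h1.neg_one_pow, h2.neg_one_pow]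
  · have h2 : Even (a - 1).natAbs := by rw [Nat.odd_iff] at h1; rw [Nat.even_iff]; omega
    rw [h1.neg_one_pow, h2.neg_one_pow]; ring

lemma sgn2 (a : ℤ) : (-1 : ℂ) ^ a.natAbs * (-1) ^ a.natAbs = 1 := by
  rw [← mul_pow]; norm_num

/-- the conjugate of a joint moment -/
lemma J2_cj (H : QS Ω lam u) (H' : QS Ω mu v) (hΩ : IsOpen Ω) (hU : ∀ z ∈ Ω, 0 < z.im)
    (hρ : TF Ω ρ) (n : ℕ) (a b c d : ℤ) :
    (starRingEnd ℂ) (J2 ρ (lam n) (mu n) (u n) (v n) a b c d) =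
      ((-1) ^ a.natAbs * (-1) ^ b.natAbs * ((-1) ^ c.natAbs * (-1) ^ d.natAbs)) *
      J2 ρ (lam n) (mu n) (u n) (v n) (-a) (-b) (-c) (-d) := by
  unfold J2
  rw [← integral_conj, ← integral_const_mul]
  congr 1; funext z
  by_cases hz : z ∈ Ω
  · rw [map_mul, map_mul, map_mul, map_mul, Complex.conj_ofReal, H.cj hΩ hU a n hz,
      H.cj hΩ hU b n hz, H'.cj hΩ hU c n hz, H'.cj hΩ hU d n hz]
    ring
  · rw [TF.zero hρ hz]; simp

lemma int4 {f1 f2 f3 f4 : ℂ → ℂ} (h1 : Integrable f1) (h2 : Integrable f2)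
    (h3 : Integrable f3) (h4 : Integrable f4) :
    ∫ z, (f1 z - f2 z - f3 z + f4 z) = (∫ z, f1 z) - (∫ z, f2 z) - (∫ z, f3 z) +
      ∫ z, f4 z := by
  rw [integral_add (f := fun z => f1 z - f2 z - f3 z) ((h1.sub h2).sub h3) h4,
    integral_sub (f := fun z => f1 z - f2 z) (h1.sub h2) h3, integral_sub h1 h2]

/-- the commutators of one ladder -/
def Ub (lam : ℝ) (u : ℂ → ℝ) (a b : ℤ) (z : ℂ) : ℂ :=
  FW lam u (a + 1) z * FW lam u (b - 1) z - FW lam u (a - 1) z * FW lam u (b + 1) z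

lemma Ub_co (H : QS Ω lam u) (hΩ : IsOpen Ω) (hU : ∀ z ∈ Ω, 0 < z.im) (a b : ℤ) (n : ℕ) :
    ContinuousOn (Ub (lam n) (u n) a b) Ω :=
  ((H.co hΩ hU _ n).mul (H.co hΩ hU _ n)).sub ((H.co hΩ hU _ n).mul (H.co hΩ hU _ n))

/-- the commutators are bounded in mean square -/
lemma Ub_bd (H : QS Ω lam u) (hΩ : IsOpen Ω) (hU : ∀ z ∈ Ω, 0 < z.im) (hρ : TF Ω ρ) (a b : ℤ) :
    ∀ᶠ n in atTop, ∫ z, ρ z * ‖Ub (lam n) (u n) a b z‖ ^ 2 ≤ 12 * |∫ z, ρ z| + 1 := by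
  have sy : ContDiffOn ℝ ∞ (fun z : ℂ => z.im ^ 2) Ω := (imCLM.contDiff.pow 2).contDiffOn
  have hφ : TF Ω (fun z => ρ z * z.im ^ 2) := TF.mulc hΩ hρ sy
  set φ : ℂ → ℝ := fun z => ρ z * z.im ^ 2 with hφd
  have eρ : ∀ z, φ z / z.im ^ 2 = ρ z := by
    intro z
    by_cases hz : z ∈ Ω
    · have := (hU z hz).ne'
      rw [hφd]; field_simp
    · rw [hφd]; simp only; rw [TF.zero hρ hz]; simp
  have key := (hyp_fourth hΩ hU H.pos H.lim H.sm H.eq H.qe hφ).2.1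
  have eM : (∫ z, φ z / z.im ^ 2) = ∫ z, ρ z := by congr 1; funext z; exact eρ z
  rw [eM] at key
  set μ : ℂ := ((∫ z, ρ z : ℝ) : ℂ) with hμ
  have k1 := key (a + 1) (b - 1) (-(a + 1)) (-(b - 1)) 0 (by ring)
  have k2 := key (a + 1) (b - 1) (-(a - 1)) (-(b + 1)) 0 (by ring)
  have k3 := key (a - 1) (b + 1) (-(a + 1)) (-(b - 1)) 0 (by ring)
  have k4 := key (a - 1) (b + 1) (-(a - 1)) (-(b + 1)) 0 (by ring)
  have e12 : eps (a + 1) (b - 1) (-(a - 1)) (-(b + 1)) =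
      eps (a + 1) (b - 1) (-(a + 1)) (-(b - 1)) := by
    unfold eps; congr 1; rw [eq_iff_iff]; omega
  have e13 : eps (a - 1) (b + 1) (-(a + 1)) (-(b - 1)) =
      eps (a + 1) (b - 1) (-(a + 1)) (-(b - 1)) := by
    unfold eps; congr 1; rw [eq_iff_iff]; omega
  have e14 : eps (a - 1) (b + 1) (-(a - 1)) (-(b + 1)) =
      eps (a + 1) (b - 1) (-(a + 1)) (-(b - 1)) := by
    unfold eps; congr 1; rw [eq_iff_iff]; omega
  rw [e12] at k2
  rw [e13] at k3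
  rw [e14] at k4
  have k := (((k1.sub k2).sub k3).add k4)
  set L : ℂ := GG (a + 1) (b - 1) (-(a + 1)) (-(b - 1)) - GG (a + 1) (b - 1) (-(a - 1)) (-(b + 1)) -
    GG (a - 1) (b + 1) (-(a + 1)) (-(b - 1)) + GG (a - 1) (b + 1) (-(a - 1)) (-(b + 1)) with hL
  have nL : ‖L‖ ≤ 12 := by
    have g1 := GG_le (a + 1) (b - 1) (-(a + 1)) (-(b - 1))
    have g2 := GG_le (a + 1) (b - 1) (-(a - 1)) (-(b + 1))
    have g3 := GG_le (a - 1) (b + 1) (-(a + 1)) (-(b - 1))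
    have g4 := GG_le (a - 1) (b + 1) (-(a - 1)) (-(b + 1))
    have t1 := norm_add_le (GG (a + 1) (b - 1) (-(a + 1)) (-(b - 1)) -
      GG (a + 1) (b - 1) (-(a - 1)) (-(b + 1)) - GG (a - 1) (b + 1) (-(a + 1)) (-(b - 1)))
      (GG (a - 1) (b + 1) (-(a - 1)) (-(b + 1)))
    have t2 := norm_sub_le (GG (a + 1) (b - 1) (-(a + 1)) (-(b - 1)) -
      GG (a + 1) (b - 1) (-(a - 1)) (-(b + 1))) (GG (a - 1) (b + 1) (-(a + 1)) (-(b - 1)))
    have t3 := norm_sub_le (GG (a + 1) (b - 1) (-(a + 1)) (-(b - 1)))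
      (GG (a + 1) (b - 1) (-(a - 1)) (-(b + 1)))
    rw [hL]
    linarith
  set σ : ℂ := (-1) ^ a.natAbs * (-1) ^ b.natAbs with hσ
  have nσ : ‖σ‖ = 1 := by rw [hσ]; simp
  have lim : Tendsto (fun n => ((∫ z, ρ z * ‖Ub (lam n) (u n) a b z‖ ^ 2 : ℝ) : ℂ)) atTop
      (𝓝 (σ * (L * μ))) := by
    have k' := k.const_mul σ
    have eL : σ * ((GG (a + 1) (b - 1) (-(a + 1)) (-(b - 1)) -
        eps (a + 1) (b - 1) (-(a + 1)) (-(b - 1)) * GG (2 * 0) 0 0 0) * μ -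
        (GG (a + 1) (b - 1) (-(a - 1)) (-(b + 1)) -
        eps (a + 1) (b - 1) (-(a + 1)) (-(b - 1)) * GG (2 * 0) 0 0 0) * μ -
        (GG (a - 1) (b + 1) (-(a + 1)) (-(b - 1)) -
        eps (a + 1) (b - 1) (-(a + 1)) (-(b - 1)) * GG (2 * 0) 0 0 0) * μ +
        (GG (a - 1) (b + 1) (-(a - 1)) (-(b + 1)) -
        eps (a + 1) (b - 1) (-(a + 1)) (-(b - 1)) * GG (2 * 0) 0 0 0) * μ) = σ * (L * μ) := by
      rw [hL]; ring
    rw [eL] at k'
    refine k'.congr fun n => ?_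
    have ci : ∀ a b c d : ℤ, Integrable (fun z => ((φ z / z.im ^ 2 : ℝ) : ℂ) *
        (FW (lam n) (u n) a z * FW (lam n) (u n) b z * FW (lam n) (u n) c z *
          FW (lam n) (u n) d z)) := fun a b c d => by
      simp only [eρ]
      exact TF.cint hρ ((((H.co hΩ hU a n).mul (H.co hΩ hU b n)).mul (H.co hΩ hU c n)).mul
        (H.co hΩ hU d n))
    have e1 : ((∫ z, ρ z * ‖Ub (lam n) (u n) a b z‖ ^ 2 : ℝ) : ℂ) =
        σ * (FM (lam n) (u n) φ (a + 1) (b - 1) (-(a + 1)) (-(b - 1)) -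
          FM (lam n) (u n) φ (a + 1) (b - 1) (-(a - 1)) (-(b + 1)) -
          FM (lam n) (u n) φ (a - 1) (b + 1) (-(a + 1)) (-(b - 1)) +
          FM (lam n) (u n) φ (a - 1) (b + 1) (-(a - 1)) (-(b + 1))) := by
      unfold FM
      rw [← int4 (ci _ _ _ _) (ci _ _ _ _) (ci _ _ _ _) (ci _ _ _ _), ← integral_const_mul,
        ← integral_complex_ofReal]
      congr 1; funext z
      simp only [eρ]
      by_cases hz : z ∈ Ω
      · have c1 := H.cj hΩ hU (a + 1) n hz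
        have c2 := H.cj hΩ hU (b - 1) n hz
        have c3 := H.cj hΩ hU (a - 1) n hz
        have c4 := H.cj hΩ hU (b + 1) n hz
        have s1 : (-1 : ℂ) ^ (a + 1).natAbs = - (-1) ^ a.natAbs := by
          rw [sgnE (a + 1) (a - 1) (by omega), sgnS]
        have s4 : (-1 : ℂ) ^ (b + 1).natAbs = - (-1) ^ b.natAbs := by
          rw [sgnE (b + 1) (b - 1) (by omega), sgnS]
        rw [s1] at c1
        rw [sgnS] at c2 c3
        rw [s4] at c4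
        push_cast
        rw [show ((‖Ub (lam n) (u n) a b z‖ : ℝ) : ℂ) ^ 2 = Ub (lam n) (u n) a b z *
          (starRingEnd ℂ) (Ub (lam n) (u n) a b z) by
            rw [mul_conj, normSq_eq_norm_sq]; push_cast; rfl]
        have c5 : (starRingEnd ℂ) (Ub (lam n) (u n) a b z) =
            σ * (FW (lam n) (u n) (-(a + 1)) z * FW (lam n) (u n) (-(b - 1)) z -
              FW (lam n) (u n) (-(a - 1)) z * FW (lam n) (u n) (-(b + 1)) z) := by
          unfold Ub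
          rw [map_sub, map_mul, map_mul, c1, c2, c3, c4, hσ]
          ring
        rw [c5]
        unfold Ub
        ring
      · rw [TF.zero hρ hz]; simp
    rw [e1]
    ring
  have hb : ‖σ * (L * μ)‖ < 12 * |∫ z, ρ z| + 1 := by
    rw [norm_mul, nσ, one_mul, norm_mul, hμ, Complex.norm_real, Real.norm_eq_abs]
    have := mul_le_mul_of_nonneg_right nL (abs_nonneg (∫ z, ρ z))
    linarith
  filter_upwards [lim.norm.eventually (gt_mem_nhds hb)] with n hn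
  rw [Complex.norm_real, Real.norm_eq_abs] at hn
  exact (le_abs_self _).trans hn.le

/-- the fields of the joint moments -/
lemma Bbd (H : QS Ω lam u) (H' : QS Ω mu v) (hΩ : IsOpen Ω) (hU : ∀ z ∈ Ω, 0 < z.im)
    (hρ : TF Ω ρ) (h0 : ∀ z, 0 ≤ ρ z) (a b c d : ℤ) :
    ∀ᶠ n in atTop, ‖J2 ρ (lam n) (mu n) (u n) (v n) (a + 1) (b - 1) (c + 1) (d - 1) -
      J2 ρ (lam n) (mu n) (u n) (v n) (a + 1) (b - 1) (c - 1) (d + 1) -
      J2 ρ (lam n) (mu n) (u n) (v n) (a - 1) (b + 1) (c + 1) (d - 1) +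
      J2 ρ (lam n) (mu n) (u n) (v n) (a - 1) (b + 1) (c - 1) (d + 1)‖ ≤
      12 * |∫ z, ρ z| + 1 := by
  filter_upwards [Ub_bd H hΩ hU hρ a b, Ub_bd H' hΩ hU hρ c d] with n hn hn'
  have iJ := fun a b c d => TF.cint hρ (q2_co H H' hΩ hU n a b c d)
  have e : J2 ρ (lam n) (mu n) (u n) (v n) (a + 1) (b - 1) (c + 1) (d - 1) -
      J2 ρ (lam n) (mu n) (u n) (v n) (a + 1) (b - 1) (c - 1) (d + 1) -
      J2 ρ (lam n) (mu n) (u n) (v n) (a - 1) (b + 1) (c + 1) (d - 1) +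
      J2 ρ (lam n) (mu n) (u n) (v n) (a - 1) (b + 1) (c - 1) (d + 1) =
      ∫ z, (ρ z : ℂ) * (Ub (lam n) (u n) a b z * Ub (mu n) (v n) c d z) := by
    unfold J2
    rw [← int4 (iJ _ _ _ _) (iJ _ _ _ _) (iJ _ _ _ _) (iJ _ _ _ _)]
    congr 1; funext z
    unfold Ub
    ring
  rw [e]
  have k := csC hΩ hρ h0 (Ub_co H hΩ hU a b n) (Ub_co H' hΩ hU c d n)
  set K := 12 * |∫ z, ρ z| + 1 with hK
  have K0 : 0 ≤ K := by positivity
  have p1 : 0 ≤ ∫ z, ρ z * ‖Ub (mu n) (v n) c d z‖ ^ 2 :=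
    integral_nonneg fun z => mul_nonneg (h0 z) (by positivity)
  exact (sq_le_sq₀ (norm_nonneg _) K0).1 (k.trans (by
    rw [sq]
    exact mul_le_mul hn hn' p1 K0))

lemma addI (hρ : TF Ω ρ) {F G : ℂ → ℂ} (cF : ContinuousOn F Ω) (cG : ContinuousOn G Ω) :
    (∫ z, (ρ z : ℂ) * F z) + (∫ z, (ρ z : ℂ) * G z) = ∫ z, (ρ z : ℂ) * (F z + G z) := by
  rw [← integral_add (TF.cint hρ cF) (TF.cint hρ cG)]
  congr 1; funext z; ring

/-- the fields for Laurent polynomials -/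
def Pf (lam mu : ℕ → ℝ) (u v : ℕ → ℂ → ℝ) (z : ℂ) : A1 → ℕ → ℂ :=
  Lf (fun (k : ℤ) (n : ℕ) => FW (lam n) (u n) k z * FW (mu n) (v n) (-k) z)

lemma Pf_co (H : QS Ω lam u) (H' : QS Ω mu v) (hΩ : IsOpen Ω) (hU : ∀ z ∈ Ω, 0 < z.im)
    (φ : A1) (n : ℕ) : ContinuousOn (fun z => Pf lam mu u v z φ n) Ω := by
  induction φ using AddMonoidAlgebra.induction_linear with
  | zero => simp only [Pf, Lf_zero]; exact continuousOn_const
  | add a b ha hb => simp only [Pf, Lf_add]; exact ha.add hb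
  | single m r =>
    simp only [Pf, Lf_single]
    exact continuousOn_const.mul ((H.co hΩ hU m n).mul (H'.co hΩ hU (-m) n))

/-- the moments with the third function -/
def tM (ρ : ℂ → ℝ) (lam mu : ℕ → ℝ) (u v g : ℕ → ℂ → ℝ) (k : ℤ) (n : ℕ) : ℂ :=
  ∫ z, (ρ z : ℂ) * (FW (lam n) (u n) k z * FW (mu n) (v n) (-k) z * (g n z : ℂ))

/-- the joint moments -/
def JM (ρ : ℂ → ℝ) (lam mu : ℕ → ℝ) (u v : ℕ → ℂ → ℝ) (m : ℤ × ℤ × ℤ × ℤ) (n : ℕ) : ℂ :=
  J2 ρ (lam n) (mu n) (u n) (v n) m.1 m.2.1 m.2.2.1 m.2.2.2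

lemma Lf_tM (H : QS Ω lam u) (H' : QS Ω mu v) (hΩ : IsOpen Ω) (hU : ∀ z ∈ Ω, 0 < z.im)
    (hρ : TF Ω ρ) (gs : ∀ n, ContinuousOn (g n) Ω) (φ : A1) (n : ℕ) :
    Lf (tM ρ lam mu u v g) φ n = ∫ z, (ρ z : ℂ) * (Pf lam mu u v z φ n * (g n z : ℂ)) := by
  have cg : ContinuousOn (fun z => (g n z : ℂ)) Ω :=
    Complex.continuous_ofReal.comp_continuousOn (gs n)
  induction φ using AddMonoidAlgebra.induction_linear with
  | zero => simp [Pf]
  | add a b ha hb =>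
    rw [Lf_add, ha, hb]
    refine (addI hρ ((Pf_co H H' hΩ hU a n).mul cg) ((Pf_co H H' hΩ hU b n).mul cg)).trans ?_
    congr 1; funext z
    simp only [Pi.mul_apply]
    simp only [Pf, Lf_add]
    ring
  | single m r =>
    rw [Lf_single]
    unfold tM
    rw [← integral_const_mul]
    congr 1; funext z
    simp only [Pf, Lf_single]
    ring

lemma Lf_JM1 (H : QS Ω lam u) (H' : QS Ω mu v) (hΩ : IsOpen Ω) (hU : ∀ z ∈ Ω, 0 < z.im)
    (hρ : TF Ω ρ) (k l : ℤ) (c d : Bd) (n : ℕ) :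
    Lf (JM ρ lam mu u v) (E1 (single k c) * E2 (cj (single l d))) n =
      ∫ z, (ρ z : ℂ) * (Pf lam mu u v z (single k c) n *
        (starRingEnd ℂ) (Pf lam mu u v z (single l d) n)) := by
  rw [cj_single, E1_single, E2_single, AddMonoidAlgebra.single_mul_single, Lf_single]
  unfold JM J2
  rw [← integral_const_mul]
  congr 1; funext z
  by_cases hz : z ∈ Ω
  · simp only [Pf, Lf_single, map_mul, v_mul, v_cjB, Prod.mk_add_mk, add_zero, zero_add]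
    rw [H.cj hΩ hU l n hz, H'.cj hΩ hU (-l) n hz, neg_neg, Int.natAbs_neg]
    have := sgn2 l
    linear_combination (-((ρ z : ℂ) * c.v n * (starRingEnd ℂ) (d.v n) * FW (lam n) (u n) k z *
      FW (mu n) (v n) (-k) z * FW (lam n) (u n) (-l) z * FW (mu n) (v n) l z)) * this
  · rw [TF.zero hρ hz]; simp

lemma Lf_JM2 (H : QS Ω lam u) (H' : QS Ω mu v) (hΩ : IsOpen Ω) (hU : ∀ z ∈ Ω, 0 < z.im)
    (hρ : TF Ω ρ) (k : ℤ) (c : Bd) (ψ : A1) (n : ℕ) :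
    Lf (JM ρ lam mu u v) (E1 (single k c) * E2 (cj ψ)) n =
      ∫ z, (ρ z : ℂ) * (Pf lam mu u v z (single k c) n *
        (starRingEnd ℂ) (Pf lam mu u v z ψ n)) := by
  have cc : ∀ φ : A1, ContinuousOn (fun z => (starRingEnd ℂ) (Pf lam mu u v z φ n)) Ω :=
    fun φ => Complex.continuous_conj.comp_continuousOn (Pf_co H H' hΩ hU φ n)
  induction ψ using AddMonoidAlgebra.induction_linear with
  | zero => simp [Pf]
  | add a b ha hb =>
    rw [map_add, map_add, mul_add, Lf_add, ha, hb]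
    refine (addI hρ ((Pf_co H H' hΩ hU (single k c) n).mul (cc a))
      ((Pf_co H H' hΩ hU (single k c) n).mul (cc b))).trans ?_
    congr 1; funext z
    simp only [Pi.mul_apply]
    simp only [Pf, Lf_add, map_add]
    ring
  | single m r => exact Lf_JM1 H H' hΩ hU hρ k m c r n

lemma Lf_JM (H : QS Ω lam u) (H' : QS Ω mu v) (hΩ : IsOpen Ω) (hU : ∀ z ∈ Ω, 0 < z.im)
    (hρ : TF Ω ρ) (φ ψ : A1) (n : ℕ) :
    Lf (JM ρ lam mu u v) (E1 φ * E2 (cj ψ)) n =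
      ∫ z, (ρ z : ℂ) * (Pf lam mu u v z φ n * (starRingEnd ℂ) (Pf lam mu u v z ψ n)) := by
  have cc : ContinuousOn (fun z => (starRingEnd ℂ) (Pf lam mu u v z ψ n)) Ω :=
    Complex.continuous_conj.comp_continuousOn (Pf_co H H' hΩ hU ψ n)
  induction φ using AddMonoidAlgebra.induction_linear with
  | zero => simp [Pf]
  | add a b ha hb =>
    rw [map_add, add_mul, Lf_add, ha, hb]
    refine (addI hρ ((Pf_co H H' hΩ hU a n).mul cc) ((Pf_co H H' hΩ hU b n).mul cc)).trans ?_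
    congr 1; funext z
    simp only [Pi.mul_apply]
    simp only [Pf, Lf_add]
    ring
  | single m r => exact Lf_JM2 H H' hΩ hU hρ m r ψ n

lemma Lf_FF (H : QS Ω lam u) (H' : QS Ω mu v) (hΩ : IsOpen Ω) (hU : ∀ z ∈ Ω, 0 < z.im)
    (hρ : TF Ω ρ) (φ : A1) (n : ℕ) :
    Lf (JM ρ lam mu u v) (FF φ) n = ((∫ z, ρ z * ‖Pf lam mu u v z φ n‖ ^ 2 : ℝ) : ℂ) := by
  unfold FF
  rw [Lf_JM H H' hΩ hU hρ, ← integral_complex_ofReal]
  congr 1; funext z
  rw [mul_conj, normSq_eq_norm_sq]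
  push_cast; rfl

/-- mean squares on the support of the weight -/
lemma sqb (hρ : TF Ω ρ) (gs : ∀ n, ContinuousOn (g n) Ω)
    (gb : ∀ K : Set ℂ, IsCompact K → K ⊆ Ω → ∃ C : ℝ, ∀ᶠ n in atTop, ∫ z in K, g n z ^ 2 ≤ C) :
    ∃ M : ℝ, 0 ≤ M ∧ ∀ᶠ n in atTop, ∫ z, ρ z * ‖(g n z : ℂ)‖ ^ 2 ≤ M := by
  have hK : IsCompact (tsupport ρ) := hρ.2.1
  obtain ⟨C, hC⟩ := gb (tsupport ρ) hK hρ.2.2
  obtain ⟨M', hM'⟩ := hK.exists_bound_of_continuousOn hρ.1.continuous.continuousOn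
  set M := max M' 0 with hM
  have hM0 : 0 ≤ M := le_max_right _ _
  refine ⟨M * |C|, by positivity, hC.mono fun n hn => ?_⟩
  have e : ∀ z, ‖(g n z : ℂ)‖ ^ 2 = g n z ^ 2 := fun z => by
    rw [Complex.norm_real, Real.norm_eq_abs, sq_abs]
  simp only [e]
  have e1 : ∫ z, ρ z * g n z ^ 2 = ∫ z in tsupport ρ, ρ z * g n z ^ 2 := by
    refine (setIntegral_eq_integral_of_forall_compl_eq_zero (fun z hz => ?_)).symm
    rw [image_eq_zero_of_notMem_tsupport hz]; simp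
  have c1 : ContinuousOn (g n) (tsupport ρ) := (gs n).mono hρ.2.2
  have i1 : IntegrableOn (fun z => ρ z * g n z ^ 2) (tsupport ρ) :=
    ContinuousOn.integrableOn_compact hK ((hρ.1.continuous.continuousOn).mul (c1.pow 2))
  have i2 : IntegrableOn (fun z => M * g n z ^ 2) (tsupport ρ) :=
    ContinuousOn.integrableOn_compact hK (continuousOn_const.mul (c1.pow 2))
  rw [e1]
  calc ∫ z in tsupport ρ, ρ z * g n z ^ 2 ≤ ∫ z in tsupport ρ, M * g n z ^ 2 := by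
        refine setIntegral_mono_on i1 i2 hK.measurableSet fun z hz => ?_
        refine mul_le_mul_of_nonneg_right ?_ (sq_nonneg _)
        exact (le_abs_self _).trans ((hM' z hz).trans (le_max_left _ _))
    _ = M * ∫ z in tsupport ρ, g n z ^ 2 := integral_const_mul _ _
    _ ≤ M * |C| := mul_le_mul_of_nonneg_left (hn.trans (le_abs_self C)) hM0

end

end Pool.Agent.K1H18.TP
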