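import Pool.Agent.K1H18.TP.Re

/-!
# Triple products: null forms and the third relation when the second system may be slower
-/

set_option autoImplicit false
open MeasureTheory Filter Topology Complex Set
open scoped ContDiff Real Manifold

namespace Pool.Agent.K1H18.TP

open Pool.Agent.W745.RW Pool.Agent.TH294.RS Pool.Agent.Y265.HY Pool.Agent.Y265.HY.PS
open Pool.Agent.Y265.HY.JC Pool.Agent.R314.JN
open Pool.Agent.TH294.RG (sL sL_eq)

noncomputable section

variable {B : Set ℂ} {h κ : ℕ → ℝ} {w v : ℤ → ℕ → ℂ → ℂ}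

/-- multilinear extension of the null form in the variables of the slower system -/
lemma ext6 (H : SY B Complex.im κ v) (H' : SY B Complex.im h w) (hBU : B ⊆ UH)
    {f f' g g' : ℕ → ℂ → ℂ} (hf : RE B κ v f)
    (hf' : RP B κ v f') (hg : RP B h w g) (hg' : RP B h w g')
    (base : ∀ p, EX B κ v p → WN B (fun n z => Q5 κ h p f' g g' n z - E5 B κ h p f' g g' z)) :
    WN B (fun n z => Q5 κ h f f' g g' n z - E5 B κ h f f' g g' z) := by
  have hB := H.op
  have pf' := hf'.dec.sP H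
  have mf' := hf'.dec.sM H
  have LM : LB B 1 (fun n z => M h g n z * M h g' n z) :=
    LB.mul2 ((hg.sM H').dec.m H').lb ((hg'.sM H').dec.m H').lb
  have LP : LB B 1 (fun n z => P h g n z * P h g' n z) :=
    LB.mul2 ((hg.sP H').dec.m H').lb ((hg'.sP H').dec.m H').lb
  have L0 : LB B 1 (fun n z => g n z * g' n z) :=
    LB.mul2 (hg.dec.m H').lb (hg'.dec.m H').lb
  induction hf with
  | ex hf => exact base _ hf
  | @add f1 f2 r1 r2 h1 h2 =>
    refine (h1.add h2).congr fun n z hz => ?_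
    have d1 := (r1.rp H).dec
    have d2 := (r2.rp H).dec
    have q1 := lm_add H d1 d2 hf'.dec hz
    have q2 : lm B (P κ (fun n z => f1 n z + f2 n z)) (P κ f') z =
        lm B (P κ f1) (P κ f') z + lm B (P κ f2) (P κ f') z := by
      rw [lm_congr H ((d1.sP H).add (d2.sP H)) pf'
        (fun n z hz => P_add hB (d1.m H).sm (d2.m H).sm n hz) hz]
      exact lm_add H (d1.sP H) (d2.sP H) pf' hz
    have q3 : lm B (M κ (fun n z => f1 n z + f2 n z)) (M κ f') z =
        lm B (M κ f1) (M κ f') z + lm B (M κ f2) (M κ f') z := by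
      rw [lm_congr H ((d1.sM H).add (d2.sM H)) mf'
        (fun n z hz => M_add hB (d1.m H).sm (d2.m H).sm n hz) hz]
      exact lm_add H (d1.sM H) (d2.sM H) mf' hz
    simp only [Q5, E5]
    rw [q1, q2, q3, P_add hB (d1.m H).sm (d2.m H).sm n hz, M_add hB (d1.m H).sm (d2.m H).sm n hz]
    ring
  | @smul f1 c hc r1 h1 =>
    have d1 := (r1.rp H).dec
    have m1 := d1.m H
    have R1 := ((r1.rp H).smul (dd_sm hB hc)).smul (cxa H.sa)
    have R2 := ((r1.rp H).smul (db_sm hB hc)).smul (cxa H.sa)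
    have e1 := R1.dec.m H
    have e2 := R2.dec.m H
    have E1 := hE4 H hBU LM R1 (hf'.sP H)
    have E2 := hE4 H hBU LP R2 (hf'.sM H)
    refine (((WNs hB h1 hc).add E1).add E2).congr fun n z hz => ?_
    have q1 := lm_smul H hc d1 hf'.dec hz
    have q2 : lm B (P κ (fun n z => c z * f1 n z)) (P κ f') z =
        c z * lm B (P κ f1) (P κ f') z := by
      rw [lm_congr H (((d1.sP H).smul hc).add (Dec.err e1)) pf'
        (fun n z hz => P_smul hB hc m1.sm n hz) hz, lm_add H ((d1.sP H).smul hc) (Dec.err e1) pf' hz,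
        lm_smul H hc (d1.sP H) pf' hz, lm_err H e1 pf' hz, add_zero]
    have q3 : lm B (M κ (fun n z => c z * f1 n z)) (M κ f') z =
        c z * lm B (M κ f1) (M κ f') z := by
      rw [lm_congr H (((d1.sM H).smul hc).add (Dec.err e2)) mf'
        (fun n z hz => M_smul hB hc m1.sm n hz) hz, lm_add H ((d1.sM H).smul hc) (Dec.err e2) mf' hz,
        lm_smul H hc (d1.sM H) mf' hz, lm_err H e2 mf' hz, add_zero]
    simp only [Q5, E5]
    rw [q1, q2, q3, P_smul hB hc m1.sm n hz, M_smul hB hc m1.sm n hz]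
    have p0 : P κ f' n z = TH294.RS.sP Complex.im κ f' n z := rfl
    have m0 : M κ f' n z = TH294.RS.sM Complex.im κ f' n z := rfl
    rw [← p0, ← m0]
    ring
  | @hm e r1 h1 =>
    have he := r1.m H
    have rr := r1.rp H
    have e1 := (rr.sP H).dec.m H
    have e2 := (rr.sM H).dec.m H
    have E1 := hE4 H hBU LM (rr.sP H) (hf'.sP H)
    have E2 := hE4 H hBU LP (rr.sM H) (hf'.sM H)
    have E3 := (hE4 H hBU L0 rr hf').cmul 2
    refine ((E1.add E2).sub E3).congr fun n z hz => ?_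
    have q1 := lm_err H he hf'.dec hz
    have q2 : lm B (P κ (fun n z => (κ n : ℂ) * e n z)) (P κ f') z = 0 := by
      rw [lm_congr H (Dec.err e1) pf' (fun n z hz => P_h hB he.sm n hz) hz, lm_err H e1 pf' hz]
    have q3 : lm B (M κ (fun n z => (κ n : ℂ) * e n z)) (M κ f') z = 0 := by
      rw [lm_congr H (Dec.err e2) mf' (fun n z hz => M_h hB he.sm n hz) hz, lm_err H e2 mf' hz]
    simp only [Q5, E5]
    rw [q1, q2, q3, P_h hB he.sm n hz, M_h hB he.sm n hz]
    have p0 : P κ f' n z = TH294.RS.sP Complex.im κ f' n z := rfl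
    have m0 : M κ f' n z = TH294.RS.sM Complex.im κ f' n z := rfl
    have p1 : P κ e n z = TH294.RS.sP Complex.im κ e n z := rfl
    have m1 : M κ e n z = TH294.RS.sM Complex.im κ e n z := rfl
    rw [← p0, ← m0, ← p1, ← m1]
    ring
  | @congr f1 f2 r1 e h1 =>
    refine h1.congr fun n z hz => ?_
    have d1 := (r1.rp H).dec
    have q1 := lm_congr H d1 hf'.dec e hz
    have q2 : lm B (P κ f2) (P κ f') z = lm B (P κ f1) (P κ f') z :=
      lm_congr H (d1.sP H) pf' (fun n z hz => P_cg hB e n hz) hz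
    have q3 : lm B (M κ f2) (M κ f') z = lm B (M κ f1) (M κ f') z :=
      lm_congr H (d1.sM H) mf' (fun n z hz => M_cg hB e n hz) hz
    simp only [Q5, E5]
    rw [q1, q2, q3, P_cg hB e n hz, M_cg hB e n hz, e n z hz]

/-- the null form, the second system may be slower -/
theorem nqr6 (H : SY B Complex.im h w) (H' : SY B Complex.im κ v) (hBU : B ⊆ UH) {C : ℝ}
    (hC : ∀ n, h n ≤ C * κ n)
    {f f' g g' : ℕ → ℂ → ℂ} (hf : RP B h w f)
    (hf' : RP B h w f') (hg : RE B κ v g) (hg' : RE B κ v g') :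
    WN B (fun n z => Q5 h κ f f' g g' n z - E5 B h κ f f' g g' z) := by
  refine ext5 H H' hBU hC hf hf' (hg.rp H') (hg'.rp H') fun p hp => ?_
  refine s1 (ext5 H H' hBU hC hf' (RP.ex hp) (hg.rp H') (hg'.rp H') fun p' hp' => ?_)
  refine s2 (ext6 H' H hBU hg (hg'.rp H') (RP.ex hp') (RP.ex hp) fun q hq => ?_)
  refine s1 (ext6 H' H hBU hg' (RP.ex hq) (RP.ex hp') (RP.ex hp) fun q' hq' => ?_)
  exact nq5 H' H hBU hq' hq hp' hp

/-- replacement of factors up to errors -/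
lemma half6 (H : SY B Complex.im h w) (H' : SY B Complex.im κ v) (hBU : B ⊆ UH) {C : ℝ}
    (hC : ∀ n, h n ≤ C * κ n) {f1 f2 p1 p2 e1 e2 g1 g2 q1 q2 e3 e4 : ℕ → ℂ → ℂ}
    (rf2 : RP B h w f2) (rp1 : RP B h w p1) (rp2 : RP B h w p2)
    (he1 : M2C B h e1) (he2 : M2C B h e2)
    (c1 : ∀ n, ∀ z ∈ B, f1 n z = p1 n z + (h n : ℂ) * e1 n z)
    (c2 : ∀ n, ∀ z ∈ B, f2 n z = p2 n z + (h n : ℂ) * e2 n z)
    (rg1 : RP B κ v g1) (rg2 : RP B κ v g2) (rq1 : RP B κ v q1)
    (re3 : RP B κ v e3) (re4 : RP B κ v e4)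
    (c3 : ∀ n, ∀ z ∈ B, g1 n z = q1 n z + (κ n : ℂ) * e3 n z)
    (c4 : ∀ n, ∀ z ∈ B, g2 n z = q2 n z + (κ n : ℂ) * e4 n z) :
    WN B (fun n z => f1 n z * f2 n z * (g1 n z * g2 n z) -
      p1 n z * p2 n z * (q1 n z * q2 n z)) := by
  have F1 := hE5 H H' hBU hC (LB.mul2 he1.lb (rf2.dec.m H).lb) rg1 rg2
  have F2 := hE5 H H' hBU hC (LB.mul2 he2.lb (rp1.dec.m H).lb) rg1 rg2
  have LL : LB B 1 (fun n z => p1 n z * p2 n z) := LB.mul2 (rp1.dec.m H).lb (rp2.dec.m H).lb
  have F3 := hE4 H' hBU LL re3 rg2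
  have F4 := hE4 H' hBU LL re4 rq1
  refine (((F1.add F2).add F3).add F4).congr fun n z hz => ?_
  have d1 := c1 n z hz
  have d2 := c2 n z hz
  have d3 := c3 n z hz
  have d4 := c4 n z hz
  linear_combination (f2 n z * (g1 n z * g2 n z)) * d1 +
      (p1 n z * (g1 n z * g2 n z)) * d2 +
      (p1 n z * p2 n z * g2 n z) * d3 +
      (p1 n z * p2 n z * q1 n z) * d4

/-- the null form of two ladders, the second one may be slower -/
theorem nWJ6 {x : ℕ → ℂ → ℂ} (H : SY B Complex.im h w) (H' : SY B Complex.im κ (ww Complex.im κ x))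
    (hx : ∀ n z, (starRingEnd ℂ) (x n z) = x n z) (hBU : B ⊆ UH) {C : ℝ}
    (hC : ∀ n, h n ≤ C * κ n) (h0 : EX B h w (w 0))
    (k0 : EX B κ (ww Complex.im κ x) (ww Complex.im κ x 0)) (a b c d : ℤ) :
    WN B (fun n z => w (a + 1) n z * w (b + 1) n z * ww Complex.im κ x (c - 1) n z *
        ww Complex.im κ x (d - 1) n z +
      w (a - 1) n z * w (b - 1) n z * ww Complex.im κ x (c + 1) n z *
        ww Complex.im κ x (d + 1) n z -
      2 * (w a n z * w b n z * ww Complex.im κ x c n z * ww Complex.im κ x d n z) -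
      (CC (a + 1) (b + 1) * CC (c - 1) (d - 1) + CC (a - 1) (b - 1) * CC (c + 1) (d + 1) -
        2 * CC a b * CC c d)) := by
  have hB := H.op
  set v := ww Complex.im κ x with hv
  have rw' := fun k => RP.W H h0 k
  have rv := fun k => RE.W H' k0 hx k
  have rv' := fun k => (rv k).rp H'
  have key := nqr6 H H' hBU hC (rw' a) (rw' b) (rv c) (rv d)
  obtain ⟨e1, he1, g1⟩ := H.up a
  obtain ⟨e2, he2, g2⟩ := H.up b
  obtain ⟨e3, he3, g3⟩ := dnE H' k0 hx c
  obtain ⟨e4, he4, g4⟩ := dnE H' k0 hx d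
  have k1 := half6 H H' hBU hC (f1 := P h (w a)) (f2 := P h (w b)) (p1 := w (a + 1))
    (p2 := w (b + 1)) (g1 := M κ (v c)) (g2 := M κ (v d)) (q1 := fun n z => (-1) * v (c - 1) n z)
    (q2 := fun n z => (-1) * v (d - 1) n z)
    ((rw' b).sP H) (rw' _) (rw' _) he1 he2 (fun n z hz => g1 n z hz) (fun n z hz => g2 n z hz)
    ((rv' c).sM H') ((rv' d).sM H') ((rv' _).cmul (-1)) (he3.rp H') (he4.rp H')
    (fun n z hz => (g3 n z hz).trans (by ring)) (fun n z hz => (g4 n z hz).trans (by ring))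
  obtain ⟨a1, ha1, b1⟩ := H.dn a
  obtain ⟨a2, ha2, b2⟩ := H.dn b
  obtain ⟨a3, ha3, b3⟩ := upE H' k0 hx c
  obtain ⟨a4, ha4, b4⟩ := upE H' k0 hx d
  have k2 := half6 H H' hBU hC (f1 := M h (w a)) (f2 := M h (w b))
    (p1 := fun n z => (-1) * w (a - 1) n z)
    (p2 := fun n z => (-1) * w (b - 1) n z) (g1 := P κ (v c)) (g2 := P κ (v d)) (q1 := v (c + 1))
    (q2 := v (d + 1))
    ((rw' b).sM H) ((rw' _).cmul (-1)) ((rw' _).cmul (-1)) ha1 ha2
    (fun n z hz => (b1 n z hz).trans (by ring)) (fun n z hz => (b2 n z hz).trans (by ring))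
    ((rv' c).sP H') ((rv' d).sP H') (rv' _) (ha3.rp H') (ha4.rp H')
    (fun n z hz => b3 n z hz) (fun n z hz => b4 n z hz)
  refine ((key.sub k1).sub k2).congr fun n z hz => ?_
  simp only [Q5, E5]
  rw [PPW H a b hz, MMW H' c d hz, MMW H a b hz, PPW H' c d hz, lmW H a b hz, lmW H' c d hz]
  ring

/-- functions which are negligible against sequences bounded in mean square -/
def EG (B : Set ℂ) (h : ℕ → ℝ) (R : ℕ → ℂ → ℂ) : Prop :=
  (∀ n, ContinuousOn (R n) B) ∧
    ∀ G, LB B 2 G → WN B (fun n z => (h n : ℂ) * (R n z * G n z))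

lemma EG.add {R R' : ℕ → ℂ → ℂ} (H : EG B h R) (H' : EG B h R') :
    EG B h (fun n z => R n z + R' n z) :=
  ⟨fun n => (H.1 n).add (H'.1 n), fun G hG =>
    ((H.2 G hG).add (H'.2 G hG)).congr fun n z _ => by ring⟩

lemma EG.sub {R R' : ℕ → ℂ → ℂ} (H : EG B h R) (H' : EG B h R') :
    EG B h (fun n z => R n z - R' n z) :=
  ⟨fun n => (H.1 n).sub (H'.1 n), fun G hG =>
    ((H.2 G hG).sub (H'.2 G hG)).congr fun n z _ => by ring⟩

lemma EG.qe (H : SY B Complex.im h w) (hBU : B ⊆ UH) {Q : ℕ → ℂ → ℂ} (hQ : QE B h w Q) :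
    EG B h Q :=
  ⟨fun n => ((hQ.lb H).sm n).continuousOn, fun _ hG => qe_wn H hBU hQ hG⟩

lemma EG.mul (H' : SY B Complex.im κ v) (hBU : B ⊆ UH) {C : ℝ} (hC : ∀ n, |h n / κ n| ≤ C)
    {e f : ℕ → ℂ → ℂ} (he : LB B 2 e) (hf : RP B κ v f) : EG B h (fun n z => e n z * f n z) := by
  refine ⟨fun n => (he.sm n).continuousOn.mul (((hf.dec.m H').sm n).continuousOn), fun G hG => ?_⟩
  have h1 := hE3 H' hBU (LB.mul2 he hG) hf
  refine (WN.bsc h1 hC).congr fun n z _ => ?_
  have h2 : (κ n : ℂ) ≠ 0 := by exact_mod_cast (H'.hpos n).ne'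
  push_cast
  field_simp

/-- `-h² y² Δ` of a product of elements of two ladders, the second one may be slower -/
lemma sL_prod3 (H : SY B Complex.im h w) (H' : SY B Complex.im κ v) (hBU : B ⊆ UH)
    (h0 : EX B h w (w 0)) (k0 : EX B κ v (v 0)) {C : ℝ} (hC : ∀ n, |h n / κ n| ≤ C) (i j : ℤ) :
    ∃ R, EG B h R ∧ ∀ n, ∀ z ∈ B,
      sL Complex.im h (fun n z => w i n z * v j n z) n z =
      (1 + ((h n / κ n : ℝ) : ℂ) ^ 2) * (w i n z * v j n z) +
      ((h n / κ n : ℝ) : ℂ) * (w (i + 1) n z * v (j - 1) n z + w (i - 1) n z * v (j + 1) n z) +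
      (h n : ℂ) * R n z := by
  have hB := H.op
  have rp : ∀ k, RP B h w (w k) := fun k => RP.W H h0 k
  have rq : ∀ k, RP B κ v (v k) := fun k => RP.W H' k0 k
  obtain ⟨e1, he1, g1⟩ := H.up i
  obtain ⟨e2, he2, g2⟩ := H'.up j
  obtain ⟨f1, hf1, k1⟩ := H.dn (i + 1)
  obtain ⟨f2, hf2, k2⟩ := H'.dn j
  obtain ⟨f3, hf3, k3⟩ := H.dn i
  obtain ⟨f4, hf4, k4⟩ := H'.dn (j + 1)
  have ch : ∀ {e : ℕ → ℂ → ℂ}, M2C B κ e → M2C B h e := fun he => M2C.chg hB H'.hpos hC he
  have cmm : ∀ {e f : ℕ → ℂ → ℂ}, M2C B h e → RP B h w f → QE B h w (fun n z => f n z * e n z) :=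
    fun he hf => (QE.mul he hf).cg fun n z _ => by ring
  have q0 : QE B h w (fun n z => w i n z * v j n z) := cmm (ch (H'.bd j)) (rp i)
  have q1 : QE B h w (fun n z => w i n z * e2 n z) := cmm (ch he2) (rp i)
  have q2 : QE B h w (fun n z => w (i + 1) n z * f2 n z) := cmm (ch hf2) (rp _)
  have q3 : QE B h w (fun n z => ((h n / κ n : ℝ) : ℂ) * (w i n z * f4 n z)) :=
    QE.bsc hB hC (cmm (ch hf4) (rp i))
  have q4 : QE B h w (fun n z => ab Complex.im z *
      TH294.RS.sP Complex.im h (fun n z => w i n z * v j n z) n z) :=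
    (q0.sP H).smulc H (ab_sm hB H.sa)
  have q5 := q1.sM H
  have r1 : EG B h (fun n z => f1 n z * v j n z) := EG.mul H' hBU hC hf1.lb (rq j)
  have r2 : EG B h (fun n z => ((h n / κ n : ℝ) : ℂ) * f3 n z * v (j + 1) n z) :=
    EG.mul H' hBU hC (LB.bsc hf3.lb hC) (rq _)
  have r3 : EG B h (fun n z => TH294.RS.sM Complex.im h e1 n z * v j n z) :=
    EG.mul H' hBU hC (he1.sM hB H.hlim H.sa).lb (rq j)
  have r4 : EG B h (fun n z => ((h n / κ n : ℝ) : ℂ) * e1 n z *
      TH294.RS.sM Complex.im κ (v j) n z) :=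
    EG.mul H' hBU hC (LB.bsc he1.lb hC) ((rq j).sM H')
  refine ⟨_, (EG.qe H hBU (((q4.sub H q2).sub H q3).sub H q5)).sub ((r1.add r2).add (r3.add r4)),
    fun n z hz => ?_⟩
  have sw : ∀ k, ContDiffOn ℝ ∞ (w k n) B := fun k => (H.bd k).sm n
  have sv : ∀ k, ContDiffOn ℝ ∞ (v k n) B := fun k => (H'.bd k).sm n
  have kn : (κ n : ℂ) ≠ 0 := by exact_mod_cast (H'.hpos n).ne'
  set r : ℂ := ((h n / κ n : ℝ) : ℂ) with hr
  have hk : (h n : ℂ) = r * (κ n : ℂ) := by
    rw [hr]; push_cast; field_simp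
  rw [sL_eq hB H.sa (q0.lb H).sm n hz]
  -- `DP` of the product
  have eP : ∀ z ∈ B, TH294.RS.sP Complex.im h (fun n z => w i n z * v j n z) n z =
      (w (i + 1) n z * v j n z + r * (w i n z * v (j + 1) n z)) +
      (h n : ℂ) * (e1 n z * v j n z + w i n z * e2 n z) := by
    intro z hz
    have c1 := g1 n z hz
    have c2 := g2 n z hz
    simp only [TH294.RS.sP, DP] at c1 c2 ⊢
    rw [dd_mul (fda hB (sw i) hz) (fda hB (sv j) hz)]
    linear_combination (v j n z) * c1 + (w i n z) * r * c2 +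
      (w i n z * ((z.im : ℂ) * dd (v j n) z - e2 n z)) * hk
  have eM : TH294.RS.sM Complex.im h (TH294.RS.sP Complex.im h (fun n z => w i n z * v j n z)) n z =
      DM Complex.im (h n) (fun z => (w (i + 1) n z * v j n z + r * (w i n z * v (j + 1) n z)) +
      (h n : ℂ) * (e1 n z * v j n z + w i n z * e2 n z)) z := DM_cg hB (h n) eP hz
  have s1 := fda hB ((sw (i + 1)).mul (sv j)) hz
  have s2 := fda hB ((sw i).mul (sv (j + 1))) hz
  have s3 := fda hB ((q1.lb H).sm n) hz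
  have d1 := fda hB (he1.sm n) hz
  have d2 := fda hB (sv j) hz
  have s4 : DifferentiableAt ℝ (fun z => e1 n z * v j n z) z := d1.mul d2
  have eM2 : DM Complex.im (h n) (fun z => (w (i + 1) n z * v j n z +
      r * (w i n z * v (j + 1) n z)) +
      (h n : ℂ) * (e1 n z * v j n z + w i n z * e2 n z)) z =
      DM Complex.im (h n) (fun z => w (i + 1) n z * v j n z) z +
      r * DM Complex.im (h n) (fun z => w i n z * v (j + 1) n z) z +
      (h n : ℂ) * ((TH294.RS.sM Complex.im h e1 n z * v j n z +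
        r * e1 n z * TH294.RS.sM Complex.im κ (v j) n z) +
        TH294.RS.sM Complex.im h (fun n z => w i n z * e2 n z) n z) := by
    simp only [DM, TH294.RS.sM]
    rw [Pool.Agent.Y265.HY.db_add (f := fun z => w (i + 1) n z * v j n z + r * (w i n z * v (j + 1) n z))
      (g := fun z => (h n : ℂ) * (e1 n z * v j n z + w i n z * e2 n z)) (s1.add (s2.const_mul _))
      ((s4.add s3).const_mul _), Pool.Agent.Y265.HY.db_add s1 (s2.const_mul _), db_cm s2,
      db_cm (f := fun z => e1 n z * v j n z + w i n z * e2 n z) (s4.add s3),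
      Pool.Agent.Y265.HY.db_add s4 s3, db_mul d1 d2]
    linear_combination ((h n : ℂ) * (e1 n z * ((z.im : ℂ) * db (v j n) z))) * hk
  have m1 : DM Complex.im (h n) (fun z => w (i + 1) n z * v j n z) z =
      -(w i n z * v j n z) - r * (w (i + 1) n z * v (j - 1) n z) +
      (h n : ℂ) * (f1 n z * v j n z + w (i + 1) n z * f2 n z) := by
    have c1 := k1 n z hz
    have c2 := k2 n z hz
    rw [add_sub_cancel_right] at c1
    simp only [DM] at c1 c2 ⊢
    rw [db_mul (fda hB (sw (i + 1)) hz) (fda hB (sv j) hz)]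
    linear_combination (v j n z) * c1 + (w (i + 1) n z) * r * c2 +
      (w (i + 1) n z * ((z.im : ℂ) * db (v j n) z - f2 n z)) * hk
  have m2 : DM Complex.im (h n) (fun z => w i n z * v (j + 1) n z) z =
      -(w (i - 1) n z * v (j + 1) n z) - r * (w i n z * v j n z) +
      (h n : ℂ) * (f3 n z * v (j + 1) n z + w i n z * f4 n z) := by
    have c1 := k3 n z hz
    have c2 := k4 n z hz
    rw [add_sub_cancel_right] at c2
    simp only [DM] at c1 c2 ⊢
    rw [db_mul (fda hB (sw i) hz) (fda hB (sv (j + 1)) hz)]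
    linear_combination (v (j + 1) n z) * c1 + (w i n z) * r * c2 +
      (w i n z * ((z.im : ℂ) * db (v (j + 1) n) z - f4 n z)) * hk
  rw [eM, eM2, m1, m2]
  ring

/-- **the relation of a third eigenfunction**, the second system may be slower -/
theorem relR6 (H : SY B Complex.im h w) (H' : SY B Complex.im κ v) (hBU : B ⊆ UH)
    (h0 : EX B h w (w 0)) (k0 : EX B κ v (v 0)) {C : ℝ} (hC : ∀ n, |h n / κ n| ≤ C)
    {s : ℕ → ℝ} {G : ℕ → ℂ → ℂ} (hG : LB B 2 G)
    (eG : ∀ n, ∀ z ∈ B, (h n : ℂ) ^ 2 * ((z.im : ℂ) ^ 2 * lap (G n) z) = -((s n : ℂ) * G n z))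
    {φ : ℂ → ℝ} (hφ : TF B φ) (k : ℤ) :
    Tendsto (fun n => ((s n - 1 - (h n / κ n) ^ 2 : ℝ) : ℂ) *
        (∫ z, (φ z : ℂ) * (w k n z * v (-k) n z * G n z)) -
      ((h n / κ n : ℝ) : ℂ) * ((∫ z, (φ z : ℂ) * (w (k + 1) n z * v (-(k + 1)) n z * G n z)) +
        ∫ z, (φ z : ℂ) * (w (k - 1) n z * v (-(k - 1)) n z * G n z))) atTop (𝓝 0) := by
  have hB := H.op
  obtain ⟨R, hR, e⟩ := sL_prod3 H H' hBU h0 k0 hC k (-k)
  have q0 : QE B h w (fun n z => w k n z * v (-k) n z) :=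
    (QE.mul (M2C.chg hB H'.hpos hC (H'.bd (-k))) (RP.W H h0 k)).cg fun n z _ => by ring
  have p := pair1 H hBU hG eG q0 hφ
  have nR := (hR.2 G hG).nul φ hφ
  have key := p.add nR
  rw [add_zero] at key
  refine key.congr fun n => ?_
  have kn : (κ n : ℂ) ≠ 0 := by exact_mod_cast (H'.hpos n).ne'
  have sw : ∀ k, ContinuousOn (w k n) B := fun k => ((H.bd k).sm n).continuousOn
  have sv : ∀ k, ContinuousOn (v k n) B := fun k => ((H'.bd k).sm n).continuousOn
  have sG := (hG.sm n).continuousOn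
  have iE : ∀ i j, Integrable (fun z => (φ z : ℂ) * (w i n z * v j n z * G n z)) := fun i j =>
    TF.cint hφ (((sw i).mul (sv j)).mul sG)
  have iR : Integrable (fun z => (φ z : ℂ) * ((h n : ℂ) * (R n z * G n z))) :=
    TF.cint hφ (continuousOn_const.mul ((hR.1 n).mul sG))
  have i0 : Integrable (fun _ : ℂ => (0 : ℂ)) := integrable_zero _ _ _
  have e1 : ∫ z, (φ z : ℂ) * (sL Complex.im h (fun n z => w k n z * v (-k) n z) n z * G n z) =
      (1 + ((h n / κ n : ℝ) : ℂ) ^ 2) * (∫ z, (φ z : ℂ) * (w k n z * v (-k) n z * G n z)) +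
      ((h n / κ n : ℝ) : ℂ) * (∫ z, (φ z : ℂ) * (w (k + 1) n z * v (-k - 1) n z * G n z)) +
      ((h n / κ n : ℝ) : ℂ) * (∫ z, (φ z : ℂ) * (w (k - 1) n z * v (-k + 1) n z * G n z)) +
      (∫ z, (φ z : ℂ) * ((h n : ℂ) * (R n z * G n z))) + ∫ _z : ℂ, (0 : ℂ) := by
    rw [← integral_const_mul, ← integral_const_mul, ← integral_const_mul,
      ← int5 ((iE _ _).const_mul _) ((iE _ _).const_mul _) ((iE _ _).const_mul _) iR i0]
    congr 1; funext z
    by_cases hz : z ∈ B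
    · rw [e n z hz]
      ring
    · rw [TF.zero hφ hz]; simp
  rw [show -(k + 1) = -k - 1 by ring, show -(k - 1) = -k + 1 by ring, e1, integral_zero]
  push_cast
  ring

end

end Pool.Agent.K1H18.TP
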