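import Pool.Agent.K1H18.TP.Mom
import Pool.Agent.K1H18.TP.One

/-!
# Triple products: verification of the relations when the second sequence may be slower
-/

set_option autoImplicit false
open MeasureTheory Filter Topology Complex
open scoped ContDiff

namespace Pool.Agent.K1H18.TP

open Pool.Agent.W745.RW Pool.Agent.TH294.RS Pool.Agent.Y265.HY Pool.Agent.R314.JN
open AddMonoidAlgebra (single)

noncomputable section

variable {Ω : Set ℂ} {lam mu nu : ℕ → ℝ} {u v : ℕ → ℂ → ℝ} {g : ℕ → ℂ → ℝ} {ρ : ℂ → ℝ}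

lemma int3s {f1 f2 f3 f4 : ℂ → ℂ} (h1 : Integrable f1) (h2 : Integrable f2)
    (h3 : Integrable f3) (h4 : Integrable f4) :
    ∫ z, (f1 z + f2 z - f3 z - f4 z) = (∫ z, f1 z) + (∫ z, f2 z) - (∫ z, f3 z) -
      ∫ z, f4 z := by
  rw [integral_sub (f := fun z => f1 z + f2 z - f3 z) ((h1.add h2).sub h3) h4,
    integral_sub (f := fun z => f1 z + f2 z) (h1.add h2) h3, integral_add h1 h2]

lemma int4a {f1 f2 f3 f4 : ℂ → ℂ} (h1 : Integrable f1) (h2 : Integrable f2)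
    (h3 : Integrable f3) (h4 : Integrable f4) :
    ∫ z, (f1 z + f2 z + f3 z + f4 z) = (∫ z, f1 z) + (∫ z, f2 z) + (∫ z, f3 z) +
      ∫ z, f4 z := by
  rw [integral_add (f := fun z => f1 z + f2 z + f3 z) ((h1.add h2).add h3) h4,
    integral_add (f := fun z => f1 z + f2 z) (h1.add h2) h3, integral_add h1 h2]

/-- the relations of the ladders -/
theorem lads6 (H : QS Ω lam u) (H' : QS Ω mu v) (hΩ : IsOpen Ω) (hU : ∀ z ∈ Ω, 0 < z.im)
    (hρ : TF Ω ρ) {A : ℝ} (hA : 0 < A) (h2 : ∀ n, mu n ≤ A * lam n)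
    (a b c d : ℤ) :
    Tendsto (fun n => J2 ρ (lam n) (mu n) (u n) (v n) (a + 1) (b + 1) (c - 1) (d - 1) +
      J2 ρ (lam n) (mu n) (u n) (v n) (a - 1) (b - 1) (c + 1) (d + 1) -
      2 * J2 ρ (lam n) (mu n) (u n) (v n) a b c d) atTop
      (𝓝 ((CC (a + 1) (b + 1) * CC (c - 1) (d - 1) + CC (a - 1) (b - 1) * CC (c + 1) (d + 1) -
        2 * CC a b * CC c d) * ((∫ z, ρ z : ℝ) : ℂ))) ∧
    Tendsto (fun n => J2 ρ (lam n) (mu n) (u n) (v n) (a + 1) b c d +
      J2 ρ (lam n) (mu n) (u n) (v n) a (b + 1) c d + (√(mu n) / √(lam n) : ℝ) *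
      (J2 ρ (lam n) (mu n) (u n) (v n) a b (c + 1) d +
        J2 ρ (lam n) (mu n) (u n) (v n) a b c (d + 1)))
      atTop (𝓝 0) := by
  obtain ⟨S, E⟩ := hyp_sys hΩ hU H.pos H.lim H.sm H.eq H.qe
  obtain ⟨S', E'⟩ := hyp_sys hΩ hU H'.pos H'.lim H'.sm H'.eq H'.qe
  have hC : ∀ n, 1 / √(lam n) ≤ √A * (1 / √(mu n)) := by
    intro n
    have : √(mu n) ≤ √A * √(lam n) := by
      rw [← Real.sqrt_mul hA.le]
      exact Real.sqrt_le_sqrt (h2 n)
    have px := Real.sqrt_pos.2 (H.pos n)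
    have py := Real.sqrt_pos.2 (H'.pos n)
    rw [mul_one_div, div_le_div_iff₀ px py]
    linarith
  have hBU : Ω ⊆ UH := fun z hz => hU z hz
  have key := nWJ6 S S' (fun n z => Complex.conj_ofReal _) hBU hC E E' a b c d
  have key2 := tr5 S S' hBU hC E E' a b c d
  have iJ := fun n a b c d => TF.cint hρ (q2_co H H' hΩ hU n a b c d)
  simp only [FW_eq lam u, FW_eq mu v] at key key2
  have IJ : Integrable (fun z => (ρ z : ℂ)) :=
    (hρ.1.continuous.integrable_of_hasCompactSupport hρ.2.1).ofReal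
  constructor
  · have k1 := key.nul _ hρ
    set c0 : ℂ := CC (a + 1) (b + 1) * CC (c - 1) (d - 1) + CC (a - 1) (b - 1) *
      CC (c + 1) (d + 1) - 2 * CC a b * CC c d with hc0
    have k1' := k1
    unfold Null at k1'
    have k2 := k1'.add_const (c0 * ((∫ z, ρ z : ℝ) : ℂ))
    rw [zero_add] at k2
    refine k2.congr fun n => ?_
    have e1 : c0 * ((∫ z, ρ z : ℝ) : ℂ) = ∫ z, (ρ z : ℂ) * c0 := by
      rw [integral_mul_const, integral_complex_ofReal, mul_comm]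
    have i2 : Integrable (fun z => (ρ z : ℂ) * c0) := IJ.mul_const c0
    have e2 : ∫ z, (ρ z : ℂ) *
      (FW (lam n) (u n) (a + 1) z * FW (lam n) (u n) (b + 1) z * FW (mu n) (v n) (c - 1) z *
        FW (mu n) (v n) (d - 1) z +
      FW (lam n) (u n) (a - 1) z * FW (lam n) (u n) (b - 1) z * FW (mu n) (v n) (c + 1) z *
        FW (mu n) (v n) (d + 1) z -
      2 * (FW (lam n) (u n) a z * FW (lam n) (u n) b z * FW (mu n) (v n) c z *
        FW (mu n) (v n) d z) - c0) =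
      J2 ρ (lam n) (mu n) (u n) (v n) (a + 1) (b + 1) (c - 1) (d - 1) +
      J2 ρ (lam n) (mu n) (u n) (v n) (a - 1) (b - 1) (c + 1) (d + 1) -
      2 * J2 ρ (lam n) (mu n) (u n) (v n) a b c d - ∫ z, (ρ z : ℂ) * c0 := by
      unfold J2
      rw [← integral_const_mul, ← int3s (iJ n _ _ _ _) (iJ n _ _ _ _)
        ((iJ n _ _ _ _).const_mul 2) i2]
      congr 1; funext z
      ring
    rw [e2, e1]
    ring
  · have k1 := key2.nul _ hρ
    refine Tendsto.congr (fun n => ?_) k1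
    unfold J2
    have hr : (1 / √(lam n)) / (1 / √(mu n)) = √(mu n) / √(lam n) := by
      rw [one_div, one_div, inv_div_inv]
    rw [mul_add, ← integral_const_mul, ← integral_const_mul, ← add_assoc,
      ← int4a (iJ n _ _ _ _) (iJ n _ _ _ _) ((iJ n _ _ _ _).const_mul _)
        ((iJ n _ _ _ _).const_mul _)]
    congr 1; funext z
    rw [← hr]
    ring

/-- the second translation relation -/
lemma Tbar6 (H : QS Ω lam u) (H' : QS Ω mu v) (hΩ : IsOpen Ω) (hU : ∀ z ∈ Ω, 0 < z.im)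
    (hρ : TF Ω ρ) {A : ℝ} (hA : 0 < A) (h2 : ∀ n, mu n ≤ A * lam n)
    (a b c d : ℤ) :
    Tendsto (fun n => J2 ρ (lam n) (mu n) (u n) (v n) (a - 1) b c d +
      J2 ρ (lam n) (mu n) (u n) (v n) a (b - 1) c d + (√(mu n) / √(lam n) : ℝ) *
      (J2 ρ (lam n) (mu n) (u n) (v n) a b (c - 1) d +
        J2 ρ (lam n) (mu n) (u n) (v n) a b c (d - 1)))
      atTop (𝓝 0) := by
  have key := (lads6 H H' hΩ hU hρ hA h2 (-a) (-b) (-c) (-d)).2
  have k2 := (Complex.continuous_conj.tendsto _).comp key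
  rw [map_zero] at k2
  have k3 := k2.const_mul (-((-1 : ℂ) ^ a.natAbs * (-1) ^ b.natAbs *
    ((-1) ^ c.natAbs * (-1) ^ d.natAbs)))
  rw [mul_zero] at k3
  refine k3.congr fun n => ?_
  simp only [Function.comp_def]
  rw [map_add, map_add, map_mul, map_add, Complex.conj_ofReal, J2_cj H H' hΩ hU hρ,
    J2_cj H H' hΩ hU hρ, J2_cj H H' hΩ hU hρ, J2_cj H H' hΩ hU hρ]
  rw [show -a + 1 = -(a - 1) by ring, show -b + 1 = -(b - 1) by ring,
    show -c + 1 = -(c - 1) by ring, show -d + 1 = -(d - 1) by ring]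
  simp only [neg_neg, Int.natAbs_neg, sgnS]
  have ea := sgn2 a
  have eb := sgn2 b
  have ec := sgn2 c
  have ed := sgn2 d
  set x : ℂ := (-1) ^ a.natAbs
  set y : ℂ := (-1) ^ b.natAbs
  set p : ℂ := (-1) ^ c.natAbs
  set q : ℂ := (-1) ^ d.natAbs
  have e : (x * y * (p * q)) * (x * y * (p * q)) = 1 := by
    linear_combination (y * y * (p * p) * (q * q)) * ea + (p * p * (q * q)) * eb +
      (q * q) * ec + ed
  linear_combination (J2 ρ (lam n) (mu n) (u n) (v n) (a - 1) b c d +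
      J2 ρ (lam n) (mu n) (u n) (v n) a (b - 1) c d + (√(mu n) / √(lam n) : ℝ) *
      (J2 ρ (lam n) (mu n) (u n) (v n) a b (c - 1) d +
        J2 ρ (lam n) (mu n) (u n) (v n) a b c (d - 1))) * e

/-- **the relations hold** -/
theorem mkTR6 (H : QS Ω lam u) (H' : QS Ω mu v) (hΩ : IsOpen Ω) (hU : ∀ z ∈ Ω, 0 < z.im)
    (hρ : TF Ω ρ) (h0 : ∀ z, 0 ≤ ρ z) {A : ℝ} (hA : 0 < A)
    (h2 : ∀ n, mu n ≤ A * lam n) (gs : ∀ n, ContDiffOn ℝ ∞ (g n) Ω)
    (ge : ∀ n, ∀ z ∈ Ω, z.im ^ 2 * lap (g n) z + nu n * g n z = 0)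
    (gb : ∀ K : Set ℂ, IsCompact K → K ⊆ Ω → ∃ C : ℝ, ∀ᶠ n in atTop, ∫ z in K, g n z ^ 2 ≤ C) :
    TR atTop (fun n => √(mu n) / √(lam n)) (fun n => nu n / lam n - 1 - mu n / lam n) (∫ z, ρ z)
      (JM ρ lam mu u v) (tM ρ lam mu u v g) where
  T a b c d := (lads6 H H' hΩ hU hρ hA h2 a b c d).2
  Tb a b c d := Tbar6 H H' hΩ hU hρ hA h2 a b c d
  N a b c d := (lads6 H H' hΩ hU hρ hA h2 a b c d).1
  B := ⟨12 * |∫ z, ρ z| + 1, by positivity, fun a b c d => Bbd H H' hΩ hU hρ h0 a b c d⟩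
  P := by
    obtain ⟨M, hM0, hM⟩ := sqb hρ (fun n => (gs n).continuousOn) gb
    refine ⟨M, hM0, hM.mono fun n hn φ => ?_⟩
    have cg : ContinuousOn (fun z => (g n z : ℂ)) Ω :=
      Complex.continuous_ofReal.comp_continuousOn (gs n).continuousOn
    have k := csC hΩ hρ h0 (Pf_co H H' hΩ hU φ n) cg
    have p0 : 0 ≤ ∫ z, ρ z * ‖Pf lam mu u v z φ n‖ ^ 2 :=
      integral_nonneg fun z => mul_nonneg (h0 z) (by positivity)
    rw [Lf_tM H H' hΩ hU hρ (fun n => (gs n).continuousOn), Lf_FF H H' hΩ hU hρ,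
      Complex.norm_real, Real.norm_eq_abs, abs_of_nonneg p0]
    refine k.trans ?_
    rw [mul_comm]
    exact mul_le_mul_of_nonneg_right hn p0
  R k := by
    obtain ⟨S, E⟩ := hyp_sys hΩ hU H.pos H.lim H.sm H.eq H.qe
    obtain ⟨S', E'⟩ := hyp_sys hΩ hU H'.pos H'.lim H'.sm H'.eq H'.qe
    have hC : ∀ n, |1 / √(lam n) / (1 / √(mu n))| ≤ √A := by
      intro n
      have : √(mu n) ≤ √A * √(lam n) := by
        rw [← Real.sqrt_mul hA.le]
        exact Real.sqrt_le_sqrt (h2 n)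
      have px := Real.sqrt_pos.2 (H.pos n)
      have py := Real.sqrt_pos.2 (H'.pos n)
      rw [abs_of_pos (by positivity), one_div, one_div, inv_div_inv, div_le_iff₀ px]
      exact this
    have hBU : Ω ⊆ UH := fun z hz => hU z hz
    have lbg : LB Ω 2 (fun n z => (g n z : ℂ)) := by
      refine ⟨fun n => cxa (gs n), fun K hK hKΩ => ?_⟩
      obtain ⟨C, hC⟩ := gb K hK hKΩ
      refine ⟨C, hC.mono fun n hn => ?_⟩
      have e : ∀ z, ‖(g n z : ℂ)‖ ^ 2 = g n z ^ 2 := fun z => by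
        rw [Complex.norm_real, Real.norm_eq_abs, sq_abs]
      simp only [e]
      exact hn
    have eG : ∀ n, ∀ z ∈ Ω, ((1 / √(lam n) : ℝ) : ℂ) ^ 2 * ((z.im : ℂ) ^ 2 *
        lap (fun w => ((g n w : ℝ) : ℂ)) z) = -(((nu n / lam n : ℝ) : ℂ) * (g n z : ℂ)) := by
      intro n z hz
      rw [Pool.Agent.TH294.RS.lap_re hΩ (gs n) hz]
      have h1 := ge n z hz
      have h3 := (H.pos n).ne'
      have h2 : (1 / √(lam n)) ^ 2 = 1 / lam n := by
        rw [div_pow, Real.sq_sqrt (H.pos n).le, one_pow]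
      have h4 : (1 / √(lam n)) ^ 2 * (z.im ^ 2 * lap (g n) z) = -(nu n / lam n * g n z) := by
        rw [h2]
        have : z.im ^ 2 * lap (g n) z = -(nu n * g n z) := by linarith
        rw [this]; field_simp
      exact_mod_cast h4
    have key := relR6 S S' hBU E E' hC (s := fun n => nu n / lam n) lbg eG hρ k
    refine key.congr fun n => ?_
    have hr : (1 / √(lam n)) / (1 / √(mu n)) = √(mu n) / √(lam n) := by
      rw [one_div, one_div, inv_div_inv]
    have hr2 : (√(mu n) / √(lam n)) ^ 2 = mu n / lam n := by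
      rw [div_pow, Real.sq_sqrt (H.pos n).le, Real.sq_sqrt (H'.pos n).le]
    simp only [FW_eq lam u, FW_eq mu v, hr, hr2]
    rfl

end

end Pool.Agent.K1H18.TP
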