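import Pool.Agent.K1H18.TP.Fun
import Pool.Agent.R314.JN.Low3

/-!
# Triple products: quadratic forms on Laurent polynomials
-/

set_option autoImplicit false
open Filter Topology

namespace Pool.Agent.K1H18.TP

noncomputable section

open AddMonoidAlgebra (single)
open Pool.Agent.W745.RW (CC)

/-- Laurent polynomials in one variable -/
abbrev A1 := AddMonoidAlgebra Bd ℤ
/-- Laurent polynomials in four variables -/
abbrev A4 := AddMonoidAlgebra Bd (ℤ × ℤ × ℤ × ℤ)

/-- complex conjugation of the coefficients -/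
def cjB : Bd →+* Bd where
  toFun c := Bd.mk' (fun n => (starRingEnd ℂ) (c.v n)) (by
    obtain ⟨C, -, hC⟩ := c.bd
    exact ⟨C, fun n => by rw [RCLike.norm_conj]; exact hC n⟩)
  map_one' := Bd.ext' fun n => by simp
  map_mul' a b := Bd.ext' fun n => by simp
  map_zero' := Bd.ext' fun n => by simp
  map_add' a b := Bd.ext' fun n => by simp

@[simp] lemma v_cjB (c : Bd) (n : ℕ) : (cjB c).v n = (starRingEnd ℂ) (c.v n) := rfl

/-- complex conjugation of the coefficients of a polynomial -/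
def cj : A1 →+* A1 := AddMonoidAlgebra.mapRingHom ℤ cjB

lemma cj_single (k : ℤ) (c : Bd) : cj (single k c) = single k (cjB c) :=
  AddMonoidAlgebra.mapRingHom_single cjB k c

/-- the exponents of the first variable -/
def g1 : ℤ →+ ℤ × ℤ × ℤ × ℤ where
  toFun k := (k, 0, -k, 0)
  map_zero' := by simp
  map_add' a b := by simp [Prod.ext_iff]; omega

/-- the exponents of the second variable -/
def g2 : ℤ →+ ℤ × ℤ × ℤ × ℤ where
  toFun k := (0, -k, 0, k)
  map_zero' := by simp
  map_add' a b := by simp [Prod.ext_iff]; omega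

/-- the substitution `T ↦ z1 / z3` -/
def E1 : A1 →+* A4 := AddMonoidAlgebra.mapDomainRingHom Bd g1
/-- the substitution `T ↦ z4 / z2` -/
def E2 : A1 →+* A4 := AddMonoidAlgebra.mapDomainRingHom Bd g2

lemma E1_single (k : ℤ) (c : Bd) : E1 (single k c) = single (k, 0, -k, 0) c :=
  AddMonoidAlgebra.mapDomain_single

lemma E2_single (k : ℤ) (c : Bd) : E2 (single k c) = single (0, -k, 0, k) c :=
  AddMonoidAlgebra.mapDomain_single

/-- the square -/
def FF (φ : A1) : A4 := E1 φ * E2 (cj φ)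

/-- the Gaussian values -/
def gv (m : ℤ × ℤ × ℤ × ℤ) (_ : ℕ) : ℂ := CC m.1 m.2.1 * CC m.2.2.1 m.2.2.2

/-- the sum of the squares of the coefficients -/
def q (φ : A1) (n : ℕ) : ℝ := ∑' k, ‖(φ.coeff k).v n‖ ^ 2

lemma q_summable (φ : A1) (n : ℕ) : Summable fun k => ‖(φ.coeff k).v n‖ ^ 2 := by
  refine summable_of_hasFiniteSupport ?_
  refine φ.coeff.hasFiniteSupport.subset fun k hk => ?_
  intro h
  apply hk
  show ‖(φ.coeff k).v n‖ ^ 2 = 0
  rw [h]; simp

lemma q_nonneg (φ : A1) (n : ℕ) : 0 ≤ q φ n := tsum_nonneg fun k => by positivity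

lemma q_add (φ ψ : A1) (n : ℕ) : q (φ + ψ) n ≤ 2 * q φ n + 2 * q ψ n := by
  unfold q
  rw [← tsum_mul_left, ← tsum_mul_left,
    ← ((q_summable φ n).mul_left 2).tsum_add ((q_summable ψ n).mul_left 2)]
  refine (q_summable (φ + ψ) n).tsum_le_tsum (fun k => ?_)
    (((q_summable φ n).mul_left 2).add ((q_summable ψ n).mul_left 2))
  rw [AddMonoidAlgebra.coeff_add, Finsupp.add_apply, v_add]
  have h := norm_add_le ((φ.coeff k).v n) ((ψ.coeff k).v n)
  have h0 := norm_nonneg ((φ.coeff k).v n + (ψ.coeff k).v n)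
  nlinarith [sq_nonneg (‖(φ.coeff k).v n‖ - ‖(ψ.coeff k).v n‖)]

lemma q_single_mul (k : ℤ) (c : Bd) (φ : A1) (n : ℕ) :
    q (single k c * φ) n = ‖c.v n‖ ^ 2 * q φ n := by
  unfold q
  rw [← tsum_mul_left, ← (Equiv.addLeft k).tsum_eq]
  congr 1; funext m
  rw [AddMonoidAlgebra.coeff_single_mul_apply, v_mul, norm_mul, mul_pow]
  simp

lemma q_mul (p : A1) : ∃ C : ℝ, 0 ≤ C ∧ ∀ φ n, q (p * φ) n ≤ C * q φ n := by
  induction p using AddMonoidAlgebra.induction_linear with
  | zero => exact ⟨0, le_rfl, fun φ n => by simp [q]⟩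
  | add a b ha hb =>
    obtain ⟨C, hC, h1⟩ := ha
    obtain ⟨D, hD, h2⟩ := hb
    refine ⟨2 * C + 2 * D, by positivity, fun φ n => ?_⟩
    rw [add_mul]
    have := q_add (a * φ) (b * φ) n
    have := h1 φ n
    have := h2 φ n
    nlinarith
  | single m r =>
    obtain ⟨C, hC0, hC⟩ := r.bd
    refine ⟨C ^ 2, by positivity, fun φ n => ?_⟩
    rw [q_single_mul]
    exact mul_le_mul_of_nonneg_right (pow_le_pow_left₀ (norm_nonneg _) (hC n) 2) (q_nonneg φ n)

lemma CC_kl (k l : ℤ) : CC k (-l) * CC (-k) l = if k = l then 1 else 0 := by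
  unfold CC
  by_cases h : k = l
  · subst h
    rw [if_pos (by ring), if_pos (by ring), if_pos rfl, Int.natAbs_neg, ← mul_pow]
    norm_num
  · rw [if_neg (by omega), if_neg h, zero_mul]

lemma Lf_gv_single (k : ℤ) (c : Bd) (ψ : A1) (n : ℕ) :
    Lf gv (E1 (single k c) * E2 ψ) n = c.v n * (ψ.coeff k).v n := by
  induction ψ using AddMonoidAlgebra.induction_linear with
  | zero => simp
  | add a b ha hb =>
    rw [map_add, mul_add, Lf_add, ha, hb, AddMonoidAlgebra.coeff_add, Finsupp.add_apply, v_add,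
      mul_add]
  | single m r =>
    rw [E1_single, E2_single, AddMonoidAlgebra.single_mul_single, Lf_single,
      AddMonoidAlgebra.coeff_single, Finsupp.single_apply]
    simp only [gv, Prod.mk_add_mk, add_zero, zero_add, v_mul]
    rw [mul_assoc, CC_kl]
    by_cases h : k = m
    · subst h; simp
    · rw [if_neg h, if_neg (fun e => h e.symm)]; simp

lemma Lf_gv (φ ψ : A1) (n : ℕ) :
    Lf gv (E1 φ * E2 ψ) n = ∑ k ∈ φ.coeff.support, (φ.coeff k).v n * (ψ.coeff k).v n := by
  have h : ∀ φ : A1, Lf gv (E1 φ * E2 ψ) n =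
      φ.coeff.sum fun k c => c.v n * (ψ.coeff k).v n := by
    intro φ
    induction φ using AddMonoidAlgebra.induction_linear with
    | zero => simp
    | add a b ha hb =>
      rw [map_add, add_mul, Lf_add, ha, hb, AddMonoidAlgebra.coeff_add, Finsupp.sum_add_index']
      · intro m; simp
      · intro m a b; simp [add_mul]
    | single m r =>
      rw [Lf_gv_single, AddMonoidAlgebra.coeff_single, Finsupp.sum_single_index]
      simp
  exact h φ

/-- Parseval -/
lemma Lf_gv_FF (φ : A1) (n : ℕ) : Lf gv (FF φ) n = (q φ n : ℂ) := by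
  unfold FF q
  rw [Lf_gv, tsum_eq_sum (s := φ.coeff.support)]
  · push_cast
    refine Finset.sum_congr rfl fun k _ => ?_
    unfold cj
    rw [AddMonoidAlgebra.coeff_mapRingHom, v_cjB, Complex.mul_conj, Complex.normSq_eq_norm_sq]
    push_cast; rfl
  · intro k hk
    rw [Finsupp.notMem_support_iff.1 hk]; simp

/-- uniform asymptotic bounds for the values on all translates -/
def bdd (l : Filter ℕ) (J : ℤ × ℤ × ℤ × ℤ → ℕ → ℂ) (X : A4) (K : ℝ) : Prop :=
  ∀ m, ∀ᶠ n in l, ‖Lf J (X * single m 1) n‖ ≤ K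

variable {l : Filter ℕ} {J : ℤ × ℤ × ℤ × ℤ → ℕ → ℂ} {X Y : A4} {K K' : ℝ}

lemma bdd.add (h : bdd l J X K) (h' : bdd l J Y K') : bdd l J (X + Y) (K + K') := by
  intro m
  filter_upwards [h m, h' m] with n h1 h2
  rw [add_mul, Lf_add]
  exact (norm_add_le _ _).trans (add_le_add h1 h2)

lemma bdd.single_mul (h : bdd l J X K) (m' : ℤ × ℤ × ℤ × ℤ) (c : Bd) {C : ℝ}
    (hC : ∀ n, ‖c.v n‖ ≤ C) : bdd l J (single m' c * X) (C * K) := by
  intro m
  filter_upwards [h (m' + m)] with n h1
  have e : (single m' c * X * single m 1 : A4) = single 0 c * (X * single (m' + m) 1) := by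
    have e1 : (single m' c : A4) = single 0 c * single m' 1 := by
      rw [AddMonoidAlgebra.single_mul_single, zero_add, mul_one]
    have e2 : (single (m' + m) 1 : A4) = single m' 1 * single m 1 := by
      rw [AddMonoidAlgebra.single_mul_single, mul_one]
    rw [e1, e2]; ring
  rw [e, Lf_c, norm_mul]
  exact mul_le_mul (hC n) h1 (norm_nonneg _) ((norm_nonneg _).trans (hC n))

lemma bdd_mul (F : A4) : ∃ C : ℝ, 0 ≤ C ∧ ∀ (X : A4) (K : ℝ), bdd l J X K →
    bdd l J (F * X) (C * K) := by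
  induction F using AddMonoidAlgebra.induction_linear with
  | zero =>
    refine ⟨0, le_rfl, fun X K _ m => Eventually.of_forall fun n => ?_⟩
    simp
  | add a b ha hb =>
    obtain ⟨C, hC, h1⟩ := ha
    obtain ⟨D, hD, h2⟩ := hb
    refine ⟨C + D, by positivity, fun X K h => ?_⟩
    rw [add_mul, add_mul]
    exact (h1 X K h).add (h2 X K h)
  | single m r =>
    obtain ⟨C, hC0, hC⟩ := r.bd
    exact ⟨C, hC0, fun X K h => h.single_mul m r hC⟩

/-- the operator `T + T⁻¹` -/
def cT : A1 := single 1 1 + single (-1) 1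
/-- the operator `T - T⁻¹` -/
def sT : A1 := single 1 1 - single (-1) 1

lemma v_norm_one (n : ℕ) : ‖(1 : Bd).v n‖ ≤ 1 := by simp

lemma q_cT (c : Bd) {κ : ℝ} (hκ : ∀ n, ‖c.v n‖ ≤ κ) (φ : A1) (n : ℕ) :
    q (single 0 c * cT * φ) n ≤ (2 * κ) ^ 2 * q φ n := by
  have e : single 0 c * cT * φ = single 1 c * φ + single (-1) c * φ := by
    unfold cT
    rw [mul_add, add_mul, AddMonoidAlgebra.single_mul_single, AddMonoidAlgebra.single_mul_single]
    simp
  rw [e]
  refine (q_add _ _ n).trans ?_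
  rw [q_single_mul, q_single_mul]
  have h1 := pow_le_pow_left₀ (norm_nonneg _) (hκ n) 2
  have h2 := q_nonneg φ n
  nlinarith [mul_le_mul_of_nonneg_right h1 h2]

lemma bdd_cT (c : Bd) {κ : ℝ} (hκ : ∀ n, ‖c.v n‖ ≤ κ) (h : bdd l J X K) :
    bdd l J (E1 (single 0 c * cT) * X) (2 * κ * K) := by
  have e : E1 (single 0 c * cT) * X = single (1, 0, -1, 0) c * X + single (-1, 0, 1, 0) c * X := by
    unfold cT
    rw [mul_add, AddMonoidAlgebra.single_mul_single, AddMonoidAlgebra.single_mul_single, map_add,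
      E1_single, E1_single, add_mul]
    simp
  rw [e, show 2 * κ * K = κ * K + κ * K by ring]
  exact (h.single_mul _ c hκ).add (h.single_mul _ c hκ)

end

end Pool.Agent.K1H18.TP
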