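import Pool.Agent.K1H18.TP.Rel

/-!
# Triple products: the errors of the ladder are combinations of exact solutions
-/

set_option autoImplicit false
open MeasureTheory Filter Topology Complex Set
open scoped ContDiff Real Manifold

namespace Pool.Agent.K1H18.TP

open Pool.Agent.W745.RW Pool.Agent.TH294.RS Pool.Agent.Y265.HY
open Pool.Agent.R314.JN

noncomputable section

variable {B : Set ℂ} {h κ : ℕ → ℝ} {w v : ℤ → ℕ → ℂ → ℂ}

/-- combinations of exact solutions with smooth coefficients, and powers of `h` -/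
inductive RE (B : Set ℂ) (h : ℕ → ℝ) (w : ℤ → ℕ → ℂ → ℂ) : (ℕ → ℂ → ℂ) → Prop
  | ex {f : ℕ → ℂ → ℂ} : EX B h w f → RE B h w f
  | add {f g : ℕ → ℂ → ℂ} : RE B h w f → RE B h w g → RE B h w (fun n z => f n z + g n z)
  | smul {f : ℕ → ℂ → ℂ} {c : ℂ → ℂ} : ContDiffOn ℝ ∞ c B → RE B h w f →
      RE B h w (fun n z => c z * f n z)
  | hm {f : ℕ → ℂ → ℂ} : RE B h w f → RE B h w (fun n z => (h n : ℂ) * f n z)
  | congr {f g : ℕ → ℂ → ℂ} : RE B h w f → (∀ n, ∀ z ∈ B, g n z = f n z) → RE B h w g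

lemma RE.rp (H : SY B Complex.im h w) {f : ℕ → ℂ → ℂ} (hf : RE B h w f) : RP B h w f := by
  induction hf with
  | ex hf => exact RP.ex hf
  | add _ _ h1 h2 => exact h1.add h2
  | smul hc _ h1 => exact h1.smul hc
  | hm _ h1 => exact RP.err (h1.dec.m H)
  | congr _ e h1 => exact h1.congr e

lemma RE.m (H : SY B Complex.im h w) {f : ℕ → ℂ → ℂ} (hf : RE B h w f) : M2C B h f :=
  (hf.rp H).dec.m H

lemma RE.cmul {f : ℕ → ℂ → ℂ} (hf : RE B h w f) (c : ℂ) : RE B h w (fun n z => c * f n z) :=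
  RE.smul (c := fun _ => c) contDiffOn_const hf

lemma RE.sub {f g : ℕ → ℂ → ℂ} (hf : RE B h w f) (hg : RE B h w g) :
    RE B h w (fun n z => f n z - g n z) :=
  (hf.add (hg.cmul (-1))).congr fun n z _ => by ring

lemma RE.sP (H : SY B Complex.im h w) {f : ℕ → ℂ → ℂ} (hf : RE B h w f) :
    RE B h w (sP Complex.im h f) := by
  have hB := H.op
  induction hf with
  | @ex f hf =>
    refine (((RE.ex (hf.K1 H)).smul (sim.contDiffOn.add (contDiffOn_const.mul
      sre.contDiffOn))).add ((RE.ex (hf.K2 H)).cmul (-I))).congr fun n z _ => sP_K n z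
  | @add f g hf hg h1 h2 =>
    refine (h1.add h2).congr fun n z hz => ?_
    exact P_add hB (hf.m H).sm (hg.m H).sm n hz
  | @smul f c hc hf h1 =>
    refine ((h1.smul hc).add (((hf.smul (dd_sm hB hc)).smul (cxa H.sa)).hm)).congr
      fun n z hz => ?_
    exact P_smul hB hc (hf.m H).sm n hz
  | @hm f hf h1 =>
    refine h1.hm.congr fun n z hz => ?_
    exact P_h hB (hf.m H).sm n hz
  | @congr f g hf e h1 =>
    refine h1.congr fun n z hz => ?_
    exact P_cg hB e n hz

lemma RE.conj {f : ℕ → ℂ → ℂ} (hf : RE B h w f) :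
    RE B h w (fun n z => (starRingEnd ℂ) (f n z)) := by
  induction hf with
  | @ex f hf => exact (RE.ex hf).congr hf.re
  | @add f g hf hg h1 h2 =>
    refine (h1.add h2).congr fun n z hz => ?_
    rw [map_add]
  | @smul f c hc hf h1 =>
    refine (h1.smul (conj_sm hc)).congr fun n z hz => ?_
    rw [map_mul]
  | @hm f hf h1 =>
    refine h1.hm.congr fun n z hz => ?_
    rw [map_mul, conj_ofReal]
  | @congr f g hf e h1 =>
    refine h1.congr fun n z hz => ?_
    rw [e n z hz]

lemma RE.sM (H : SY B Complex.im h w) {f : ℕ → ℂ → ℂ} (hf : RE B h w f) :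
    RE B h w (sM Complex.im h f) := by
  have hB := H.op
  have sf := (hf.m H).sm
  refine (((hf.conj).sP H).conj).congr fun n z hz => ?_
  have e1 := P_conj (h := h) hB (f := f) sf n hz
  have e2 : TH294.RS.sP Complex.im h (fun n z => (starRingEnd ℂ) (f n z)) n z =
      (starRingEnd ℂ) (TH294.RS.sM Complex.im h f n z) := e1
  rw [e2, Complex.conj_conj]

variable {u : ℕ → ℂ → ℂ}

lemma RE.wn (H : SY B Complex.im h (ww Complex.im h u))
    (h0 : EX B h (ww Complex.im h u) (ww Complex.im h u 0)) (k : ℕ) :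
    RE B h (ww Complex.im h u) (TH294.RS.wn Complex.im h u k) := by
  induction k with
  | zero => exact RE.ex h0
  | succ k ih =>
    have : TH294.RS.wn Complex.im h u (k + 1) =
        TH294.RS.sP Complex.im h (TH294.RS.wn Complex.im h u k) := by
      funext n
      exact wn_succ Complex.im h u k n
    rw [this]; exact ih.sP H

/-- the errors -/
lemma errsE (H : SY B Complex.im h (ww Complex.im h u))
    (h0 : EX B h (ww Complex.im h u) (ww Complex.im h u 0)) (k : ℕ) :
    ∃ E, RE B h (ww Complex.im h u) E ∧ ∀ n, ∀ z ∈ B,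
      DM Complex.im (h n) (TH294.RS.wn Complex.im h u (k + 1) n) z =
      - TH294.RS.wn Complex.im h u k n z + (h n : ℂ) * E n z := by
  have hB := H.op
  have ha := H.sa
  have W := fun k => RE.wn H h0 k
  have sW : ∀ k n, ContDiffOn ℝ ∞ (TH294.RS.wn Complex.im h u k n) B := fun k n =>
    ((W k).m H).sm n
  induction k with
  | zero =>
    refine ⟨fun n z => ab Complex.im z * TH294.RS.wn Complex.im h u 1 n z,
      (W 1).smul (ab_sm hB ha), fun n z hz => ?_⟩
    have e0 : TH294.RS.wn Complex.im h u 0 n = u n := rfl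
    have he := h0.pde n z hz
    have he' : (h n : ℂ) ^ 2 * ((z.im : ℂ) ^ 2 * lap (u n) z) = - u n z := by
      have e3 : ww Complex.im h u 0 n z = u n z := rfl
      have e4 : hL h (ww Complex.im h u 0) n z = (h n : ℂ) ^ 2 * lap (u n) z := rfl
      rw [e3, e4] at he
      linear_combination he
    show _ = - TH294.RS.wn Complex.im h u 0 n z +
      (h n : ℂ) * (ab Complex.im z * TH294.RS.wn Complex.im h u 1 n z)
    have sU : ContDiffOn ℝ ∞ (u n) B := sW 0 n
    rw [wn_succ, e0, MP hB ha (h n) sU hz, he']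
  | succ k ih =>
    obtain ⟨E, hE, hE'⟩ := ih
    refine ⟨fun n z => TH294.RS.sP Complex.im h E n z +
      (ab Complex.im z * TH294.RS.wn Complex.im h u (k + 2) n z -
      ad Complex.im z * TH294.RS.sM Complex.im h (TH294.RS.wn Complex.im h u (k + 1)) n z), ?_,
      fun n z hz => ?_⟩
    · exact (hE.sP H).add (((W (k + 2)).smul (ab_sm hB ha)).sub
        (((W (k + 1)).sM H).smul (ad_sm hB ha)))
    · have s1 := sW (k + 1) n
      rw [wn_succ Complex.im h u (k + 1) n, MP hB ha (h n) s1 hz]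
      have e1 := PM hB ha (h n) s1 hz
      have e2 : DP Complex.im (h n) (DM Complex.im (h n) (TH294.RS.wn Complex.im h u (k + 1) n)) z =
          DP Complex.im (h n) (fun w => - TH294.RS.wn Complex.im h u k n w + (h n : ℂ) * E n w) z :=
        DP_cg hB (h n) (hE' n) hz
      rw [DP_add (h n) (fda hB (sW k n) hz) (fda hB ((hE.m H).sm n) hz)] at e2
      have e3 : TH294.RS.wn Complex.im h u (k + 2) n z =
          DP Complex.im (h n) (TH294.RS.wn Complex.im h u (k + 1) n) z := by
        rw [wn_succ Complex.im h u (k + 1) n]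
      have e4 : TH294.RS.wn Complex.im h u (k + 1) n z =
          DP Complex.im (h n) (TH294.RS.wn Complex.im h u k n) z := by
        rw [wn_succ Complex.im h u k n]
      simp only [TH294.RS.sP, TH294.RS.sM]
      rw [e3]
      rw [← e4] at e2
      linear_combination (-1 : ℂ) * e1 + e2

lemma RE.zero (h0 : EX B h w (w 0)) : RE B h w (fun _ _ => 0) :=
  ((RE.ex h0).cmul 0).congr fun n z _ => by ring

/-- the whole ladder -/
lemma RE.W (H : SY B Complex.im h (ww Complex.im h u))
    (h0 : EX B h (ww Complex.im h u) (ww Complex.im h u 0))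
    (hu : ∀ n z, (starRingEnd ℂ) (u n z) = u n z) (k : ℤ) :
    RE B h (ww Complex.im h u) (ww Complex.im h u k) := by
  rcases Int.eq_nat_or_neg k with ⟨m, rfl | rfl⟩
  · exact RE.wn H h0 m
  · exact (((RE.wn H h0 m).conj).cmul ((-1) ^ m)).congr fun n z _ => ww_neg hu m n z

/-- raising, with errors of class `RE` -/
lemma upE (H : SY B Complex.im h (ww Complex.im h u))
    (h0 : EX B h (ww Complex.im h u) (ww Complex.im h u 0))
    (hu : ∀ n z, (starRingEnd ℂ) (u n z) = u n z) (k : ℤ) :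
    ∃ e, RE B h (ww Complex.im h u) e ∧ ∀ n, ∀ z ∈ B,
      DP Complex.im (h n) (ww Complex.im h u k n) z = ww Complex.im h u (k + 1) n z +
        (h n : ℂ) * e n z := by
  have hB := H.op
  rcases Int.eq_nat_or_neg k with ⟨m, rfl | rfl⟩
  · refine ⟨_, RE.zero h0, fun n z hz => ?_⟩
    have e1 : ((m : ℤ) + 1) = ((m + 1 : ℕ) : ℤ) := by push_cast; rfl
    rw [e1, ww_nat, ww_nat, wn_succ]
    simp
  · cases m with
    | zero =>
      refine ⟨_, RE.zero h0, fun n z hz => ?_⟩
      have e1 : (-((0 : ℕ) : ℤ) + 1) = ((1 : ℕ) : ℤ) := by simp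
      have e2 : (-((0 : ℕ) : ℤ)) = ((0 : ℕ) : ℤ) := by simp
      rw [e1, e2, ww_nat, ww_nat, wn_succ]
      simp
    | succ m =>
      obtain ⟨E, hE, hE'⟩ := errsE H h0 m
      refine ⟨fun n z => (-1) ^ (m + 1) * (starRingEnd ℂ) (E n z),
        (hE.conj).cmul _, fun n z hz => ?_⟩
      have e1 : (-((m + 1 : ℕ) : ℤ) + 1) = -(m : ℤ) := by push_cast; ring
      rw [e1, ww_neg hu]
      have e2 : ww Complex.im h u (-((m + 1 : ℕ) : ℤ)) n =
          fun z => (-1) ^ (m + 1) * (starRingEnd ℂ) (TH294.RS.wn Complex.im h u (m + 1) n z) := by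
        funext z; exact ww_neg hu (m + 1) n z
      have d := fda hB (((RE.wn H h0 (m + 1)).m H).sm n) hz
      rw [e2, DP_cm (h n) (conj_da d), DP_conj (h n) d, hE' n z hz, map_add, map_neg, map_mul,
        conj_ofReal]
      ring

/-- lowering, with errors of class `RE` -/
lemma dnE (H : SY B Complex.im h (ww Complex.im h u))
    (h0 : EX B h (ww Complex.im h u) (ww Complex.im h u 0))
    (hu : ∀ n z, (starRingEnd ℂ) (u n z) = u n z) (k : ℤ) :
    ∃ e, RE B h (ww Complex.im h u) e ∧ ∀ n, ∀ z ∈ B,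
      DM Complex.im (h n) (ww Complex.im h u k n) z = - ww Complex.im h u (k - 1) n z +
        (h n : ℂ) * e n z := by
  have hB := H.op
  rcases Int.eq_nat_or_neg k with ⟨m, rfl | rfl⟩
  · cases m with
    | zero =>
      refine ⟨_, RE.zero h0, fun n z hz => ?_⟩
      have e1 : (((0 : ℕ) : ℤ) - 1) = -((1 : ℕ) : ℤ) := by simp
      rw [e1, ww_neg hu, ww_nat, wn_succ]
      have e2 : TH294.RS.wn Complex.im h u 0 n = u n := rfl
      have d := fda hB (((RE.wn H h0 0).m H).sm n) hz
      have e3 : u n = fun w => (starRingEnd ℂ) (u n w) := by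
        funext w; exact (hu n w).symm
      have e4 : DM Complex.im (h n) (u n) z = (starRingEnd ℂ) (DP Complex.im (h n) (u n) z) := by
        conv_lhs => rw [e3]
        exact DM_conj (h n) d
      rw [e2, e4]
      ring
    | succ m =>
      obtain ⟨E, hE, hE'⟩ := errsE H h0 m
      refine ⟨E, hE, fun n z hz => ?_⟩
      have e1 : (((m + 1 : ℕ) : ℤ) - 1) = ((m : ℕ) : ℤ) := by push_cast; ring
      rw [e1, ww_nat, ww_nat]
      exact hE' n z hz
  · refine ⟨_, RE.zero h0, fun n z hz => ?_⟩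
    have e1 : (-(m : ℤ) - 1) = -((m + 1 : ℕ) : ℤ) := by push_cast; ring
    rw [e1, ww_neg hu, wn_succ]
    have e2 : ww Complex.im h u (-(m : ℤ)) n =
        fun z => (-1) ^ m * (starRingEnd ℂ) (TH294.RS.wn Complex.im h u m n z) := by
      funext z; exact ww_neg hu m n z
    have d := fda hB (((RE.wn H h0 m).m H).sm n) hz
    rw [e2, DM_cm (h n) (conj_da d), DM_conj (h n) d, pow_succ]
    ring

end

end Pool.Agent.K1H18.TP
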